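import Mathlib

set_option autoImplicit false

namespace Pool.Agent.BSub

/-! Auxiliary lemmas for `exists_exponents` (prefix `asg`). -/

theorem asg_sidon_aux {a b c e : ℕ} (hba : b ≤ a) (hec : e ≤ c)
    (h : (3 : ℕ) ^ a + 3 ^ b = 3 ^ c + 3 ^ e) : a = c ∧ b = e := by
  have key : ∀ {a b c e : ℕ}, b ≤ a → (3 : ℕ) ^ a + 3 ^ b = 3 ^ c + 3 ^ e → ¬ a < c := by
    intro a b c e hba h hac
    have h1 : (3 : ℕ) ^ b ≤ 3 ^ a := Nat.pow_le_pow_right (by norm_num) hba
    have h2 : (3 : ℕ) ^ (a + 1) ≤ 3 ^ c := Nat.pow_le_pow_right (by norm_num) hac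
    have h3 : 0 < (3 : ℕ) ^ e := by positivity
    rw [pow_succ] at h2
    omega
  have h1 := key hba h
  have h2 := key hec h.symm
  have hac : a = c := by omega
  subst hac
  refine ⟨rfl, ?_⟩
  have h3 : (3 : ℕ) ^ b = 3 ^ e := by omega
  exact Nat.pow_right_injective (by norm_num : 2 ≤ 3) h3

theorem asg_sidon {a b c e : ℕ} (h : (3 : ℕ) ^ a + 3 ^ b = 3 ^ c + 3 ^ e) :
    (a = c ∧ b = e) ∨ (a = e ∧ b = c) := by
  rcases le_total b a with h1 | h1 <;> rcases le_total e c with h2 | h2
  · exact Or.inl (asg_sidon_aux h1 h2 h)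
  · exact Or.inr (asg_sidon_aux h1 h2 (by omega))
  · have := asg_sidon_aux h1 h2 (by omega)
    exact Or.inr ⟨this.2, this.1⟩
  · have := asg_sidon_aux h1 h2 (by omega)
    exact Or.inl ⟨this.2, this.1⟩

/-- the pair consisting of `x` and of the values of `f` off `x` -/
def asgKey {d n : ℕ} (x : Fin d) (f : Fin d → Fin n) : Fin d × (Fin d → Option (Fin n)) :=
  (x, fun y => if y = x then none else some (f y))

theorem asgKey_inj {d n : ℕ} {x x' : Fin d} {f f' : Fin d → Fin n}
    (h : asgKey x f = asgKey x' f') : x = x' ∧ ∀ y, y ≠ x → f y = f' y := by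
  unfold asgKey at h
  rw [Prod.mk.injEq] at h
  obtain ⟨h1, h2⟩ := h
  subst h1
  refine ⟨rfl, fun y hy => ?_⟩
  have := congrFun h2 y
  simpa [hy] using this

theorem asgKey_congr {d n : ℕ} {x : Fin d} {f f' : Fin d → Fin n}
    (h : ∀ y, y ≠ x → f y = f' y) : asgKey x f = asgKey x f' := by
  unfold asgKey
  congr 1
  funext y
  by_cases hy : y = x
  · simp [hy]
  · simp [hy, h y hy]

/-- a natural number coding `asgKey x f` -/
noncomputable def asgCode {d n : ℕ} (x : Fin d) (f : Fin d → Fin n) : ℕ :=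
  (Fintype.equivFin (Fin d × (Fin d → Option (Fin n))) (asgKey x f)).val

theorem asgCode_inj {d n : ℕ} {x x' : Fin d} {f f' : Fin d → Fin n}
    (h : asgCode x f = asgCode x' f') : x = x' ∧ ∀ y, y ≠ x → f y = f' y :=
  asgKey_inj ((Fintype.equivFin _).injective (Fin.ext h))

/-- the value of the coordinate `x` -/
noncomputable def asgVal {d n : ℕ} (lam : Fin d → Fin n → ℕ) (f : Fin d → Fin n) (x : Fin d) : ℕ :=
  3 ^ asgCode x f + lam x (f x)

/-- the minimum of the values -/
noncomputable def asgMu {d n : ℕ} [Nonempty (Fin d)] (lam : Fin d → Fin n → ℕ)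
    (f : Fin d → Fin n) : ℕ :=
  Finset.univ.inf' Finset.univ_nonempty (asgVal lam f)

theorem asgMu_le {d n : ℕ} [Nonempty (Fin d)] (lam : Fin d → Fin n → ℕ) (f : Fin d → Fin n)
    (x : Fin d) : asgMu lam f ≤ asgVal lam f x :=
  Finset.inf'_le _ (Finset.mem_univ x)

theorem le_asgMu {d n : ℕ} [Nonempty (Fin d)] (lam : Fin d → Fin n → ℕ) (f : Fin d → Fin n)
    {m : ℕ} (h : ∀ x, m ≤ asgVal lam f x) : m ≤ asgMu lam f :=
  Finset.le_inf' _ _ (fun x _ => h x)

theorem asg_layer {M m : ℕ} (h : m ≤ M) :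
    ∑ s ∈ Finset.range M, (if s < m then 1 else 0) = m := by
  rw [← Finset.sum_filter, ← Finset.card_eq_sum_ones]
  have : (Finset.range M).filter (fun s => s < m) = Finset.range m := by
    ext s
    simp only [Finset.mem_filter, Finset.mem_range]
    omega
  rw [this, Finset.card_range]

/-- the layer cake bound -/
theorem asg_min_le {d n : ℕ} [Nonempty (Fin d)] (Λ : Finset (Fin d → Fin n)) (C : ℕ)
    (hall : ∀ S : Fin d → Finset (Fin n),
      (Λ.filter fun f => ∀ x, f x ∈ S x).card ≤ C * ∑ x, (S x).card)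
    (lam : Fin d → Fin n → ℕ) :
    ∑ f ∈ Λ, Finset.univ.inf' Finset.univ_nonempty (fun x => lam x (f x)) ≤
      C * ∑ x, ∑ l, lam x l := by
  obtain ⟨M, hM⟩ : ∃ M, M = ∑ x, ∑ l, lam x l := ⟨_, rfl⟩
  have hle : ∀ x l, lam x l ≤ M := by
    intro x l
    rw [hM]
    calc lam x l ≤ ∑ l, lam x l := Finset.single_le_sum (f := fun l => lam x l)
          (fun _ _ => Nat.zero_le _) (Finset.mem_univ l)
      _ ≤ _ := Finset.single_le_sum (f := fun x => ∑ l, lam x l)
          (fun _ _ => Nat.zero_le _) (Finset.mem_univ x)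
  have h1 : ∀ f : Fin d → Fin n, Finset.univ.inf' Finset.univ_nonempty (fun x => lam x (f x)) =
      ∑ s ∈ Finset.range M, (if ∀ x, s < lam x (f x) then 1 else 0) := by
    intro f
    have hm : Finset.univ.inf' Finset.univ_nonempty (fun x => lam x (f x)) ≤ M := by
      have x : Fin d := Classical.arbitrary _
      exact (Finset.inf'_le _ (Finset.mem_univ x)).trans (hle _ _)
    rw [← asg_layer hm]
    refine Finset.sum_congr rfl (fun s _ => ?_)
    have : s < Finset.univ.inf' Finset.univ_nonempty (fun x => lam x (f x)) ↔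
        ∀ x, s < lam x (f x) := by
      rw [Finset.lt_inf'_iff]
      simp
    simp only [this]
  calc ∑ f ∈ Λ, Finset.univ.inf' Finset.univ_nonempty (fun x => lam x (f x))
      = ∑ f ∈ Λ, ∑ s ∈ Finset.range M, (if ∀ x, s < lam x (f x) then 1 else 0) :=
        Finset.sum_congr rfl (fun f _ => h1 f)
    _ = ∑ s ∈ Finset.range M, ∑ f ∈ Λ, (if ∀ x, s < lam x (f x) then 1 else 0) :=
        Finset.sum_comm
    _ ≤ ∑ s ∈ Finset.range M, C * ∑ x, ∑ l, (if s < lam x l then 1 else 0) := by
        refine Finset.sum_le_sum (fun s _ => ?_)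
        rw [← Finset.sum_filter, ← Finset.card_eq_sum_ones]
        have h2 := hall (fun x => Finset.univ.filter (fun l => s < lam x l))
        simp only [Finset.mem_filter, Finset.mem_univ, true_and] at h2
        refine h2.trans (le_of_eq ?_)
        congr 1
        refine Finset.sum_congr rfl (fun x _ => ?_)
        rw [Finset.card_eq_sum_ones, Finset.sum_filter]
    _ = C * ∑ x, ∑ l, ∑ s ∈ Finset.range M, (if s < lam x l then 1 else 0) := by
        rw [← Finset.mul_sum]
        congr 1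
        rw [Finset.sum_comm]
        refine Finset.sum_congr rfl (fun x _ => ?_)
        rw [Finset.sum_comm]
    _ = C * ∑ x, ∑ l, lam x l := by
        congr 1
        refine Finset.sum_congr rfl (fun x _ => Finset.sum_congr rfl (fun l _ => ?_))
        exact asg_layer (hle x l)

/-- existence of a maximiser of the concave functional, in the form needed below -/
theorem asg_exists_max {d n : ℕ} [Nonempty (Fin d)] (Λ : Finset (Fin d → Fin n)) (C : ℕ)
    (hall : ∀ S : Fin d → Finset (Fin n),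
      (Λ.filter fun f => ∀ x, f x ∈ S x).card ≤ C * ∑ x, (S x).card) :
    ∃ lam : Fin d → Fin n → ℕ, ∀ lam' : Fin d → Fin n → ℕ,
      (∑ f ∈ Λ, (asgMu lam' f : ℤ)) - (C + 1) * ∑ x, ∑ l, (lam' x l : ℤ) ≤
      (∑ f ∈ Λ, (asgMu lam f : ℤ)) - (C + 1) * ∑ x, ∑ l, (lam x l : ℤ) := by
  classical
  obtain ⟨W, hW⟩ : ∃ W : ℕ, ∀ (x : Fin d) (f : Fin d → Fin n), 3 ^ asgCode x f ≤ W := by
    refine ⟨∑ x : Fin d, ∑ f : Fin d → Fin n, 3 ^ asgCode x f, fun x f => ?_⟩
    calc 3 ^ asgCode x f ≤ ∑ f : Fin d → Fin n, 3 ^ asgCode x f :=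
          Finset.single_le_sum (f := fun f => 3 ^ asgCode x f)
          (fun _ _ => Nat.zero_le _) (Finset.mem_univ f)
      _ ≤ _ := Finset.single_le_sum (f := fun x => ∑ f : Fin d → Fin n, 3 ^ asgCode x f)
          (fun _ _ => Nat.zero_le _) (Finset.mem_univ x)
  obtain ⟨ub, ⟨lam, hlam⟩, hub⟩ := Int.exists_greatest_of_bdd
    (P := fun z => ∃ lam : Fin d → Fin n → ℕ,
      z = (∑ f ∈ Λ, (asgMu lam f : ℤ)) - (C + 1) * ∑ x, ∑ l, (lam x l : ℤ)) (by
    refine ⟨Λ.card * W, ?_⟩
    rintro z ⟨lam, rfl⟩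
    have h1 := asg_min_le Λ C hall lam
    have h2 : ∀ f : Fin d → Fin n, asgMu lam f ≤
        W + Finset.univ.inf' Finset.univ_nonempty (fun x => lam x (f x)) := by
      intro f
      obtain ⟨x, -, hx⟩ := Finset.exists_mem_eq_inf' (s := (Finset.univ : Finset (Fin d)))
        Finset.univ_nonempty (fun x => lam x (f x))
      rw [hx]
      exact (asgMu_le lam f x).trans (Nat.add_le_add_right (hW x f) _)
    have h3 : ∑ f ∈ Λ, asgMu lam f ≤ Λ.card * W + C * ∑ x, ∑ l, lam x l := by
      calc ∑ f ∈ Λ, asgMu lam f ≤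
          ∑ f ∈ Λ, (W + Finset.univ.inf' Finset.univ_nonempty (fun x => lam x (f x))) :=
            Finset.sum_le_sum (fun f _ => h2 f)
        _ = Λ.card * W + ∑ f ∈ Λ, Finset.univ.inf' Finset.univ_nonempty
              (fun x => lam x (f x)) := by
            rw [Finset.sum_add_distrib, Finset.sum_const, smul_eq_mul]
        _ ≤ _ := Nat.add_le_add_left h1 _
    have h4 : (∑ f ∈ Λ, (asgMu lam f : ℤ)) ≤ Λ.card * W + C * ∑ x, ∑ l, (lam x l : ℤ) := by
      exact_mod_cast h3
    have h5 : (0 : ℤ) ≤ ∑ x, ∑ l, (lam x l : ℤ) := by positivity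
    linarith) ⟨_, ⟨fun _ _ => 0, rfl⟩⟩
  refine ⟨lam, fun lam' => ?_⟩
  rw [← hlam]
  exact hub _ ⟨lam', rfl⟩

theorem exists_exponents {d n : ℕ} (hd : 1 ≤ d) (Λ : Finset (Fin d → Fin n)) (C r : ℕ)
    (hΛ : ∀ f ∈ Λ, ∀ x, (f x).val < r)
    (hall : ∀ S : Fin d → Finset (Fin n),
      (Λ.filter fun f => ∀ x, f x ∈ S x).card ≤ C * ∑ x, (S x).card) :
    ∃ (w : Fin d → (Fin d → Fin n) → ℕ) (lam : Fin d → Fin n → ℕ) (θ : (Fin d → Fin n) → Fin d),
      (∀ x f f', (∀ x', x' ≠ x → f x' = f' x') → w x f = w x f') ∧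
      (∀ f ∈ Λ, ∀ x, x ≠ θ f → w (θ f) f + lam (θ f) (f (θ f)) < w x f + lam x (f x)) ∧
      (∀ x l, (Λ.filter fun f => θ f = x ∧ f x = l).card ≤ C + 1 + (d - 1) * r) := by
  classical
  have : Nonempty (Fin d) := ⟨⟨0, by omega⟩⟩
  obtain ⟨lam, hmax⟩ := asg_exists_max Λ C hall
  -- strict argmins
  have hU : ∀ x l, (Λ.filter fun f => f x = l ∧
      ∀ y, y ≠ x → asgVal lam f x < asgVal lam f y).card ≤ C + 1 := by
    intro x l
    obtain ⟨lam', hlam'⟩ : ∃ lam' : Fin d → Fin n → ℕ,
        lam' = fun y m => lam y m + (if y = x ∧ m = l then 1 else 0) := ⟨_, rfl⟩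
    have h1 := hmax lam'
    have h2 : ∑ y, ∑ m, (lam' y m : ℤ) = ∑ y, ∑ m, (lam y m : ℤ) + 1 := by
      rw [hlam']
      push_cast
      simp_rw [Finset.sum_add_distrib]
      congr 1
      rw [Finset.sum_eq_single x]
      · rw [Finset.sum_eq_single l]
        · simp
        · intro b _ hb; simp [hb]
        · intro h; exact absurd (Finset.mem_univ l) h
      · intro b _ hb; simp [hb]
      · intro h; exact absurd (Finset.mem_univ x) h
    have hval : ∀ f y, asgVal lam f y ≤ asgVal lam' f y := by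
      intro f y
      unfold asgVal
      rw [hlam']
      simp only
      omega
    have h3 : ∀ f, asgMu lam f + (if f x = l ∧
        ∀ y, y ≠ x → asgVal lam f x < asgVal lam f y then 1 else 0) ≤ asgMu lam' f := by
      intro f
      split_ifs with hf
      · apply le_asgMu
        intro y
        by_cases hy : y = x
        · subst hy
          have h4 := asgMu_le lam f y
          have h5 : asgVal lam' f y = asgVal lam f y + 1 := by
            unfold asgVal
            rw [hlam']
            simp only [hf.1, and_self, if_true]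
            omega
          omega
        · have h4 := asgMu_le lam f x
          have h5 := hf.2 y hy
          have h6 := hval f y
          omega
      · rw [add_zero]
        apply le_asgMu
        intro y
        exact (asgMu_le lam f y).trans (hval f y)
    have h4 : ∑ f ∈ Λ, (asgMu lam f : ℤ) + ((Λ.filter fun f => f x = l ∧
      ∀ y, y ≠ x → asgVal lam f x < asgVal lam f y).card : ℤ) ≤ ∑ f ∈ Λ, (asgMu lam' f : ℤ) := by
      have h5 : ∑ f ∈ Λ, (asgMu lam f + (if f x = l ∧
        ∀ y, y ≠ x → asgVal lam f x < asgVal lam f y then 1 else 0)) ≤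
          ∑ f ∈ Λ, asgMu lam' f := Finset.sum_le_sum (fun f _ => h3 f)
      rw [Finset.sum_add_distrib, ← Finset.sum_filter, ← Finset.card_eq_sum_ones] at h5
      exact_mod_cast h5
    rw [h2] at h1
    have h6 : ((Λ.filter fun f => f x = l ∧
      ∀ y, y ≠ x → asgVal lam f x < asgVal lam f y).card : ℤ) ≤ C + 1 := by
      nlinarith
    exact_mod_cast h6
  -- ties
  have htie : ∀ (x x' : Fin d) (f f' : Fin d → Fin n), x' ≠ x → f x = f' x → f x' = f' x' →
      asgVal lam f x = asgVal lam f x' → asgVal lam f' x = asgVal lam f' x' → f = f' := by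
    intro x x' f f' hx h1 h2 h3 h4
    unfold asgVal at h3 h4
    rw [h1, h2] at h3
    have h5 : 3 ^ asgCode x f + 3 ^ asgCode x' f' = 3 ^ asgCode x f' + 3 ^ asgCode x' f := by
      omega
    rcases asg_sidon h5 with h6 | h6
    · have h7 := (asgCode_inj h6.1).2
      funext y
      by_cases hy : y = x
      · rw [hy, h1]
      · exact h7 y hy
    · exact absurd (asgCode_inj h6.1).1.symm hx
  have hT : ∀ x l, (Λ.filter fun f => f x = l ∧
      ∃ y, y ≠ x ∧ asgVal lam f x = asgVal lam f y).card ≤ (d - 1) * r := by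
    intro x l
    have hcard : ((Finset.univ.erase x) ×ˢ Finset.range r).card = (d - 1) * r := by
      rw [Finset.card_product, Finset.card_erase_of_mem (Finset.mem_univ x), Finset.card_univ,
        Fintype.card_fin, Finset.card_range]
    rw [← hcard]
    have hch : ∀ f : Fin d → Fin n, ∃ y : Fin d,
        (∃ y, y ≠ x ∧ asgVal lam f x = asgVal lam f y) →
        (y ≠ x ∧ asgVal lam f x = asgVal lam f y) := by
      intro f
      by_cases h : ∃ y, y ≠ x ∧ asgVal lam f x = asgVal lam f y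
      · obtain ⟨y, hy⟩ := h
        exact ⟨y, fun _ => hy⟩
      · exact ⟨x, fun h' => absurd h' h⟩
    choose Y hY using hch
    refine Finset.card_le_card_of_injOn (fun f => (Y f, (f (Y f)).val)) ?_ ?_
    · intro f hf
      rw [Finset.mem_coe, Finset.mem_filter] at hf
      rw [Finset.mem_coe, Finset.mem_product]
      have h1 := hY f hf.2.2
      exact ⟨Finset.mem_erase.2 ⟨h1.1, Finset.mem_univ _⟩, Finset.mem_range.2 (hΛ f hf.1 _)⟩
    · intro f hf f' hf' hff
      rw [Finset.mem_coe, Finset.mem_filter] at hf hf'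
      simp only [Prod.mk.injEq] at hff
      have h1 := hY f hf.2.2
      have h2 := hY f' hf'.2.2
      rw [← hff.1] at h2
      have h3 : f (Y f) = f' (Y f) := by
        apply Fin.ext
        rw [hff.2, hff.1]
      exact htie x (Y f) f f' h1.1 (by rw [hf.2.1, hf'.2.1]) h3 h1.2 h2.2
  -- the final exponents
  have hmin : ∀ f : Fin d → Fin n, ∃ x : Fin d, ∀ y : Fin d,
      d * asgVal lam f x + x.val ≤ d * asgVal lam f y + y.val := by
    intro f
    obtain ⟨x, -, hx⟩ := Finset.exists_min_image (Finset.univ : Finset (Fin d))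
      (fun x => d * asgVal lam f x + x.val) Finset.univ_nonempty
    exact ⟨x, fun y => hx y (Finset.mem_univ y)⟩
  choose θ hθ using hmin
  refine ⟨fun x f => d * 3 ^ asgCode x f + x.val, fun x l => d * lam x l, θ, ?_, ?_, ?_⟩
  · intro x f f' h
    have : asgCode x f = asgCode x f' := by
      unfold asgCode
      rw [asgKey_congr h]
    simp only [this]
  · intro f _ x hx
    have h1 := hθ f x
    have e1 : ∀ y : Fin d, d * 3 ^ asgCode y f + y.val + d * lam y (f y) =
        d * asgVal lam f y + y.val := by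
      intro y
      unfold asgVal
      ring
    simp only [e1]
    refine lt_of_le_of_ne h1 (fun h => hx ?_)
    have h2 : (d * asgVal lam f (θ f) + (θ f).val) % d = (d * asgVal lam f x + x.val) % d := by
      rw [h]
    rw [Nat.mul_add_mod, Nat.mul_add_mod, Nat.mod_eq_of_lt (θ f).2, Nat.mod_eq_of_lt x.2] at h2
    exact (Fin.ext h2).symm
  · intro x l
    have hsub : (Λ.filter fun f => θ f = x ∧ f x = l) ⊆
        (Λ.filter fun f => f x = l ∧ ∀ y, y ≠ x → asgVal lam f x < asgVal lam f y) ∪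
        (Λ.filter fun f => f x = l ∧ ∃ y, y ≠ x ∧ asgVal lam f x = asgVal lam f y) := by
      intro f hf
      rw [Finset.mem_filter] at hf
      obtain ⟨hf1, hf2, hf3⟩ := hf
      have hle : ∀ y, asgVal lam f x ≤ asgVal lam f y := by
        intro y
        have h1 := hθ f y
        rw [hf2] at h1
        by_contra hlt
        push Not at hlt
        have h2 : d * (asgVal lam f y + 1) ≤ d * asgVal lam f x := Nat.mul_le_mul_left d hlt
        have h3 := y.2
        rw [Nat.mul_add, Nat.mul_one] at h2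
        omega
      rw [Finset.mem_union, Finset.mem_filter, Finset.mem_filter]
      by_cases h : ∃ y, y ≠ x ∧ asgVal lam f x = asgVal lam f y
      · exact Or.inr ⟨hf1, hf3, h⟩
      · refine Or.inl ⟨hf1, hf3, fun y hy => lt_of_le_of_ne (hle y) (fun h' => h ⟨y, hy, h'⟩)⟩
    calc (Λ.filter fun f => θ f = x ∧ f x = l).card ≤ _ := Finset.card_le_card hsub
      _ ≤ _ := Finset.card_union_le _ _
      _ ≤ C + 1 + (d - 1) * r := Nat.add_le_add (hU x l) (hT x l)

end Pool.Agent.BSub
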