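import Mathlib.Algebra.BigOperators.Group.Finset.Basic
import Mathlib.Algebra.Order.Archimedean.Real.Basic
import Mathlib.Data.Fintype.Pi
import Mathlib.Order.Interval.Set.Basic

set_option autoImplicit false

namespace Pool.Agent.BSub

/-- the zero pattern: nonconstant `f` with values `< r` whose maximal value `m` is attained at the
coordinate `m mod d` -/
def zeroSet (d n r : ℕ) : Finset (Fin d → Fin n) :=
  Finset.univ.filter fun f => (∀ x, (f x).val < r) ∧ (¬ ∀ x y, f x = f y) ∧
    ∃ x : Fin d, (∀ y, f y ≤ f x) ∧ (f x).val % d = x.val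

/-- the bound for the number of main elements in a symmetric box with `a` slots per factor -/
def gBound (d T a : ℕ) : ℕ := ∑ j ∈ Finset.range T, (min (d * (T - 1 - j)) (a - 1 - j)) ^ (d - 1)

/-- the function whose maximum on `[0, 1]` is the constant in the lower bound -/
noncomputable def nuFun (d : ℕ) (u : ℝ) : ℝ :=
  (((1 + ((d : ℝ) - 1) * u) / d) ^ d - (((d : ℝ) - 1) / d) * u ^ d) / (1 + ((d : ℝ) - 1) * u)

/-- the constant in the lower bound -/
noncomputable def nu (d : ℕ) : ℝ := sSup (nuFun d '' Set.Icc 0 1)

end Pool.Agent.BSub
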