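import Mathlib
import Pool.Agent.Lib.MP_79bff1_ag.Zero

set_option autoImplicit false

namespace Pool.Agent.BSub

/-- Lower bound for power sums. -/
theorem as_pow_le_sum (e r : ℕ) :
    r ^ (e + 1) ≤ (e + 1) * ∑ k ∈ Finset.range r, (k + 1) ^ e := by
  induction r with
  | zero => simp
  | succ r ih =>
    rw [Finset.sum_range_succ, mul_add]
    have h : (r + 1) ^ (e + 1) ≤ r ^ (e + 1) + (e + 1) * (r + 1) ^ e := by
      clear ih
      induction e with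
      | zero => simp
      | succ e ih =>
        have h1 : (r + 1) ^ (e + 1 + 1) = (r + 1) * (r + 1) ^ (e + 1) := by ring
        have h2 := Nat.mul_le_mul_left (r + 1) ih
        have h3 : r ^ (e + 1) ≤ (r + 1) ^ (e + 1) := Nat.pow_le_pow_left (Nat.le_succ r) _
        rw [h1]
        refine h2.trans ?_
        calc (r + 1) * (r ^ (e + 1) + (e + 1) * (r + 1) ^ e)
            = r ^ (e + 1 + 1) + r ^ (e + 1) + (e + 1) * (r + 1) ^ (e + 1) := by ring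
          _ ≤ r ^ (e + 1 + 1) + (r + 1) ^ (e + 1) + (e + 1) * (r + 1) ^ (e + 1) := by
              omega
          _ = r ^ (e + 1 + 1) + (e + 1 + 1) * (r + 1) ^ (e + 1) := by ring
    exact h.trans (Nat.add_le_add_right ih _)

theorem as_sum_sub (e r : ℕ) :
    (∑ k ∈ Finset.range r, ((k + 1) ^ e - 1)) + r = ∑ k ∈ Finset.range r, (k + 1) ^ e := by
  have h : ∑ k ∈ Finset.range r, (k + 1) ^ e
      = ∑ k ∈ Finset.range r, (((k + 1) ^ e - 1) + 1) := by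
    refine Finset.sum_congr rfl fun k _ => ?_
    have : 1 ≤ (k + 1) ^ e := Nat.one_le_pow _ _ (Nat.succ_pos k)
    omega
  rw [h, Finset.sum_add_distrib]
  simp

theorem as_rpow_pow {x : ℝ} (hx : 0 ≤ x) {d : ℕ} (hd : 3 ≤ d) :
    (x ^ (1 / ((d : ℝ) - 1))) ^ (d - 1) = x := by
  have h1 : (d : ℝ) - 1 = ((d - 1 : ℕ) : ℝ) := by
    rw [Nat.cast_sub (by omega)]; simp
  have h2 : ((d - 1 : ℕ) : ℝ) ≠ 0 := by
    have : 0 < d - 1 := by omega
    positivity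
  rw [h1, ← Real.rpow_natCast, ← Real.rpow_mul hx, one_div_mul_cancel h2, Real.rpow_one]

theorem as_pow_rpow {x : ℝ} (hx : 0 ≤ x) {d : ℕ} (hd : 3 ≤ d) :
    (x ^ (d - 1)) ^ (1 / ((d : ℝ) - 1)) = x := by
  have h1 : (d : ℝ) - 1 = ((d - 1 : ℕ) : ℝ) := by
    rw [Nat.cast_sub (by omega)]; simp
  have h2 : ((d - 1 : ℕ) : ℝ) ≠ 0 := by
    have : 0 < d - 1 := by omega
    positivity
  rw [h1, ← Real.rpow_natCast, ← Real.rpow_mul hx, mul_one_div_cancel h2, Real.rpow_one]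

/-- The lower parameters, for an arbitrary positive constant. -/
theorem as_lower {d : ℕ} (hd : 3 ≤ d) (ν : ℝ) (hν : 0 < ν) (ε : ℝ) (hε : 0 < ε) :
    ∃ n₀ : ℕ, ∀ n ≥ n₀, ∃ T C : ℕ,
      (1 - ε) * ((n : ℝ) / ν) ^ (1 / ((d : ℝ) - 1)) ≤ ((d * T : ℕ) : ℝ) ∧
      ν * ((d : ℝ) * T) ^ (d - 1) ≤ C ∧
      C + d ^ 2 * (d * T) ^ (d - 2) + 1 + (d - 1) * (d * T) + d * T ≤ n := by
  have hd0 : (0 : ℝ) < d := by
    have : 0 < d := by omega
    exact_mod_cast this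
  rcases le_or_gt 1 ε with h1 | h1
  · refine ⟨1, fun n hn => ⟨0, 0, ?_, ?_, ?_⟩⟩
    · have h2 : 0 ≤ ((n : ℝ) / ν) ^ (1 / ((d : ℝ) - 1)) := by positivity
      push_cast
      nlinarith
    · rw [Nat.cast_zero, mul_zero, zero_pow (by omega), mul_zero]
    · rw [mul_zero, zero_pow (by omega)]
      omega
  · set M : ℝ := 1 + 2 * d / ε + 2 * ((d : ℝ) ^ 2 + d + 2) / (ε * ν) with hM
    have hM1 : 1 ≤ M := by
      have : 0 ≤ 2 * d / ε + 2 * ((d : ℝ) ^ 2 + d + 2) / (ε * ν) := by positivity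
      rw [hM]; linarith
    have hM0 : 0 ≤ M := by linarith
    refine ⟨⌈ν * M ^ (d - 1)⌉₊, fun n hn => ?_⟩
    set t : ℝ := ((n : ℝ) / ν) ^ (1 / ((d : ℝ) - 1)) with ht
    have hn' : ν * M ^ (d - 1) ≤ n := (Nat.le_ceil _).trans (by exact_mod_cast hn)
    have he0 : 0 ≤ 1 / ((d : ℝ) - 1) := by
      have : (3 : ℝ) ≤ d := by exact_mod_cast hd
      apply one_div_nonneg.2; linarith
    have htM : M ≤ t := by
      rw [← as_pow_rpow hM0 hd, ht]
      refine Real.rpow_le_rpow (by positivity) ?_ he0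
      rw [le_div_iff₀ hν]; linarith
    have ht1 : 1 ≤ t := hM1.trans htM
    have ht0 : 0 < t := by linarith
    have htd : ν * t ^ (d - 1) = n := by
      rw [ht, as_rpow_pow (by positivity) hd]
      field_simp
    have hT0 : 0 ≤ (1 - ε / 2) * t / d := by
      have : 0 ≤ 1 - ε / 2 := by linarith
      positivity
    have k1 : 2 * d / ε ≤ t := by
      have : 0 ≤ 2 * ((d : ℝ) ^ 2 + d + 2) / (ε * ν) := by positivity
      linarith
    have k2 : 2 * ((d : ℝ) ^ 2 + d + 2) / (ε * ν) ≤ t := by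
      have : 0 ≤ 2 * d / ε := by positivity
      linarith
    rw [div_le_iff₀ hε] at k1
    rw [div_le_iff₀ (by positivity)] at k2
    set T : ℕ := ⌊(1 - ε / 2) * t / d⌋₊ with hT
    have hT1 : (T : ℝ) ≤ (1 - ε / 2) * t / d := Nat.floor_le hT0
    have hT2 : (1 - ε / 2) * t / d < T + 1 := Nat.lt_floor_add_one _
    have hdT : (d : ℝ) * T ≤ (1 - ε / 2) * t := by
      rw [le_div_iff₀ hd0] at hT1
      linarith
    have hdT2 : (1 - ε / 2) * t ≤ d * T + d := by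
      rw [div_lt_iff₀ hd0] at hT2
      linarith
    have hdT3 : (d : ℝ) * T ≤ t := by nlinarith
    have hdT0 : 0 ≤ (d : ℝ) * T := by positivity
    refine ⟨T, ⌈ν * ((d : ℝ) * T) ^ (d - 1)⌉₊, ?_, Nat.le_ceil _, ?_⟩
    · push_cast
      nlinarith
    · have c1 : (⌈ν * ((d : ℝ) * T) ^ (d - 1)⌉₊ : ℝ) ≤ ν * ((d : ℝ) * T) ^ (d - 1) + 1 :=
        (Nat.ceil_lt_add_one (by positivity)).le
      have c2 : ((d : ℝ) * T) ^ (d - 1) ≤ (1 - ε / 2) * t ^ (d - 1) := by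
        calc ((d : ℝ) * T) ^ (d - 1) ≤ ((1 - ε / 2) * t) ^ (d - 1) :=
              pow_le_pow_left₀ hdT0 hdT _
          _ = (1 - ε / 2) ^ (d - 1) * t ^ (d - 1) := mul_pow _ _ _
          _ ≤ (1 - ε / 2) * t ^ (d - 1) := by
              refine mul_le_mul_of_nonneg_right ?_ (by positivity)
              exact pow_le_of_le_one (by linarith) (by linarith) (by omega)
      have c3 : ν * ((d : ℝ) * T) ^ (d - 1) ≤ (1 - ε / 2) * n := by
        have := mul_le_mul_of_nonneg_left c2 hν.le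
        calc _ ≤ ν * ((1 - ε / 2) * t ^ (d - 1)) := this
          _ = (1 - ε / 2) * (ν * t ^ (d - 1)) := by ring
          _ = _ := by rw [htd]
      have c4 : ((d : ℝ) * T) ^ (d - 2) ≤ t ^ (d - 2) := pow_le_pow_left₀ hdT0 hdT3 _
      have c5 : t ≤ t ^ (d - 2) := le_self_pow₀ ht1 (by omega)
      have c6 : 1 ≤ t ^ (d - 2) := ht1.trans c5
      have c7 : t ^ (d - 1) = t ^ (d - 2) * t := by
        rw [← pow_succ]; congr 1; omega
      have c8 : ((d : ℝ) ^ 2 + d + 2) * t ^ (d - 2) ≤ ε / 2 * n := by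
        rw [← htd, c7]
        have := mul_le_mul_of_nonneg_left k2 (show 0 ≤ t ^ (d - 2) by positivity)
        nlinarith
      have c9 : (((⌈ν * ((d : ℝ) * T) ^ (d - 1)⌉₊ + d ^ 2 * (d * T) ^ (d - 2) + 1 +
          (d - 1) * (d * T) + d * T : ℕ)) : ℝ) ≤ n := by
        have e1 : (((⌈ν * ((d : ℝ) * T) ^ (d - 1)⌉₊ + d ^ 2 * (d * T) ^ (d - 2) + 1 +
          (d - 1) * (d * T) + d * T : ℕ)) : ℝ) = (⌈ν * ((d : ℝ) * T) ^ (d - 1)⌉₊ : ℝ) +
            (d : ℝ) ^ 2 * ((d : ℝ) * T) ^ (d - 2) + 1 + d * (d * T) := by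
          push_cast
          rw [Nat.cast_sub (by omega)]
          push_cast
          ring
        rw [e1]
        have e2 : (d : ℝ) ^ 2 * ((d : ℝ) * T) ^ (d - 2) ≤ (d : ℝ) ^ 2 * t ^ (d - 2) :=
          mul_le_mul_of_nonneg_left c4 (by positivity)
        have e3 : (d : ℝ) * (d * T) ≤ d * t ^ (d - 2) :=
          mul_le_mul_of_nonneg_left (hdT3.trans c5) hd0.le
        nlinarith
      exact_mod_cast c9

theorem as_nu_pos {d : ℕ} (hd : 3 ≤ d) : 0 < nu d := by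
  have hd3 : (3 : ℝ) ≤ d := by exact_mod_cast hd
  have hcont : ContinuousOn (nuFun d) (Set.Icc 0 1) := by
    unfold nuFun
    refine ContinuousOn.div (by fun_prop) (by fun_prop) ?_
    intro u hu
    have : 0 ≤ ((d : ℝ) - 1) * u := mul_nonneg (by linarith) hu.1
    linarith
  have hbdd : BddAbove (nuFun d '' Set.Icc 0 1) :=
    (isCompact_Icc.image_of_continuousOn hcont).bddAbove
  have h1 : nuFun d 0 ≤ nu d := le_csSup hbdd ⟨0, ⟨le_rfl, zero_le_one⟩, rfl⟩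
  refine lt_of_lt_of_le ?_ h1
  unfold nuFun
  rw [mul_zero, add_zero, zero_pow (by omega), mul_zero, sub_zero, div_one]
  positivity

theorem exists_lower_param {d : ℕ} (hd : 3 ≤ d) (ε : ℝ) (hε : 0 < ε) :
    ∃ n₀ : ℕ, ∀ n ≥ n₀, ∃ T C : ℕ,
      (1 - ε) * ((n : ℝ) / nu d) ^ (1 / ((d : ℝ) - 1)) ≤ ((d * T : ℕ) : ℝ) ∧
      nu d * ((d : ℝ) * T) ^ (d - 1) ≤ C ∧
      C + d ^ 2 * (d * T) ^ (d - 2) + 1 + (d - 1) * (d * T) + d * T ≤ n :=
  as_lower hd (nu d) (as_nu_pos hd) ε hε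

theorem exists_upper_param {d : ℕ} (hd : 3 ≤ d) (ε : ℝ) (hε : 0 < ε) :
    ∃ n₀ : ℕ, ∀ n ≥ n₀, ∃ r : ℕ,
      (r : ℝ) ≤ (1 + ε) * ((d : ℝ) ^ 2 * n) ^ (1 / ((d : ℝ) - 1)) ∧
      d * (r * n - r * (r + 1) / 2) < ∑ k ∈ Finset.range r, ((k + 1) ^ (d - 1) - 1) := by
  have hd3 : (3 : ℝ) ≤ d := by exact_mod_cast hd
  have hd0 : (0 : ℝ) < d := by linarith
  set M : ℝ := 1 + 2 / ε with hM
  have hM1 : 1 ≤ M := by
    have : 0 ≤ 2 / ε := by positivity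
    rw [hM]; linarith
  have hM0 : 0 ≤ M := by linarith
  have he0 : 0 ≤ 1 / ((d : ℝ) - 1) := by
    apply one_div_nonneg.2; linarith
  refine ⟨⌈M ^ (d - 1)⌉₊ + 1, fun n hn => ?_⟩
  have hn' : M ^ (d - 1) + 1 ≤ n := by
    have h1 := Nat.le_ceil (M ^ (d - 1))
    have h2 : ((⌈M ^ (d - 1)⌉₊ + 1 : ℕ) : ℝ) ≤ n := by exact_mod_cast hn
    push_cast at h2
    linarith
  have hnM : M ≤ n := by
    have : M ≤ M ^ (d - 1) := le_self_pow₀ hM1 (by omega)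
    linarith
  have hn1 : (1 : ℝ) ≤ n := hM1.trans hnM
  set u : ℝ := ((d : ℝ) ^ 2 * n) ^ (1 / ((d : ℝ) - 1)) with hu
  have hd2 : (1 : ℝ) ≤ (d : ℝ) ^ 2 := by nlinarith
  have huM : M ≤ u := by
    rw [← as_pow_rpow hM0 hd, hu]
    refine Real.rpow_le_rpow (by positivity) ?_ he0
    nlinarith
  have hu0 : 0 < u := by linarith
  have hud : u ^ (d - 1) = (d : ℝ) ^ 2 * n := by
    rw [hu, as_rpow_pow (by positivity) hd]
  have k1 : 2 ≤ u * ε := by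
    have h1 : 2 / ε ≤ u := by linarith
    rwa [div_le_iff₀ hε] at h1
  have k2 : 2 ≤ (n : ℝ) * ε := by
    have h1 : 2 / ε ≤ n := by linarith
    rwa [div_le_iff₀ hε] at h1
  set r : ℕ := ⌊(1 + ε) * u⌋₊ with hr
  have hr1 : (r : ℝ) ≤ (1 + ε) * u := Nat.floor_le (by positivity)
  have hr2 : (1 + ε) * u < r + 1 := Nat.lt_floor_add_one _
  refine ⟨r, hr1, ?_⟩
  have hr3 : (1 + ε / 2) * u ≤ r := by nlinarith
  have hr4 : (1 : ℝ) ≤ r := by nlinarith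
  have hpow : (1 + ε / 2) * ((d : ℝ) ^ 2 * n) ≤ (r : ℝ) ^ (d - 1) := by
    calc (1 + ε / 2) * ((d : ℝ) ^ 2 * n) ≤ (1 + ε / 2) ^ (d - 1) * ((d : ℝ) ^ 2 * n) := by
          refine mul_le_mul_of_nonneg_right ?_ (by positivity)
          exact le_self_pow₀ (by linarith) (by omega)
      _ = ((1 + ε / 2) * u) ^ (d - 1) := by rw [mul_pow, hud]
      _ ≤ (r : ℝ) ^ (d - 1) := pow_le_pow_left₀ (by positivity) hr3 _
  have hpow2 : (d : ℝ) ^ 2 * n + d < (r : ℝ) ^ (d - 1) := by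
    have : (d : ℝ) < ε / 2 * ((d : ℝ) ^ 2 * n) := by
      have h1 : (1 : ℝ) ≤ n * ε / 2 := by linarith
      have h2 : (d : ℝ) ^ 2 * 1 ≤ (d : ℝ) ^ 2 * (n * ε / 2) :=
        mul_le_mul_of_nonneg_left h1 (by positivity)
      nlinarith
    linarith
  have hnat : d ^ 2 * n + d < r ^ (d - 1) := by exact_mod_cast hpow2
  have hr5 : 1 ≤ r := by exact_mod_cast hr4
  have hsum := as_pow_le_sum (d - 1) r
  have hsub := as_sum_sub (d - 1) r
  have hdd : d - 1 + 1 = d := by omega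
  rw [hdd, ← hsub] at hsum
  set S := ∑ k ∈ Finset.range r, ((k + 1) ^ (d - 1) - 1) with hS
  have hrd : r ^ d = r * r ^ (d - 1) := by
    rw [← pow_succ']; congr 1; omega
  have h5 : r * (d ^ 2 * n + d) < r * r ^ (d - 1) := Nat.mul_lt_mul_of_pos_left hnat hr5
  have h6 : d * (d * (r * n)) < d * S := by
    rw [← hrd] at h5
    have : r * (d ^ 2 * n + d) = d * (d * (r * n)) + d * r := by ring
    rw [this] at h5
    have h7 : d * (S + r) = d * S + d * r := by ring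
    rw [h7] at hsum
    omega
  have h7 : d * (r * n) < S := lt_of_mul_lt_mul_left h6 (Nat.zero_le _)
  refine lt_of_le_of_lt ?_ h7
  exact Nat.mul_le_mul_left _ (Nat.sub_le _ _)

theorem exists_lower_param_three (n : ℕ) (hn : 1 ≤ n) : ∃ T C : ℕ,
      Real.sqrt (8.39 * n) - 60 ≤ ((3 * T : ℕ) : ℝ) ∧
      (0.11916 : ℝ) * ((3 : ℝ) * T) ^ 2 ≤ C ∧
      (C + 3 ^ 2 * (3 * T) ^ 1 + 1 + 2 * (3 * T) + 3 * T ≤ n ∨ T = 0) := by
  set y : ℝ := Real.sqrt (8.39 * n) with hy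
  have hy2 : y ^ 2 = 8.39 * n := by
    rw [hy]; exact Real.sq_sqrt (by positivity)
  rcases le_or_gt y 60 with h | h
  · refine ⟨0, 0, ?_, ?_, Or.inr rfl⟩
    · push_cast; linarith
    · norm_num
  · set T : ℕ := ⌈(y - 60) / 3⌉₊ with hT
    have hT1 : (y - 60) / 3 ≤ T := Nat.le_ceil _
    have hT2 : (T : ℝ) < (y - 60) / 3 + 1 := Nat.ceil_lt_add_one (by linarith)
    refine ⟨T, ⌈(0.11916 : ℝ) * ((3 : ℝ) * T) ^ 2⌉₊, ?_, Nat.le_ceil _, Or.inl ?_⟩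
    · push_cast; linarith
    · have c1 : (⌈(0.11916 : ℝ) * ((3 : ℝ) * T) ^ 2⌉₊ : ℝ) ≤
          (0.11916 : ℝ) * ((3 : ℝ) * T) ^ 2 + 1 := (Nat.ceil_lt_add_one (by positivity)).le
      have c2 : ((⌈(0.11916 : ℝ) * ((3 : ℝ) * T) ^ 2⌉₊ + 3 ^ 2 * (3 * T) ^ 1 + 1 +
          2 * (3 * T) + 3 * T : ℕ) : ℝ) ≤ n := by
        push_cast
        have hT3 : 0 ≤ (T : ℝ) := Nat.cast_nonneg _
        have hs : (3 : ℝ) * T ≤ y - 57 := by linarith
        have hs0 : 0 ≤ (3 : ℝ) * T := by positivity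
        have hs2 : ((3 : ℝ) * T) ^ 2 ≤ (y - 57) ^ 2 := pow_le_pow_left₀ hs0 hs 2
        have hn' : (n : ℝ) = y ^ 2 / 8.39 := by rw [hy2]; field_simp
        rw [hn']
        have h3 : (0.11916 : ℝ) * (y - 57) ^ 2 + 12 * (y - 57) + 2 ≤ y ^ 2 / 8.39 := by
          rw [le_div_iff₀ (by norm_num)]
          nlinarith
        nlinarith
      exact_mod_cast c2

theorem as_sq_sum (r : ℕ) :
    6 * (∑ k ∈ Finset.range r, ((k + 1) ^ 2 - 1)) + 5 * r = 2 * r ^ 3 + 3 * r ^ 2 := by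
  have h : ∀ r : ℕ, 6 * (∑ k ∈ Finset.range r, (k + 1) ^ 2) = 2 * r ^ 3 + 3 * r ^ 2 + r := by
    intro r
    induction r with
    | zero => simp
    | succ r ih => rw [Finset.sum_range_succ, mul_add, ih]; ring
  have h1 := as_sum_sub 2 r
  have h2 := h r
  rw [← h1] at h2
  omega

theorem upper_three {n r : ℕ} (hr1 : 1 ≤ r) (hr : r ≤ n) (h : 9 * n + 7 < (r + 3) ^ 2) :
    3 * (r * n - r * (r + 1) / 2) < ∑ k ∈ Finset.range r, ((k + 1) ^ (3 - 1) - 1) := by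
  have h1 := as_sq_sum r
  show 3 * (r * n - r * (r + 1) / 2) < ∑ k ∈ Finset.range r, ((k + 1) ^ 2 - 1)
  set S := ∑ k ∈ Finset.range r, ((k + 1) ^ 2 - 1) with hS
  obtain ⟨c, hc⟩ : ∃ c, r * (r + 1) = 2 * c := by
    obtain ⟨c, hc⟩ := Nat.even_mul_succ_self r
    exact ⟨c, by omega⟩
  have hc2 : r * (r + 1) / 2 = c := by omega
  rw [hc2]
  have h9 : 9 * n < r ^ 2 + 6 * r + 2 := by nlinarith
  have h10 : r * (9 * n) < r * (r ^ 2 + 6 * r + 2) := Nat.mul_lt_mul_of_pos_left h9 hr1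
  have e1 : r * (r ^ 2 + 6 * r + 2) = r ^ 3 + 6 * r ^ 2 + 2 * r := by ring
  have e2 : r * (9 * n) = 9 * (r * n) := by ring
  have e3 : r ^ 2 + r = 2 * c := by rw [← hc]; ring
  rw [e1, e2] at h10
  have h11 : c ≤ r * n := by nlinarith
  omega

end Pool.Agent.BSub
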