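import Mathlib.Algebra.MvPolynomial.Eval
import Mathlib.Analysis.Complex.Basic
import Mathlib.LinearAlgebra.Matrix.Defs
import Mathlib.Topology.Algebra.Ring.Basic

set_option autoImplicit false

namespace Pool.Agent.BSub

/-- Tensors in the `d`-fold tensor power of `ℂ ^ n`, in coordinates: `T f` is the coefficient of
`e_(f 0) ⊗ ... ⊗ e_(f (d - 1))`. -/
abbrev Tensor (d n : ℕ) := (Fin d → Fin n) → ℂ

/-- The unit tensor `u_d(q) = ∑ i < q, e_i ⊗ ... ⊗ e_i`. -/
def unitTensor (d q : ℕ) : Tensor d q := fun f => if ∀ x y, f x = f y then 1 else 0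

/-- The tensor `T` evaluated at the covectors `v 0, ..., v (d - 1)`. -/
def contract {d n : ℕ} (v : Fin d → Fin n → ℂ) (T : Tensor d n) : ℂ :=
  ∑ f : Fin d → Fin n, (∏ x, v x (f x)) * T f

/-- The tensor `(A 0 ⊗ ... ⊗ A (d - 1)) T`. -/
def restrict {d n q : ℕ} (A : Fin d → Matrix (Fin q) (Fin n) ℂ) (T : Tensor d n) : Tensor d q :=
  fun g => contract (fun x => A x (g x)) T

/-- `T` degenerates to `S`: `S` lies in the closure of the set of restrictions of `T`. -/
def Degenerates {d n q : ℕ} (T : Tensor d n) (S : Tensor d q) : Prop :=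
  S ∈ closure (Set.range fun A : Fin d → Matrix (Fin q) (Fin n) ℂ => restrict A T)

/-- The border subrank. -/
noncomputable def borderSubrank {d n : ℕ} (T : Tensor d n) : ℕ :=
  sSup {q : ℕ | Degenerates T (unitTensor d q)}

/-- `p` holds on a nonempty Zariski open set of tensors. -/
def Generic {d n : ℕ} (p : Tensor d n → Prop) : Prop :=
  ∃ P : MvPolynomial (Fin d → Fin n) ℂ, P ≠ 0 ∧ ∀ T, MvPolynomial.eval T P ≠ 0 → p T

end Pool.Agent.BSub
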