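import Mathlib.Analysis.Complex.Basic
import Mathlib.Topology.Instances.Matrix
import Mathlib.LinearAlgebra.Dimension.Finite
import Mathlib.LinearAlgebra.FiniteDimensional.Basic
import Mathlib.Algebra.MvPolynomial.NoZeroDivisors
import Pool.Agent.Lib.MP_79bff1_ag.Defs

set_option autoImplicit false

namespace Pool.Agent.BSub

theorem contract_update_eq {d n : ℕ} (v : Fin d → Fin n → ℂ) (x : Fin d) (u : Fin n → ℂ)
    (T : Tensor d n) :
    contract (Function.update v x u) T =
      ∑ f : Fin d → Fin n, (u (f x) * ∏ y ∈ Finset.univ.erase x, v y (f y)) * T f := by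
  unfold contract
  refine Finset.sum_congr rfl fun f _ => ?_
  rw [← Finset.mul_prod_erase Finset.univ _ (Finset.mem_univ x), Function.update_self]
  congr 2
  refine Finset.prod_congr rfl fun y hy => ?_
  rw [Function.update_of_ne (Finset.ne_of_mem_erase hy)]

theorem contract_update_sum {d n : ℕ} {ι : Type*} (s : Finset ι) (v : Fin d → Fin n → ℂ) (x : Fin d)
    (w : ι → Fin n → ℂ) (T : Tensor d n) :
    contract (Function.update v x (∑ i ∈ s, w i)) T =
      ∑ i ∈ s, contract (Function.update v x (w i)) T := by
  simp only [contract_update_eq]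
  rw [Finset.sum_comm]
  refine Finset.sum_congr rfl fun f _ => ?_
  rw [Finset.sum_apply, Finset.sum_mul, Finset.sum_mul]

theorem contract_update_smul {d n : ℕ} (v : Fin d → Fin n → ℂ) (x : Fin d)
    (c : ℂ) (w : Fin n → ℂ) (T : Tensor d n) :
    contract (Function.update v x (c • w)) T = c * contract (Function.update v x w) T := by
  simp only [contract_update_eq]
  rw [Finset.mul_sum]
  refine Finset.sum_congr rfl fun f _ => ?_
  rw [Pi.smul_apply, smul_eq_mul]
  ring

theorem contract_smul {d n : ℕ} (a : Fin d → ℂ) (v : Fin d → Fin n → ℂ) (T : Tensor d n) :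
    contract (fun x j => a x * v x j) T = (∏ x, a x) * contract v T := by
  unfold contract
  rw [Finset.mul_sum]
  refine Finset.sum_congr rfl fun f _ => ?_
  rw [Finset.prod_mul_distrib, mul_assoc]

/-- functoriality -/
theorem restrict_mul {d n m q : ℕ} (A : Fin d → Matrix (Fin q) (Fin m) ℂ)
    (B : Fin d → Matrix (Fin m) (Fin n) ℂ) (T : Tensor d n) :
    restrict (fun x => A x * B x) T = restrict A (restrict B T) := by
  funext g
  unfold restrict contract
  simp only [Matrix.mul_apply]
  have h1 : ∀ f : Fin d → Fin n, (∏ x, ∑ i, A x (g x) i * B x i (f x)) * T f =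
      ∑ h : Fin d → Fin m, (∏ x, A x (g x) (h x)) * ((∏ x, B x (h x) (f x)) * T f) := by
    intro f
    rw [Finset.prod_univ_sum, Fintype.piFinset_univ, Finset.sum_mul]
    refine Finset.sum_congr rfl fun h _ => ?_
    rw [Finset.prod_mul_distrib, mul_assoc]
  simp only [h1]
  rw [Finset.sum_comm]
  refine Finset.sum_congr rfl fun h _ => ?_
  rw [Finset.mul_sum]

theorem restrict_diagonal {d q : ℕ} (D : Fin d → Fin q → ℂ) (S : Tensor d q) (f : Fin d → Fin q) :
    restrict (fun x => Matrix.diagonal (D x)) S f = (∏ x, D x (f x)) * S f := by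
  unfold restrict contract
  rw [Finset.sum_eq_single f]
  · simp only [Matrix.diagonal_apply_eq]
  · intro h _ hh
    have : ∃ x, f x ≠ h x := by
      by_contra hc
      push Not at hc
      exact hh (funext fun x => (hc x).symm)
    obtain ⟨x, hx⟩ := this
    have h0 : (∏ y, Matrix.diagonal (D y) (f y) (h y)) = 0 :=
      Finset.prod_eq_zero (Finset.mem_univ x) (Matrix.diagonal_apply_ne _ hx)
    exact mul_eq_zero_of_left h0 _
  · intro h
    exact absurd (Finset.mem_univ f) h

theorem restrict_one {d n : ℕ} (T : Tensor d n) : restrict (fun _ => 1) T = T := by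
  funext f
  have h := restrict_diagonal (fun (_ : Fin d) (_ : Fin n) => (1 : ℂ)) T f
  have h1 : (fun _ : Fin d => Matrix.diagonal fun _ : Fin n => (1 : ℂ)) =
      fun _ : Fin d => (1 : Matrix (Fin n) (Fin n) ℂ) := by
    funext x
    exact Matrix.diagonal_one
  rw [h1] at h
  rw [h]
  simp

theorem continuous_restrict {d n q : ℕ} :
    Continuous fun p : (Fin d → Matrix (Fin q) (Fin n) ℂ) × Tensor d n => restrict p.1 p.2 := by
  refine continuous_pi fun g => ?_
  unfold restrict contract
  refine continuous_finsetSum _ fun f _ => ?_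
  refine Continuous.mul ?_ ?_
  · refine continuous_finsetProd _ fun x _ => ?_
    exact ((continuous_apply x).comp continuous_fst).matrix_elem (g x) (f x)
  · exact (continuous_apply f).comp continuous_snd

theorem restrict_comp_unit {d q r : ℕ} (e : Fin q ↪ Fin r) (f : Fin d → Fin q) :
    unitTensor d r (fun x => e (f x)) = unitTensor d q f := by
  unfold unitTensor
  simp only [e.injective.eq_iff]

theorem Degenerates.mono {d n q r : ℕ} {T : Tensor d n} (h : Degenerates T (unitTensor d r))
    (hq : q ≤ r) : Degenerates T (unitTensor d q) := by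
  unfold Degenerates at h ⊢
  have hc : Continuous fun S : Tensor d r => (fun g => S (fun x => Fin.castLE hq (g x)) :
      Tensor d q) := continuous_pi fun g => continuous_apply _
  have h1 := map_mem_closure hc h (t := Set.range fun A : Fin d → Matrix (Fin q) (Fin n) ℂ =>
    restrict A T) (by
      rintro _ ⟨A, rfl⟩
      exact ⟨fun x => (A x).submatrix (Fin.castLE hq) id, rfl⟩)
  have h2 : (fun g => unitTensor d r (fun x => Fin.castLE hq (g x)) : Tensor d q) =
      unitTensor d q := by
    funext g
    exact restrict_comp_unit (Fin.castLEEmb hq) g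
  rwa [h2] at h1

/-- if `restrict A T` is close to the unit tensor then the rows of each `A x` are independent -/
theorem rows_independent {d n r : ℕ} (hd : 2 ≤ d) (A : Fin d → Matrix (Fin r) (Fin n) ℂ)
    (T : Tensor d n) (h : ∀ f, r * ‖restrict A T f - unitTensor d r f‖ < 1) (x : Fin d) :
    LinearIndependent ℂ (fun i => A x i) := by
  rw [Fintype.linearIndependent_iff]
  intro g hg
  have hunit : ∀ l i : Fin r, unitTensor d r (Function.update (fun _ => l) x i) =
      if i = l then 1 else 0 := by
    intro l i
    obtain ⟨y, hy⟩ : ∃ y : Fin d, y ≠ x := by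
      have : Nontrivial (Fin d) := Fin.nontrivial_iff_two_le.2 hd
      exact exists_ne x
    unfold unitTensor
    by_cases hil : i = l
    · subst hil
      rw [if_pos rfl, if_pos]
      intro a b
      simp
    · rw [if_neg hil, if_neg]
      intro hall
      have := hall x y
      rw [Function.update_self, Function.update_of_ne hy] at this
      exact hil this
  have hrel : ∀ l : Fin r, ∑ i, g i * restrict A T (Function.update (fun _ => l) x i) = 0 := by
    intro l
    have h1 := contract_update_sum Finset.univ (fun y => A y l) x (fun i => g i • A x i) T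
    have h0 : contract (Function.update (fun y => A y l) x (0 : Fin n → ℂ)) T = 0 := by
      have := contract_update_smul (fun y => A y l) x 0 (0 : Fin n → ℂ) T
      rw [zero_smul, zero_mul] at this
      exact this
    rw [hg, h0] at h1
    rw [h1]
    refine Finset.sum_congr rfl fun i _ => ?_
    rw [contract_update_smul]
    congr 1
    unfold restrict
    congr 1
    funext y
    by_cases hy : y = x
    · subst hy
      rw [Function.update_self, Function.update_self]
    · rw [Function.update_of_ne hy, Function.update_of_ne hy]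
  have hest : ∀ l : Fin r, ‖g l‖ ≤ ∑ i, ‖g i‖ *
      ‖restrict A T (Function.update (fun _ => l) x i) -
        unitTensor d r (Function.update (fun _ => l) x i)‖ := by
    intro l
    have e : g l = -∑ i, g i * (restrict A T (Function.update (fun _ => l) x i) -
        unitTensor d r (Function.update (fun _ => l) x i)) := by
      simp only [mul_sub, Finset.sum_sub_distrib, hrel, hunit, mul_ite, mul_one, mul_zero,
        Finset.sum_ite_eq', Finset.mem_univ, if_true]
      ring
    calc ‖g l‖ = ‖∑ i, g i * (restrict A T (Function.update (fun _ => l) x i) -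
        unitTensor d r (Function.update (fun _ => l) x i))‖ := by
          rw [e, norm_neg]
      _ ≤ _ := by
          refine (norm_sum_le _ _).trans (Finset.sum_le_sum fun i _ => ?_)
          rw [norm_mul]
  by_contra hne
  push Not at hne
  obtain ⟨i₀, hi₀⟩ := hne
  have : Nonempty (Fin r) := ⟨i₀⟩
  obtain ⟨l, hl⟩ := Finite.exists_max (fun i => ‖g i‖)
  have hpos : 0 < ‖g l‖ := lt_of_lt_of_le (norm_pos_iff.2 hi₀) (hl i₀)
  have hr : (0 : ℝ) < r := by
    have : 0 < r := lt_of_le_of_lt (Nat.zero_le _) i₀.2
    exact_mod_cast this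
  set E : Fin r → ℝ := fun i => ‖restrict A T (Function.update (fun _ => l) x i) -
        unitTensor d r (Function.update (fun _ => l) x i)‖ with hE
  have hsum : ∑ i, E i < 1 := by
    have h1 : (r : ℝ) * ∑ i, E i < r := by
      rw [Finset.mul_sum]
      calc ∑ i, (r : ℝ) * E i < ∑ _i : Fin r, (1 : ℝ) :=
            Finset.sum_lt_sum_of_nonempty Finset.univ_nonempty fun i _ => h _
        _ = r := by simp
    nlinarith
  have h2 : ‖g l‖ ≤ ‖g l‖ * ∑ i, E i := by
    refine (hest l).trans ?_
    rw [Finset.mul_sum]
    exact Finset.sum_le_sum fun i _ => mul_le_mul_of_nonneg_right (hl i) (norm_nonneg _)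
  nlinarith

theorem Degenerates.le {d n r : ℕ} (hd : 2 ≤ d) {T : Tensor d n}
    (h : Degenerates T (unitTensor d r)) : r ≤ n := by
  unfold Degenerates at h
  rw [Metric.mem_closure_iff] at h
  obtain ⟨_, ⟨A, rfl⟩, hA⟩ := h (1 / ((r : ℝ) + 1)) (by positivity)
  rw [dist_pi_lt_iff (by positivity)] at hA
  have hli := rows_independent hd A T (fun f => by
    have h1 := hA f
    rw [dist_eq_norm, norm_sub_rev, lt_div_iff₀ (by positivity)] at h1
    have h2 := norm_nonneg (restrict A T f - unitTensor d r f)
    nlinarith) ⟨0, by omega⟩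
  have h1 := hli.fintype_card_le_finrank
  simpa using h1

theorem Generic.mono {d n : ℕ} {p q : Tensor d n → Prop} (h : Generic p) (hpq : ∀ T, p T → q T) :
    Generic q := by
  obtain ⟨P, hP, h⟩ := h
  exact ⟨P, hP, fun T hT => hpq T (h T hT)⟩

theorem Generic.and {d n : ℕ} {p q : Tensor d n → Prop} (h : Generic p) (h' : Generic q) :
    Generic fun T => p T ∧ q T := by
  obtain ⟨P, hP, h⟩ := h
  obtain ⟨Q, hQ, h'⟩ := h'
  refine ⟨P * Q, mul_ne_zero hP hQ, fun T hT => ?_⟩
  rw [map_mul] at hT
  exact ⟨h T (left_ne_zero_of_mul hT), h' T (right_ne_zero_of_mul hT)⟩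

theorem bddAbove_degenerates {d n : ℕ} (hd : 2 ≤ d) (T : Tensor d n) :
    BddAbove {q : ℕ | Degenerates T (unitTensor d q)} :=
  ⟨n, fun _ hq => Degenerates.le hd hq⟩

theorem degenerates_zero {d n : ℕ} (hd : 2 ≤ d) (T : Tensor d n) :
    Degenerates T (unitTensor d 0) := by
  have : IsEmpty (Fin d → Fin 0) := ⟨fun f => (f ⟨0, by omega⟩).elim0⟩
  exact subset_closure ⟨fun _ => 0, Subsingleton.elim _ _⟩

theorem le_borderSubrank {d n q : ℕ} (hd : 2 ≤ d) {T : Tensor d n}
    (h : Degenerates T (unitTensor d q)) : q ≤ borderSubrank T :=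
  le_csSup (bddAbove_degenerates hd T) h

theorem borderSubrank_lt {d n r : ℕ} (hd : 2 ≤ d) {T : Tensor d n}
    (h : ¬ Degenerates T (unitTensor d r)) : borderSubrank T < r := by
  by_contra hc
  push Not at hc
  have h1 : Degenerates T (unitTensor d (borderSubrank T)) :=
    Nat.sSup_mem ⟨0, degenerates_zero hd T⟩ (bddAbove_degenerates hd T)
  exact h (h1.mono hc)

end Pool.Agent.BSub
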