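import Mathlib.RingTheory.Spectrum.Prime.Chevalley
import Mathlib.RingTheory.Nullstellensatz
import Mathlib.Analysis.Complex.Polynomial.Basic

/-!
# The image of a dominant polynomial map contains a nonempty basic open set
-/

set_option autoImplicit false

namespace Pool.Agent.BSub

open PrimeSpectrum

/-- A constructible subset of the spectrum of a domain containing the zero ideal contains a
nonempty basic open set. -/
theorem chev_exists_basicOpen {R : Type} [CommRing R] [IsDomain R] {s : Set (PrimeSpectrum R)}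
    (hs : Topology.IsConstructible s) (x : PrimeSpectrum R) (hx : x.asIdeal = ⊥) (hxs : x ∈ s) :
    ∃ P : R, P ≠ 0 ∧ ∀ y : PrimeSpectrum R, P ∉ y.asIdeal → y ∈ s := by
  obtain ⟨S, rfl⟩ := exists_constructibleSetData_iff.2 hs
  unfold ConstructibleSetData.toSet at hxs
  rw [Set.mem_iUnion₂] at hxs
  obtain ⟨D, hD, hxD⟩ := hxs
  unfold BasicConstructibleSetData.toSet at hxD
  obtain ⟨h1, h2⟩ := hxD
  rw [mem_zeroLocus, hx] at h1 h2
  refine ⟨D.f, ?_, ?_⟩
  · intro h
    apply h2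
    intro y hy
    rw [Set.mem_singleton_iff] at hy
    rw [hy, h]
    exact Ideal.zero_mem _
  · intro y hy
    unfold ConstructibleSetData.toSet
    rw [Set.mem_iUnion₂]
    refine ⟨D, hD, ?_, ?_⟩
    · rw [mem_zeroLocus]
      intro z hz
      have h3 : z = 0 := by simpa using h1 hz
      rw [h3]
      exact Ideal.zero_mem _
    · rw [mem_zeroLocus]
      intro h
      exact hy (h (Set.mem_singleton _))

theorem exists_poly_of_injective {σ τ : Type} [Fintype σ] [Fintype τ]
    (ψ : τ → MvPolynomial σ ℂ) (b : MvPolynomial σ ℂ) (hb : b ≠ 0)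
    (hinj : Function.Injective (MvPolynomial.aeval ψ : MvPolynomial τ ℂ →ₐ[ℂ] MvPolynomial σ ℂ)) :
    ∃ P : MvPolynomial τ ℂ, P ≠ 0 ∧ ∀ T : τ → ℂ, MvPolynomial.eval T P ≠ 0 →
      ∃ p : σ → ℂ, (∀ i, MvPolynomial.eval p (ψ i) = T i) ∧ MvPolynomial.eval p b ≠ 0 := by
  set φ : MvPolynomial τ ℂ →+* MvPolynomial σ ℂ :=
    (MvPolynomial.aeval ψ : MvPolynomial τ ℂ →ₐ[ℂ] MvPolynomial σ ℂ).toRingHom with hφ
  have hft : φ.FiniteType := by
    refine RingHom.FiniteType.of_comp_finiteType (f := algebraMap ℂ (MvPolynomial τ ℂ)) ?_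
    have h1 : φ.comp (algebraMap ℂ (MvPolynomial τ ℂ)) = algebraMap ℂ (MvPolynomial σ ℂ) :=
      (MvPolynomial.aeval ψ : MvPolynomial τ ℂ →ₐ[ℂ] MvPolynomial σ ℂ).comp_algebraMap
    rw [h1]
    rw [RingHom.finiteType_algebraMap]
    infer_instance
  have hfp : φ.FinitePresentation := RingHom.FinitePresentation.of_finiteType.1 hft
  have hcon := isConstructible_comap_image hfp
    (isConstructible_basicOpen (R := MvPolynomial σ ℂ) (f := b))
  have hbot : (⟨⊥, Ideal.isPrime_bot⟩ : PrimeSpectrum (MvPolynomial σ ℂ)) ∈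
      (basicOpen b : Set (PrimeSpectrum (MvPolynomial σ ℂ))) := by
    rw [SetLike.mem_coe, mem_basicOpen]
    simpa using hb
  obtain ⟨P, hP, hPs⟩ := chev_exists_basicOpen hcon
    (comap φ ⟨⊥, Ideal.isPrime_bot⟩) (by
      rw [comap_asIdeal]
      exact (RingHom.injective_iff_ker_eq_bot φ).1 hinj) ⟨_, hbot, rfl⟩
  refine ⟨P, hP, ?_⟩
  intro T hT
  have hker : (RingHom.ker (MvPolynomial.eval T)).IsPrime := RingHom.ker_isPrime _
  obtain ⟨q, hq, hqT⟩ := hPs ⟨RingHom.ker (MvPolynomial.eval T), hker⟩ (by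
    simpa [RingHom.mem_ker] using hT)
  rw [SetLike.mem_coe, mem_basicOpen] at hq
  have hqT' : Ideal.comap φ q.asIdeal = RingHom.ker (MvPolynomial.eval T) := by
    rw [← comap_asIdeal, hqT]
  have hqp : q.asIdeal.IsPrime := q.isPrime
  have hex : ∃ p ∈ MvPolynomial.zeroLocus ℂ q.asIdeal, MvPolynomial.eval p b ≠ 0 := by
    by_contra hcon'
    push Not at hcon'
    have h2 : b ∈ MvPolynomial.vanishingIdeal ℂ (MvPolynomial.zeroLocus ℂ q.asIdeal) := by
      rw [MvPolynomial.mem_vanishingIdeal_iff]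
      intro p hp
      simpa using hcon' p hp
    rw [MvPolynomial.vanishingIdeal_zeroLocus_eq_radical, hqp.radical] at h2
    exact hq h2
  obtain ⟨p, hp, hpb⟩ := hex
  refine ⟨p, ?_, hpb⟩
  intro i
  have h3 : MvPolynomial.X i - MvPolynomial.C (T i) ∈ Ideal.comap φ q.asIdeal := by
    rw [hqT', RingHom.mem_ker]
    simp
  rw [Ideal.mem_comap] at h3
  rw [MvPolynomial.mem_zeroLocus_iff] at hp
  have h4 := hp _ h3
  have h5 : φ (MvPolynomial.X i - MvPolynomial.C (T i)) = ψ i - MvPolynomial.C (T i) := by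
    rw [hφ]
    simp
  rw [h5] at h4
  have h6 : MvPolynomial.eval p (ψ i) - T i = 0 := by simpa using h4
  exact sub_eq_zero.1 h6

end Pool.Agent.BSub
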