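import Mathlib.GroupTheory.Perm.List
import Mathlib.Algebra.BigOperators.Fin
import Mathlib.Algebra.Order.BigOperators.GroupWithZero.Finset
import Mathlib.Data.Fintype.BigOperators
import Mathlib.Data.Nat.ModEq
import Mathlib.Data.Real.Basic
import Mathlib.Order.Interval.Finset.Fin

/-!
# Counting nonconstant index tuples by cyclic relabelling
-/

set_option autoImplicit false

namespace Pool.Agent.BSub

open Finset

/-- A cyclic permutation of the elements of `M`. -/
private noncomputable def cntCyc {r : ℕ} (M : Finset (Fin r)) : Equiv.Perm (Fin r) :=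
  M.toList.formPerm

private lemma cntCyc_pow {r : ℕ} (M : Finset (Fin r)) (n i : ℕ) (h : i < M.toList.length) :
    (cntCyc M ^ n) M.toList[i]
      = M.toList[(i + n) % M.toList.length]'(Nat.mod_lt _ (i.zero_le.trans_lt h)) :=
  List.formPerm_pow_apply_getElem M.toList M.nodup_toList n i h

private lemma cntCyc_pow_mem {r : ℕ} {M : Finset (Fin r)} (n : ℕ) {y : Fin r} (hy : y ∈ M) :
    (cntCyc M ^ n) y ∈ M := by
  obtain ⟨i, hi, rfl⟩ := List.getElem_of_mem (Finset.mem_toList.mpr hy)
  rw [cntCyc_pow M n i hi, ← Finset.mem_toList]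
  exact List.getElem_mem _

private lemma cntCyc_pow_inj {r : ℕ} {M : Finset (Fin r)} {y : Fin r} (hy : y ∈ M) {a b : ℕ}
    (ha : a < M.card) (hb : b < M.card) (h : (cntCyc M ^ a) y = (cntCyc M ^ b) y) : a = b := by
  obtain ⟨i, hi, rfl⟩ := List.getElem_of_mem (Finset.mem_toList.mpr hy)
  rw [cntCyc_pow M a i hi, cntCyc_pow M b i hi, M.nodup_toList.getElem_inj_iff] at h
  rw [Finset.length_toList] at h
  have h2 : a ≡ b [MOD M.card] := Nat.ModEq.add_left_cancel' i h
  exact Nat.ModEq.eq_of_lt_of_lt h2 ha hb

private lemma cntCyc_image {r : ℕ} {M : Finset (Fin r)} {y : Fin r} (hy : y ∈ M) :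
    (range M.card).image (fun n => (cntCyc M ^ n) y) = M := by
  apply Finset.eq_of_subset_of_card_le
  · intro z hz
    obtain ⟨n, -, rfl⟩ := Finset.mem_image.mp hz
    exact cntCyc_pow_mem n hy
  · rw [Finset.card_image_of_injOn, Finset.card_range]
    intro a ha b hb hab
    exact cntCyc_pow_inj hy (Finset.mem_range.mp (Finset.mem_coe.mp ha))
      (Finset.mem_range.mp (Finset.mem_coe.mp hb)) hab

private lemma cntCyc_prod {r : ℕ} {M : Finset (Fin r)} {y : Fin r} (hy : y ∈ M) (p : Fin r → ℝ) :
    ∏ n ∈ range M.card, p ((cntCyc M ^ n) y) = ∏ l ∈ M, p l := by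
  conv_rhs => rw [← cntCyc_image hy]
  rw [Finset.prod_image]
  intro a ha b hb hab
  exact cntCyc_pow_inj hy (Finset.mem_range.mp (Finset.mem_coe.mp ha))
    (Finset.mem_range.mp (Finset.mem_coe.mp hb)) hab

/-- some power of the cyclic relabelling makes the product large -/
private lemma cnt_exists {d r : ℕ} (P : Fin d → Fin r → ℝ) (hP : ∀ x l, 0 < P x l)
    (c : ℝ) (hc : 0 < c) (h : ∀ l, c ≤ ∏ x, P x l) (f : Fin d → Fin r)
    (hne : (univ.image f).Nonempty) :
    ∃ n < (univ.image f).card, c ≤ ∏ x, P x ((cntCyc (univ.image f) ^ n) (f x)) := by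
  by_contra hcon
  push Not at hcon
  set M : Finset (Fin r) := univ.image f with hM
  have hmem : ∀ x, f x ∈ M := fun x => Finset.mem_image_of_mem f (Finset.mem_univ x)
  have h1 : ∏ n ∈ range M.card, ∏ x, P x ((cntCyc M ^ n) (f x)) < ∏ _n ∈ range M.card, c := by
    apply Finset.prod_lt_prod_of_nonempty
    · intro n _
      exact Finset.prod_pos (fun x _ => hP _ _)
    · intro n hn
      exact hcon n (Finset.mem_range.mp hn)
    · rw [Finset.nonempty_range_iff]
      exact hne.card_pos.ne'
  have h2 : ∏ n ∈ range M.card, ∏ x, P x ((cntCyc M ^ n) (f x)) = ∏ l ∈ M, ∏ x, P x l := by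
    rw [Finset.prod_comm]
    conv_rhs => rw [Finset.prod_comm]
    exact Finset.prod_congr rfl (fun x _ => cntCyc_prod (hmem x) (P x))
  have h3 : ∏ _l ∈ M, c ≤ ∏ l ∈ M, ∏ x, P x l :=
    Finset.prod_le_prod (fun _ _ => hc.le) (fun l _ => h l)
  rw [h2, Finset.prod_const, Finset.card_range] at h1
  rw [Finset.prod_const] at h3
  exact absurd h1 (not_lt.mpr h3)

theorem count_nonneg {d r : ℕ} (hd : 2 ≤ d) (P : Fin d → Fin r → ℝ) (hP : ∀ x l, 0 < P x l)
    (c : ℝ) (hc : 0 < c) (h : ∀ l, c ≤ ∏ x, P x l) :
    ∑ k ∈ Finset.range r, ((k + 1) ^ (d - 1) - 1) ≤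
      (Finset.univ.filter fun f : Fin d → Fin r =>
        (¬ ∀ x y, f x = f y) ∧ c ≤ ∏ x, P x (f x)).card := by
  classical
  obtain ⟨t, ht⟩ : ∃ t : Fin d, t = ⟨d - 1, by omega⟩ := ⟨_, rfl⟩
  -- the functions whose last value is the largest
  set R : Finset (Fin d → Fin r) := univ.filter fun f : Fin d → Fin r =>
    (¬ ∀ x y, f x = f y) ∧ ∀ y, f y ≤ f t with hR
  have hcount : ∑ k ∈ Finset.range r, ((k + 1) ^ (d - 1) - 1) ≤ R.card := by
    rw [Finset.sum_range]
    set T : Fin r → Finset (Fin d → Fin r) := fun k =>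
      (Fintype.piFinset (fun y => if y = t then ({k} : Finset (Fin r)) else Iic k)).erase
        (fun _ => k) with hT
    have hTmem : ∀ k f, f ∈ T k ↔ f ≠ (fun _ => k) ∧ ∀ y, f y ∈
        (if y = t then ({k} : Finset (Fin r)) else Iic k) := by
      intro k f
      rw [hT]
      simp only [Finset.mem_erase, Fintype.mem_piFinset]
    have hTt : ∀ k f, f ∈ T k → f t = k := by
      intro k f hf
      have := ((hTmem k f).mp hf).2 t
      simpa using this
    have hTle : ∀ k f, f ∈ T k → ∀ y, f y ≤ k := by
      intro k f hf y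
      have h1 := ((hTmem k f).mp hf).2 y
      split_ifs at h1 with hy
      · rw [Finset.mem_singleton] at h1
        exact h1.le
      · exact Finset.mem_Iic.mp h1
    have hTcard : ∀ k : Fin r, (T k).card = ((k : ℕ) + 1) ^ (d - 1) - 1 := by
      intro k
      have hk : (fun _ => k) ∈
          Fintype.piFinset (fun y : Fin d => if y = t then ({k} : Finset (Fin r)) else Iic k) := by
        rw [Fintype.mem_piFinset]
        intro y
        split_ifs <;> simp
      rw [hT]
      simp only
      rw [Finset.card_erase_of_mem hk, Fintype.card_piFinset]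
      congr 1
      rw [← Finset.mul_prod_erase univ _ (Finset.mem_univ t)]
      rw [Finset.prod_congr rfl (g := fun _ => ((k : ℕ) + 1))]
      · rw [Finset.prod_const, Finset.card_erase_of_mem (Finset.mem_univ t), Finset.card_univ,
          Fintype.card_fin]
        simp
      · intro y hy
        rw [if_neg (Finset.ne_of_mem_erase hy), Fin.card_Iic]
    rw [← Finset.sum_congr rfl (fun k _ => hTcard k), ← Finset.card_biUnion]
    · apply Finset.card_le_card
      intro f hf
      obtain ⟨k, -, hk⟩ := Finset.mem_biUnion.mp hf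
      rw [hR, Finset.mem_filter]
      refine ⟨Finset.mem_univ _, ?_, ?_⟩
      · intro hcst
        apply ((hTmem k f).mp hk).1
        funext y
        rw [hcst y t, hTt k f hk]
      · intro y
        rw [hTt k f hk]
        exact hTle k f hk y
    · intro k _ k' _ hkk
      rw [Function.onFun, Finset.disjoint_left]
      intro f hf hf'
      exact hkk ((hTt k f hf).symm.trans (hTt k' f hf'))
  refine hcount.trans ?_
  -- the relabelling
  have hne : ∀ f : Fin d → Fin r, (univ.image f).Nonempty := fun f =>
    ⟨f t, Finset.mem_image_of_mem f (Finset.mem_univ t)⟩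
  choose N hN1 hN2 using fun f => cnt_exists P hP c hc h f (hne f)
  apply Finset.card_le_card_of_injOn (fun f x => (cntCyc (univ.image f) ^ N f) (f x))
  · intro f hf
    rw [Finset.mem_coe, hR, Finset.mem_filter] at hf
    rw [Finset.mem_coe, Finset.mem_filter]
    refine ⟨Finset.mem_univ _, ?_, hN2 f⟩
    intro hcst
    apply hf.2.1
    intro x y
    exact (cntCyc (univ.image f) ^ N f).injective (hcst x y)
  · have himg : ∀ f : Fin d → Fin r,
        univ.image (fun x => (cntCyc (univ.image f) ^ N f) (f x)) = univ.image f := by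
      intro f
      apply Finset.eq_of_subset_of_card_le
      · intro z hz
        obtain ⟨x, -, rfl⟩ := Finset.mem_image.mp hz
        exact cntCyc_pow_mem _ (Finset.mem_image_of_mem f (Finset.mem_univ x))
      · rw [show (fun x => (cntCyc (univ.image f) ^ N f) (f x))
            = (cntCyc (univ.image f) ^ N f) ∘ f from rfl, ← Finset.image_image,
          Finset.card_image_of_injective _ (cntCyc (univ.image f) ^ N f).injective]
    intro f hf f' hf' hff
    rw [Finset.mem_coe, hR, Finset.mem_filter] at hf hf'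
    simp only at hff
    have hM : univ.image f = univ.image f' := by
      rw [← himg f, ← himg f', hff]
    have hlast : f t = f' t := by
      apply le_antisymm
      · have : f t ∈ univ.image f' := hM ▸ Finset.mem_image_of_mem f (Finset.mem_univ t)
        obtain ⟨y, -, hy⟩ := Finset.mem_image.mp this
        rw [← hy]
        exact hf'.2.2 y
      · have : f' t ∈ univ.image f := hM ▸ Finset.mem_image_of_mem f' (Finset.mem_univ t)
        obtain ⟨y, -, hy⟩ := Finset.mem_image.mp this
        rw [← hy]
        exact hf.2.2 y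
    have h1 : (cntCyc (univ.image f) ^ N f) (f t) = (cntCyc (univ.image f) ^ N f') (f t) := by
      have h2 : (cntCyc (univ.image f) ^ N f) (f t) = (cntCyc (univ.image f') ^ N f') (f' t) :=
        congrFun hff t
      rw [h2, hlast, hM]
    have h3 : N f = N f' := by
      apply cntCyc_pow_inj (Finset.mem_image_of_mem f (Finset.mem_univ t)) (hN1 f) _ h1
      rw [hM]
      exact hN1 f'
    funext x
    have h4 : (cntCyc (univ.image f) ^ N f) (f x) = (cntCyc (univ.image f') ^ N f') (f' x) :=
      congrFun hff x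
    rw [← hM, ← h3] at h4
    exact (cntCyc (univ.image f) ^ N f).injective h4

end Pool.Agent.BSub
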