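import Mathlib.Analysis.SpecificLimits.Normed
import Mathlib.LinearAlgebra.Matrix.Notation
import Mathlib.Tactic
import Pool.Agent.Lib.MP_79bff1_ag.Basic
import Pool.Agent.Lib.MP_79bff1_ag.Defs
import Pool.Agent.Lib.MP_79bff1_ag.Zero

set_option autoImplicit false

namespace Pool.Agent.BSub

/-- the integer weights -/
def dgWt (d : ℕ) (x : Fin d) (l : ℕ) : ℤ :=
  ((d : ℤ) ^ 2) ^ l - if l % d = x.val then (d : ℤ) * ((d : ℤ) ^ 2) ^ l else 0

theorem dg_sum_const {d : ℕ} (hd : 2 ≤ d) (l : ℕ) : ∑ x : Fin d, dgWt d x l = 0 := by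
  unfold dgWt
  rw [Finset.sum_sub_distrib]
  have h : ∀ x : Fin d, (if l % d = x.val then (d : ℤ) * ((d : ℤ) ^ 2) ^ l else 0)
      = if (⟨l % d, Nat.mod_lt _ (by omega)⟩ : Fin d) = x
        then (d : ℤ) * ((d : ℤ) ^ 2) ^ l else 0 := by
    intro x
    congr 1
    simp [Fin.ext_iff]
  simp only [h, Finset.sum_ite_eq, Finset.mem_univ, if_true]
  simp

theorem dg_sum_pos {d : ℕ} (hd : 2 ≤ d) (f : Fin d → ℕ) (hf : ¬ ∀ x y, f x = f y)
    (hz : ¬ ∃ x : Fin d, (∀ y, f y ≤ f x) ∧ f x % d = x.val) :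
    0 < ∑ x : Fin d, dgWt d x (f x) := by
  haveI : Nonempty (Fin d) := ⟨⟨0, by omega⟩⟩
  obtain ⟨x0, hx0⟩ := Finite.exists_max f
  push Not at hz
  have hm1 : 1 ≤ f x0 := by
    by_contra h
    apply hf
    intro x y
    have h1 := hx0 x
    have h2 := hx0 y
    omega
  have hdZ : (2 : ℤ) ≤ d := by exact_mod_cast hd
  have hpow : ∀ l : ℕ, (0 : ℤ) < ((d : ℤ) ^ 2) ^ l := fun l => by positivity
  have hval : dgWt d x0 (f x0) = ((d : ℤ) ^ 2) ^ (f x0) := by
    unfold dgWt
    rw [if_neg (hz x0 hx0)]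
    ring
  have hM : ((d : ℤ) ^ 2) ^ (f x0) = (d : ℤ) ^ 2 * ((d : ℤ) ^ 2) ^ (f x0 - 1) := by
    rw [← pow_succ']
    congr 1
    omega
  have hlow : ∀ x : Fin d, -(((d : ℤ) - 1) * ((d : ℤ) ^ 2) ^ (f x0 - 1)) ≤ dgWt d x (f x) := by
    intro x
    rcases (hx0 x).lt_or_eq with hlt | heq
    · have hle : ((d : ℤ) ^ 2) ^ (f x) ≤ ((d : ℤ) ^ 2) ^ (f x0 - 1) := by
        apply pow_le_pow_right₀
        · nlinarith
        · omega
      unfold dgWt
      split_ifs
      · nlinarith [hpow (f x)]
      · nlinarith [hpow (f x), hpow (f x0 - 1)]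
    · have : dgWt d x (f x) = ((d : ℤ) ^ 2) ^ (f x) := by
        unfold dgWt
        rw [if_neg (hz x (fun y => by rw [heq]; exact hx0 y))]
        ring
      rw [this]
      nlinarith [hpow (f x), hpow (f x0 - 1)]
  rw [← Finset.add_sum_erase _ _ (Finset.mem_univ x0), hval]
  have hsum : -(((d : ℤ) - 1) * (((d : ℤ) - 1) * ((d : ℤ) ^ 2) ^ (f x0 - 1)))
      ≤ ∑ x ∈ Finset.univ.erase x0, dgWt d x (f x) := by
    have := Finset.card_nsmul_le_sum (Finset.univ.erase x0) (fun x => dgWt d x (f x))
      (-(((d : ℤ) - 1) * ((d : ℤ) ^ 2) ^ (f x0 - 1))) (fun x _ => hlow x)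
    rw [Finset.card_erase_of_mem (Finset.mem_univ _), Finset.card_univ, Fintype.card_fin,
      nsmul_eq_mul, Nat.cast_sub (by omega)] at this
    push_cast at this
    linarith
  rw [hM]
  nlinarith [hpow (f x0 - 1)]

theorem dg_contract_single {d n : ℕ} (w : Fin d → ℂ) (g : Fin d → Fin n) (S : Tensor d n) :
    contract (fun x j => if g x = j then w x else 0) S = (∏ x, w x) * S g := by
  unfold contract
  rw [Finset.sum_eq_single g]
  · simp
  · intro h _ hne
    have : ∃ x, g x ≠ h x := by
      by_contra hcon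
      push Not at hcon
      exact hne (funext fun x => (hcon x).symm)
    obtain ⟨x, hx⟩ := this
    rw [Finset.prod_eq_zero (Finset.mem_univ x) (if_neg hx), zero_mul]
  · intro h
    exact absurd (Finset.mem_univ _) h

theorem degenerates_of_zeros {d n r : ℕ} (hd : 2 ≤ d) (hr : r ≤ n)
    (X : Fin d → Matrix (Fin n) (Fin n) ℂ) (S : Tensor d n)
    (hX : ∀ x l j, X x l j ≠ 0 → l.val < r ∧ r ≤ j.val) (hS : ∀ f ∈ zeroSet d n r, S f = 0)
    (hS' : ∀ l : Fin n, l.val < r → S (fun _ => l) ≠ 0) :
    Degenerates (restrict (fun x => 1 + X x) S) (unitTensor d r) := by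
  have hXX : ∀ x, X x * X x = 0 := by
    intro x
    ext l j
    rw [Matrix.mul_apply, Matrix.zero_apply]
    apply Finset.sum_eq_zero
    intro i _
    by_contra h
    have h1 := hX x l i (left_ne_zero_of_mul h)
    have h2 := hX x i j (right_ne_zero_of_mul h)
    omega
  have hinv : ∀ x, (1 - X x) * (1 + X x) = 1 := by
    intro x
    have : (1 - X x) * (1 + X x) = 1 - X x * X x := by noncomm_ring
    rw [this, hXX, sub_zero]
  let x0 : Fin d := ⟨0, by omega⟩
  -- coefficients
  let c : Fin d → Fin r → ℂ := fun x l =>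
    if x = x0 then (S (fun _ => Fin.castLE hr l))⁻¹ else 1
  let w : ℕ → Fin d → Fin r → ℂ := fun k x l => (2 : ℂ) ^ (-((k : ℤ) * dgWt d x l.val)) * c x l
  let A : ℕ → Fin d → Matrix (Fin r) (Fin n) ℂ := fun k x =>
    fun l j => w k x l * (1 - X x) (Fin.castLE hr l) j
  have hA : ∀ k x l j, (A k x * (1 + X x) : Matrix (Fin r) (Fin n) ℂ) l j = if Fin.castLE hr l = j then w k x l else 0 := by
    intro k x l j
    have h1 : (A k x * (1 + X x) : Matrix (Fin r) (Fin n) ℂ) l j
        = w k x l * ((1 - X x) * (1 + X x) : Matrix (Fin n) (Fin n) ℂ) (Fin.castLE hr l) j := by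
      rw [Matrix.mul_apply, Matrix.mul_apply, Finset.mul_sum]
      refine Finset.sum_congr rfl fun i _ => ?_
      show w k x l * (1 - X x) (Fin.castLE hr l) i * (1 + X x) i j = _
      ring
    rw [h1, hinv, Matrix.one_apply]
    split_ifs <;> simp
  have hval : ∀ k f, restrict (A k) (restrict (fun x => 1 + X x) S) f
      = (2 : ℂ) ^ (-((k : ℤ) * ∑ x, dgWt d x (f x).val)) *
        ((S (fun _ => Fin.castLE hr (f x0)))⁻¹ * S (fun x => Fin.castLE hr (f x))) := by
    intro k f
    rw [← restrict_mul]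
    show contract (fun x => (A k x * (1 + X x) : Matrix (Fin r) (Fin n) ℂ) (f x)) S = _
    have h1 : (fun x => (A k x * (1 + X x) : Matrix (Fin r) (Fin n) ℂ) (f x))
        = fun x j => if Fin.castLE hr (f x) = j then w k x (f x) else 0 := by
      funext x j
      exact hA k x (f x) j
    rw [h1, dg_contract_single (fun x => w k x (f x)) (fun x => Fin.castLE hr (f x)) S]
    have h2 : ∏ x, w k x (f x) = (2 : ℂ) ^ (-((k : ℤ) * ∑ x, dgWt d x (f x).val)) *
        (S (fun _ => Fin.castLE hr (f x0)))⁻¹ := by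
      show ∏ x, ((2 : ℂ) ^ (-((k : ℤ) * dgWt d x (f x).val)) * c x (f x)) = _
      rw [Finset.prod_mul_distrib]
      congr 1
      · have h3 : ∀ s : Finset (Fin d), ∏ x ∈ s, (2 : ℂ) ^ (-((k : ℤ) * dgWt d x (f x).val))
            = (2 : ℂ) ^ (-((k : ℤ) * ∑ x ∈ s, dgWt d x (f x).val)) := by
          intro s
          induction s using Finset.induction_on with
          | empty => simp
          | insert a s ha ih =>
            rw [Finset.prod_insert ha, Finset.sum_insert ha, ih, ← zpow_add₀ (by norm_num)]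
            congr 1
            ring
        exact h3 Finset.univ
      · show ∏ x, (if x = x0 then (S (fun _ => Fin.castLE hr (f x)))⁻¹ else 1) = _
        rw [Finset.prod_ite_eq' Finset.univ x0
          (fun x => (S (fun _ => Fin.castLE hr (f x)))⁻¹)]
        simp
    rw [h2, mul_assoc]
  refine mem_closure_of_tendsto (f := fun k : ℕ => restrict (A k) (restrict (fun x => 1 + X x) S))
    (b := Filter.atTop) ?_ (Filter.Eventually.of_forall fun k => ⟨A k, rfl⟩)
  rw [tendsto_pi_nhds]
  intro f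
  simp only [hval]
  by_cases hconst : ∀ x y, f x = f y
  · have hf : ∀ x, f x = f x0 := fun x => hconst x x0
    have h0 : ∑ x, dgWt d x (f x).val = 0 := by
      simp only [hf]
      exact dg_sum_const hd _
    have hu : unitTensor d r f = 1 := if_pos hconst
    have hS1 : (S (fun _ => Fin.castLE hr (f x0)))⁻¹ * S (fun x => Fin.castLE hr (f x)) = 1 := by
      have : (fun x => Fin.castLE hr (f x)) = fun _ : Fin d => Fin.castLE hr (f x0) := by
        funext x; rw [hf x]
      rw [this]
      exact inv_mul_cancel₀ (hS' _ (f x0).isLt)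
    rw [hu, hS1, h0]
    simp
  · have hu : unitTensor d r f = 0 := if_neg hconst
    rw [hu]
    by_cases hz : (fun x => Fin.castLE hr (f x)) ∈ zeroSet d n r
    · rw [hS _ hz]
      simp
    · have hpos : 0 < ∑ x, dgWt d x (f x).val := by
        apply dg_sum_pos hd (fun x => (f x).val)
        · intro h
          exact hconst fun x y => Fin.ext (h x y)
        · rintro ⟨x, hx1, hx2⟩
          apply hz
          unfold zeroSet
          rw [Finset.mem_filter]
          refine ⟨Finset.mem_univ _, fun y => (f y).isLt, fun h => hconst fun y z => ?_, x,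
            fun y => ?_, hx2⟩
          · have := h y z
            rw [Fin.ext_iff] at this
            exact Fin.ext this
          · rw [Fin.le_def]
            exact hx1 y
      have hlim : Filter.Tendsto (fun k : ℕ => (2 : ℂ) ^ (-((k : ℤ) * ∑ x, dgWt d x (f x).val)))
          Filter.atTop (nhds 0) := by
        obtain ⟨N, hN⟩ := Int.eq_ofNat_of_zero_le hpos.le
        have hN1 : 1 ≤ N := by
          have := hpos
          rw [hN] at this
          exact_mod_cast this
        rw [hN]
        have h5 : ∀ k : ℕ, (2 : ℂ) ^ (-((k : ℤ) * (N : ℤ))) = (((1 : ℂ) / 2) ^ N) ^ k := by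
          intro k
          rw [zpow_neg, mul_comm, zpow_mul, zpow_natCast, zpow_natCast]
          rw [one_div, inv_pow, inv_pow]
        simp only [h5]
        apply tendsto_pow_atTop_nhds_zero_of_norm_lt_one
        rw [norm_pow]
        have : ‖(1 : ℂ) / 2‖ = 1 / 2 := by simp
        rw [this]
        exact pow_lt_one₀ (by norm_num) (by norm_num) (by omega)
      have := hlim.mul_const ((S (fun _ => Fin.castLE hr (f x0)))⁻¹ *
        S (fun x => Fin.castLE hr (f x)))
      rw [zero_mul] at this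
      exact this

end Pool.Agent.BSub
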