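import Mathlib
import Pool.Agent.Lib.MP_79bff1_ag.Defs
import Pool.Agent.Lib.MP_79bff1_ag.Basic

set_option autoImplicit false

namespace Pool.Agent.BSub

/-- completion of the rows by unit vectors -/
noncomputable def dimExt {r n : ℕ} {R : Type*} [CommRing R] (c : Fin r ↪ Fin n)
    (U : Matrix (Fin r) (Fin n) R) : Matrix (Fin n) (Fin n) R :=
  Function.extend c U (1 : Matrix (Fin n) (Fin n) R)

theorem dimExt_range {r n : ℕ} {R : Type*} [CommRing R] (c : Fin r ↪ Fin n)
    (U : Matrix (Fin r) (Fin n) R) (t : Fin r) : dimExt c U (c t) = U t :=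
  c.injective.extend_apply _ _ _

theorem dimExt_not {r n : ℕ} {R : Type*} [CommRing R] (c : Fin r ↪ Fin n)
    (U : Matrix (Fin r) (Fin n) R) (i : Fin n) (hi : ¬ ∃ t, c t = i) :
    dimExt c U i = (1 : Matrix (Fin n) (Fin n) R) i :=
  Function.extend_apply' _ _ _ hi

theorem dimExt_map {r n : ℕ} {R S : Type*} [CommRing R] [CommRing S] (f : R →+* S)
    (c : Fin r ↪ Fin n) (U : Matrix (Fin r) (Fin n) R) (V : Matrix (Fin r) (Fin n) S)
    (h : ∀ t j, f (U t j) = V t j) : f.mapMatrix (dimExt c U) = dimExt c V := by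
  ext i j
  rw [RingHom.mapMatrix_apply, Matrix.map_apply]
  by_cases hi : ∃ t, c t = i
  · obtain ⟨t, rfl⟩ := hi
    rw [dimExt_range, dimExt_range]
    exact h t j
  · rw [dimExt_not c U i hi, dimExt_not c V i hi]
    simp only [Matrix.one_apply]
    split_ifs <;> simp

theorem dimExt_det {r n : ℕ} (c : Fin r ↪ Fin n) (U : Matrix (Fin r) (Fin n) ℂ)
    (h1 : ∀ t, U t (c t) = 1) (h2 : ∀ s t, s < t → U t (c s) = 0) : (dimExt c U).det ≠ 0 := by
  intro h
  obtain ⟨v, hv, hv0⟩ := Matrix.exists_mulVec_eq_zero_iff.mpr h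
  apply hv
  have hv1 : ∀ i, (¬ ∃ t, c t = i) → v i = 0 := by
    intro i hi
    have h3 := congrFun hv0 i
    simp only [Matrix.mulVec, dotProduct, dimExt_not c U i hi, Matrix.one_apply, Pi.zero_apply,
      ite_mul, one_mul, zero_mul, Finset.sum_ite_eq, Finset.mem_univ, if_true] at h3
    exact h3
  have hv2 : ∀ k : ℕ, ∀ t : Fin r, r - t.val ≤ k → v (c t) = 0 := by
    intro k
    induction k with
    | zero => intro t ht; exact absurd t.isLt (by omega)
    | succ k ih =>
      intro t ht
      have h3 := congrFun hv0 (c t)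
      simp only [Matrix.mulVec, dotProduct, dimExt_range, Pi.zero_apply] at h3
      rw [Finset.sum_eq_single (c t)] at h3
      · rwa [h1, one_mul] at h3
      · intro j _ hj
        by_cases hjr : ∃ s, c s = j
        · obtain ⟨s, rfl⟩ := hjr
          rcases lt_trichotomy s t with hst | hst | hst
          · rw [h2 s t hst, zero_mul]
          · exact absurd (congrArg c hst) hj
          · rw [ih s (by have : t.val < s.val := hst; omega), mul_zero]
        · rw [hv1 j hjr, mul_zero]
      · intro hj; exact absurd (Finset.mem_univ _) hj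
  funext i
  by_cases hi : ∃ t, c t = i
  · obtain ⟨t, rfl⟩ := hi
    exact hv2 _ t le_rfl
  · exact hv1 i hi

theorem dim_sum (n r : ℕ) (hr : r ≤ n) :
    ∑ t ∈ Finset.range r, (n - (t + 1)) = r * n - r * (r + 1) / 2 := by
  have h : ∀ r ≤ n, ∑ t ∈ Finset.range r, (n - (t + 1)) + r * (r + 1) / 2 = r * n := by
    intro r
    induction r with
    | zero => intro _; simp
    | succ r ih =>
      intro hr
      rw [Finset.sum_range_succ]
      have h3 := ih (by omega)
      have h4 := Nat.triangle_succ (r + 1)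
      have h5 : (r + 1) * (r + 1 + 1) / 2 = r * (r + 1) / 2 + (r + 1) := by
        rw [Nat.add_sub_cancel, Nat.add_sub_cancel] at h4
        rw [mul_comm (r + 1) (r + 1 + 1), mul_comm r (r + 1)]
        exact h4
      rw [h5, add_mul, ← h3]
      omega
  have := h r hr
  omega

theorem dim_card {r n : ℕ} (c : Fin r ↪ Fin n) :
    Fintype.card {p : Fin r × Fin n // ∀ s ≤ p.1, p.2 ≠ c s} = r * n - r * (r + 1) / 2 := by
  classical
  have hr : r ≤ n := by simpa using Fintype.card_le_of_embedding c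
  rw [Fintype.card_subtype, Finset.card_filter, Fintype.sum_prod_type]
  have h : ∀ t : Fin r, (∑ j : Fin n, if ∀ s ≤ t, j ≠ c s then 1 else 0) = n - (t.val + 1) := by
    intro t
    rw [← Finset.card_filter]
    have e : (Finset.univ.filter fun j : Fin n => ∀ s ≤ t, j ≠ c s) =
        ((Finset.Iic t).image c)ᶜ := by
      ext j
      simp only [Finset.mem_filter, Finset.mem_univ, true_and, Finset.mem_compl,
        Finset.mem_image, Finset.mem_Iic, not_exists, not_and]
      constructor
      · intro h s hs he; exact h s hs he.symm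
      · intro h s hs he; exact h s hs he.symm
    rw [e, Finset.card_compl, Finset.card_image_of_injective _ c.injective, Fin.card_Iic,
      Fintype.card_fin]
  rw [Finset.sum_congr rfl (fun t _ => h t), Fin.sum_univ_eq_sum_range (fun t => n - (t + 1)),
    dim_sum n r hr]

theorem exists_poly {d n : ℕ} (r : Fin d → ℕ) (c : ∀ x, Fin (r x) ↪ Fin n)
    (Λ : Finset (∀ x, Fin (r x)))
    (hΛ : ∑ x, (r x * n - r x * (r x + 1) / 2) < Λ.card) :
    ∃ P : MvPolynomial (Fin d → Fin n) ℂ, P ≠ 0 ∧
      ∀ (T : Tensor d n) (U : ∀ x, Matrix (Fin (r x)) (Fin n) ℂ),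
        (∀ x t, U x t (c x t) = 1) → (∀ x s t, s < t → U x t (c x s) = 0) →
        (∀ f ∈ Λ, contract (fun x => U x (f x)) T = 0) → MvPolynomial.eval T P = 0 := by
  classical
  -- the zero pattern in the big tensor
  set Λ' : Finset (Fin d → Fin n) := Λ.image (fun f x => c x (f x)) with hΛ'
  have hcard' : Λ'.card = Λ.card := by
    apply Finset.card_image_of_injective
    intro f g hfg
    funext x
    exact (c x).injective (congrFun hfg x)
  let σ := (Σ x, {p : Fin (r x) × Fin n // ∀ s ≤ p.1, p.2 ≠ c x s}) ⊕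
    {g : Fin d → Fin n // g ∉ Λ'}
  let Ug : ∀ x, Matrix (Fin (r x)) (Fin n) (MvPolynomial σ ℂ) := fun x t j =>
    if h : ∀ s ≤ t, j ≠ c x s then MvPolynomial.X (Sum.inl ⟨x, ⟨(t, j), h⟩⟩)
    else if j = c x t then 1 else 0
  let Sg : (Fin d → Fin n) → MvPolynomial σ ℂ := fun g =>
    if h : g ∉ Λ' then MvPolynomial.X (Sum.inr ⟨g, h⟩) else 0
  let ψ : (Fin d → Fin n) → MvPolynomial σ ℂ := fun f =>
    ∑ g : Fin d → Fin n, (∏ x, (dimExt (c x) (Ug x)).adjugate (f x) (g x)) * Sg g
  have hσ : Fintype.card σ < Fintype.card (Fin d → Fin n) := by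
    have h1 : Fintype.card {g : Fin d → Fin n // g ∉ Λ'} =
        Fintype.card (Fin d → Fin n) - Λ'.card := by
      rw [Fintype.card_subtype, ← Finset.card_compl]
      congr 1
      ext g; simp
    have h2 : Fintype.card σ = ∑ x, (r x * n - r x * (r x + 1) / 2) +
        (Fintype.card (Fin d → Fin n) - Λ'.card) := by
      rw [Fintype.card_sum, Fintype.card_sigma, h1]
      congr 1
      exact Finset.sum_congr rfl fun x _ => dim_card (c x)
    have h3 : Λ'.card ≤ Fintype.card (Fin d → Fin n) := Finset.card_le_univ _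
    rw [h2]
    omega
  have hdep : ¬ AlgebraicIndependent ℂ ψ := by
    intro h
    have h1 := h.cardinalMk_le_trdeg
    rw [MvPolynomial.trdeg_of_isDomain] at h1
    simp only [Cardinal.mk_fintype, Cardinal.lift_natCast, Nat.cast_le] at h1
    omega
  rw [algebraicIndependent_iff] at hdep
  push Not at hdep
  obtain ⟨P, hP0, hP⟩ := hdep
  refine ⟨P, hP, ?_⟩
  intro T U hU1 hU2 hT
  let M : ∀ _ : Fin d, Matrix (Fin n) (Fin n) ℂ := fun x => dimExt (c x) (U x)
  have hM : ∀ x, (M x).det ≠ 0 := fun x => dimExt_det (c x) (U x) (hU1 x) (hU2 x)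
  let S : Tensor d n := restrict M T
  let δ : ℂ := ∏ x, ((M x).det)⁻¹
  let p : σ → ℂ := Sum.elim (fun y => U y.1 y.2.1.1 y.2.1.2) (fun g => δ * S g.1)
  have hS : ∀ g ∈ Λ', S g = 0 := by
    intro g hg
    obtain ⟨f, hf, rfl⟩ := Finset.mem_image.mp hg
    have h3 := hT f hf
    have h4 : (fun x => M x (c x (f x))) = fun x => U x (f x) := by
      funext x
      exact dimExt_range (c x) (U x) (f x)
    show contract (fun x => M x (c x (f x))) T = 0
    rw [h4]; exact h3
  have hUg : ∀ x t j, (MvPolynomial.aeval p : MvPolynomial σ ℂ →ₐ[ℂ] ℂ) (Ug x t j) = U x t j := by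
    intro x t j
    simp only [Ug]
    by_cases h : ∀ s ≤ t, j ≠ c x s
    · rw [dif_pos h, MvPolynomial.aeval_X]
      rfl
    · rw [dif_neg h]
      by_cases hj : j = c x t
      · rw [if_pos hj, hj, hU1, map_one]
      · rw [if_neg hj, map_zero]
        push Not at h
        obtain ⟨s, hs, hjs⟩ := h
        have hst : s ≠ t := fun e => hj (e ▸ hjs)
        rw [hjs, hU2 x s t (lt_of_le_of_ne hs hst)]
  have hSg : ∀ g, (MvPolynomial.aeval p : MvPolynomial σ ℂ →ₐ[ℂ] ℂ) (Sg g) = δ * S g := by
    intro g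
    simp only [Sg]
    by_cases h : g ∉ Λ'
    · rw [dif_pos h, MvPolynomial.aeval_X]
      rfl
    · rw [dif_neg h, map_zero, hS g (not_not.mp h), mul_zero]
  have hadj : ∀ x i j, (MvPolynomial.aeval p : MvPolynomial σ ℂ →ₐ[ℂ] ℂ)
      ((dimExt (c x) (Ug x)).adjugate i j) = (M x).adjugate i j := by
    intro x i j
    have h5 := RingHom.map_adjugate
      (MvPolynomial.aeval p : MvPolynomial σ ℂ →ₐ[ℂ] ℂ).toRingHom (dimExt (c x) (Ug x))
    rw [dimExt_map _ (c x) (Ug x) (U x) (fun t j => hUg x t j)] at h5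
    have h6 := congrFun (congrFun h5 i) j
    exact h6
  have hψ : ∀ f, (MvPolynomial.aeval p : MvPolynomial σ ℂ →ₐ[ℂ] ℂ) (ψ f) = T f := by
    intro f
    simp only [ψ]
    rw [map_sum]
    simp_rw [map_mul, map_prod, hadj, hSg]
    have h7 : T = restrict (fun x => (M x)⁻¹) S := by
      have h8 : (fun x => (M x)⁻¹ * M x) = fun _ : Fin d => (1 : Matrix (Fin n) (Fin n) ℂ) := by
        funext x
        exact Matrix.nonsing_inv_mul _ (isUnit_iff_ne_zero.mpr (hM x))
      calc T = restrict (fun _ => 1) T := (restrict_one T).symm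
        _ = restrict (fun x => (M x)⁻¹ * M x) T := by rw [h8]
        _ = _ := restrict_mul _ _ _
    conv_rhs => rw [h7]
    unfold restrict contract
    refine Finset.sum_congr rfl fun g _ => ?_
    have h9 : ∏ x, (M x)⁻¹ (f x) (g x) = δ * ∏ x, (M x).adjugate (f x) (g x) := by
      simp only [δ]
      rw [← Finset.prod_mul_distrib]
      refine Finset.prod_congr rfl fun x _ => ?_
      rw [Matrix.inv_def, Matrix.smul_apply, Ring.inverse_eq_inv', smul_eq_mul]
    rw [h9]
    ring
  have hfin : MvPolynomial.eval T P =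
      (MvPolynomial.aeval p : MvPolynomial σ ℂ →ₐ[ℂ] ℂ) (MvPolynomial.aeval ψ P) := by
    rw [MvPolynomial.comp_aeval_apply]
    simp_rw [hψ]
    rw [MvPolynomial.aeval_eq_eval]
  rw [hfin, hP0, map_zero]

end Pool.Agent.BSub
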