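import Pool.Agent.Lib.MP_79bff1_ag.WDefs
import Pool.Agent.Lib.MP_79bff1_ag.Basic
import Pool.Agent.Lib.MP_79bff1_ag.Dim
import Pool.Agent.Lib.MP_79bff1_ag.Chev

set_option autoImplicit false

/-!
# Dichotomy for fixed combinatorial data
-/

namespace Pool.Agent.BSub

/-- the dichotomy with the rows in normal order -/
theorem dich_core {d n r : ℕ} (c : Fin d → (Fin r ↪ Fin n)) (Λ D : Finset (Fin d → Fin r))
    (hD : ∀ f ∈ D, f ∉ Λ) :
    (Generic fun T : Tensor d n => ∃ V : Fin d → Matrix (Fin r) (Fin n) ℂ,
      (∀ f ∈ Λ, contract (fun x => V x (f x)) T = 0) ∧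
        ∀ f ∈ D, contract (fun x => V x (f x)) T ≠ 0) ∨
    (Generic fun T : Tensor d n => ¬ ∃ V : Fin d → Matrix (Fin r) (Fin n) ℂ,
      (∀ x t, V x t (c x t) = 1) ∧ (∀ x s t, s < t → V x t (c x s) = 0) ∧
      ∀ f ∈ Λ, contract (fun x => V x (f x)) T = 0) := by
  classical
  have hinjc : Function.Injective (fun (f : Fin d → Fin r) (x : Fin d) => c x (f x)) := by
    intro f g hfg
    funext x
    exact (c x).injective (congrFun hfg x)
  set Λ' : Finset (Fin d → Fin n) := Λ.image (fun f x => c x (f x)) with hΛ'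
  let σ := (Σ x : Fin d, {p : Fin r × Fin n // ∀ s ≤ p.1, p.2 ≠ c x s}) ⊕
    {g : Fin d → Fin n // g ∉ Λ'}
  let Ug : ∀ _ : Fin d, Matrix (Fin r) (Fin n) (MvPolynomial σ ℂ) := fun x t j =>
    if h : ∀ s ≤ t, j ≠ c x s then MvPolynomial.X (Sum.inl ⟨x, ⟨(t, j), h⟩⟩)
    else if j = c x t then 1 else 0
  let Sg : (Fin d → Fin n) → MvPolynomial σ ℂ := fun g =>
    if h : g ∉ Λ' then MvPolynomial.X (Sum.inr ⟨g, h⟩) else 0
  let ψ : (Fin d → Fin n) → MvPolynomial σ ℂ := fun f =>
    ∑ g : Fin d → Fin n, (∏ x, (dimExt (c x) (Ug x)).adjugate (f x) (g x)) * Sg g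
  by_cases hind : AlgebraicIndependent ℂ ψ
  · left
    let b : MvPolynomial σ ℂ :=
      (∏ f ∈ D, Sg (fun x => c x (f x))) * ∏ x, (dimExt (c x) (Ug x)).det
    have hb : b ≠ 0 := by
      apply mul_ne_zero
      · rw [Finset.prod_ne_zero_iff]
        intro f hf
        have h : (fun x => c x (f x)) ∉ Λ' := by
          intro h
          obtain ⟨g, hg, hgf⟩ := Finset.mem_image.mp h
          exact hD f hf (hinjc hgf ▸ hg)
        simp only [Sg]
        rw [dif_pos h]
        exact MvPolynomial.X_ne_zero _
      · rw [Finset.prod_ne_zero_iff]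
        intro x _ h0
        have h1 := congrArg (MvPolynomial.eval (fun _ : σ => (0 : ℂ))) h0
        rw [map_zero, RingHom.map_det, dimExt_map _ (c x) (Ug x)
          (fun t j => if j = c x t then (1 : ℂ) else 0)] at h1
        · refine dimExt_det (c x) _ ?_ ?_ h1
          · intro t
            exact if_pos rfl
          · intro s t hst
            refine if_neg ?_
            intro h
            exact (ne_of_lt hst) ((c x).injective h)
        · intro t j
          simp only [Ug]
          by_cases h : ∀ s ≤ t, j ≠ c x s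
          · rw [dif_pos h, MvPolynomial.eval_X, if_neg (h t le_rfl)]
          · rw [dif_neg h]
            split_ifs <;> simp
    obtain ⟨P, hP, hPT⟩ := exists_poly_of_injective ψ b hb hind
    refine ⟨P, hP, ?_⟩
    intro T hT
    obtain ⟨p, hp, hpb⟩ := hPT T hT
    let M : ∀ _ : Fin d, Matrix (Fin n) (Fin n) ℂ := fun x =>
      (MvPolynomial.eval p).mapMatrix (dimExt (c x) (Ug x))
    let S : Tensor d n := fun g => MvPolynomial.eval p (Sg g)
    have hdet : ∀ x, (M x).det = MvPolynomial.eval p (dimExt (c x) (Ug x)).det := by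
      intro x
      exact (RingHom.map_det _ _).symm
    have hTS : T = restrict (fun x => (M x).adjugate) S := by
      funext f
      rw [← hp f]
      simp only [ψ, restrict, contract, M, S]
      rw [map_sum]
      refine Finset.sum_congr rfl fun g _ => ?_
      rw [map_mul, map_prod]
      congr 1
      refine Finset.prod_congr rfl fun x _ => ?_
      have h5 := RingHom.map_adjugate (MvPolynomial.eval p) (dimExt (c x) (Ug x))
      exact congrFun (congrFun h5 (f x)) (g x)
    have hMT : ∀ g, restrict M T g = (∏ x, (M x).det) * S g := by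
      intro g
      have h8 : (fun x => M x * (M x).adjugate) =
          fun x : Fin d => Matrix.diagonal (fun _ : Fin n => (M x).det) := by
        funext x
        rw [Matrix.mul_adjugate, ← Matrix.smul_one_eq_diagonal]
      rw [hTS, ← restrict_mul, h8, restrict_diagonal]
    refine ⟨fun x t => M x (c x t), ?_, ?_⟩
    · intro f hf
      have h1 := hMT (fun x => c x (f x))
      have h2 : S (fun x => c x (f x)) = 0 := by
        simp only [S, Sg]
        rw [dif_neg, map_zero]
        rw [not_not]
        exact Finset.mem_image_of_mem _ hf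
      rw [h2, mul_zero] at h1
      exact h1
    · intro f hf h0
      have h1 := hMT (fun x => c x (f x))
      have h2 : restrict M T (fun x => c x (f x)) = 0 := h0
      rw [h2] at h1
      apply hpb
      simp only [b]
      rw [map_mul, map_prod, map_prod]
      rcases mul_eq_zero.1 h1.symm with h3 | h3
      · rw [Finset.prod_eq_zero_iff] at h3
        obtain ⟨x, _, hx⟩ := h3
        rw [hdet x] at hx
        rw [Finset.prod_eq_zero (Finset.mem_univ x) hx, mul_zero]
      · rw [Finset.prod_eq_zero hf h3, zero_mul]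
  · right
    rw [algebraicIndependent_iff] at hind
    push Not at hind
    obtain ⟨P, hP0, hP⟩ := hind
    refine ⟨P, hP, ?_⟩
    rintro T hTP ⟨U, hU1, hU2, hT⟩
    apply hTP
    let M : ∀ _ : Fin d, Matrix (Fin n) (Fin n) ℂ := fun x => dimExt (c x) (U x)
    have hM : ∀ x, (M x).det ≠ 0 := fun x => dimExt_det (c x) (U x) (hU1 x) (hU2 x)
    let S : Tensor d n := restrict M T
    let δ : ℂ := ∏ x, ((M x).det)⁻¹
    let p : σ → ℂ := Sum.elim (fun y => U y.1 y.2.1.1 y.2.1.2) (fun g => δ * S g.1)
    have hS : ∀ g ∈ Λ', S g = 0 := by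
      intro g hg
      obtain ⟨f, hf, rfl⟩ := Finset.mem_image.mp hg
      have h3 := hT f hf
      have h4 : (fun x => M x (c x (f x))) = fun x => U x (f x) := by
        funext x
        exact dimExt_range (c x) (U x) (f x)
      show contract (fun x => M x (c x (f x))) T = 0
      rw [h4]; exact h3
    have hUg : ∀ x t j, (MvPolynomial.aeval p : MvPolynomial σ ℂ →ₐ[ℂ] ℂ) (Ug x t j) =
        U x t j := by
      intro x t j
      simp only [Ug]
      by_cases h : ∀ s ≤ t, j ≠ c x s
      · rw [dif_pos h, MvPolynomial.aeval_X]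
        rfl
      · rw [dif_neg h]
        by_cases hj : j = c x t
        · rw [if_pos hj, hj, hU1, map_one]
        · rw [if_neg hj, map_zero]
          push Not at h
          obtain ⟨s, hs, hjs⟩ := h
          have hst : s ≠ t := fun e => hj (e ▸ hjs)
          rw [hjs, hU2 x s t (lt_of_le_of_ne hs hst)]
    have hSg : ∀ g, (MvPolynomial.aeval p : MvPolynomial σ ℂ →ₐ[ℂ] ℂ) (Sg g) = δ * S g := by
      intro g
      simp only [Sg]
      by_cases h : g ∉ Λ'
      · rw [dif_pos h, MvPolynomial.aeval_X]
        rfl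
      · rw [dif_neg h, map_zero, hS g (not_not.mp h), mul_zero]
    have hadj : ∀ x i j, (MvPolynomial.aeval p : MvPolynomial σ ℂ →ₐ[ℂ] ℂ)
        ((dimExt (c x) (Ug x)).adjugate i j) = (M x).adjugate i j := by
      intro x i j
      have h5 := RingHom.map_adjugate
        (MvPolynomial.aeval p : MvPolynomial σ ℂ →ₐ[ℂ] ℂ).toRingHom (dimExt (c x) (Ug x))
      rw [dimExt_map _ (c x) (Ug x) (U x) (fun t j => hUg x t j)] at h5
      have h6 := congrFun (congrFun h5 i) j
      exact h6
    have hψ : ∀ f, (MvPolynomial.aeval p : MvPolynomial σ ℂ →ₐ[ℂ] ℂ) (ψ f) = T f := by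
      intro f
      simp only [ψ]
      rw [map_sum]
      simp_rw [map_mul, map_prod, hadj, hSg]
      have h7 : T = restrict (fun x => (M x)⁻¹) S := by
        have h8 : (fun x => (M x)⁻¹ * M x) = fun _ : Fin d => (1 : Matrix (Fin n) (Fin n) ℂ) := by
          funext x
          exact Matrix.nonsing_inv_mul _ (isUnit_iff_ne_zero.mpr (hM x))
        calc T = restrict (fun _ => 1) T := (restrict_one T).symm
          _ = restrict (fun x => (M x)⁻¹ * M x) T := by rw [h8]
          _ = _ := restrict_mul _ _ _
      conv_rhs => rw [h7]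
      unfold restrict contract
      refine Finset.sum_congr rfl fun g _ => ?_
      have h9 : ∏ x, (M x)⁻¹ (f x) (g x) = δ * ∏ x, (M x).adjugate (f x) (g x) := by
        simp only [δ]
        rw [← Finset.prod_mul_distrib]
        refine Finset.prod_congr rfl fun x _ => ?_
        rw [Matrix.inv_def, Matrix.smul_apply, Ring.inverse_eq_inv', smul_eq_mul]
      rw [h9]
      ring
    have hfin : MvPolynomial.eval T P =
        (MvPolynomial.aeval p : MvPolynomial σ ℂ →ₐ[ℂ] ℂ) (MvPolynomial.aeval ψ P) := by
      rw [MvPolynomial.comp_aeval_apply]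
      simp_rw [hψ]
      rw [MvPolynomial.aeval_eq_eval]
    rw [hfin, hP0, map_zero]

/-- for fixed combinatorial data, either the generic tensor has the zero pattern (with nonzero
diagonal) or the generic tensor does not -/
theorem generic_dichotomy {d n r : ℕ} (l : Fin d → (Fin r ≃ Fin r))
    (c : Fin d → (Fin r ↪ Fin n)) (Λ : Finset (Fin d → Fin r))
    (hΛ : ∀ i : Fin r, (fun _ => i) ∉ Λ) :
    (Generic fun T : Tensor d n => ∃ U : Fin d → Matrix (Fin r) (Fin n) ℂ,
      (∀ f ∈ Λ, contract (fun x => U x (f x)) T = 0) ∧ ∀ i, contract (fun x => U x i) T ≠ 0) ∨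
    (Generic fun T : Tensor d n => ¬ ∃ U : Fin d → Matrix (Fin r) (Fin n) ℂ,
      (∀ x t, U x (l x t) (c x t) = 1) ∧ (∀ x s t, s < t → U x (l x t) (c x s) = 0) ∧
      ∀ f ∈ Λ, contract (fun x => U x (f x)) T = 0) := by
  classical
  let e : (Fin d → Fin r) → (Fin d → Fin r) := fun f x => (l x).symm (f x)
  have he : Function.Injective e := by
    intro f g h
    funext x
    exact (l x).symm.injective (congrFun h x)
  rcases dich_core c (Λ.image e) (Finset.univ.image fun (i : Fin r) => e fun _ => i)
    (by
      intro f hf hf2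
      obtain ⟨i, _, rfl⟩ := Finset.mem_image.1 hf
      obtain ⟨g, hg, hgi⟩ := Finset.mem_image.1 hf2
      exact hΛ i (he hgi ▸ hg)) with h | h
  · left
    refine h.mono ?_
    rintro T ⟨V, h1, h2⟩
    refine ⟨fun x i => V x ((l x).symm i), ?_, ?_⟩
    · intro f hf
      exact h1 (e f) (Finset.mem_image_of_mem e hf)
    · intro i
      exact h2 (e fun _ => i) (Finset.mem_image_of_mem _ (Finset.mem_univ i))
  · right
    refine h.mono ?_
    rintro T hT ⟨U, h1, h2, h3⟩
    apply hT
    refine ⟨fun x t => U x (l x t), h1, h2, ?_⟩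
    intro f hf
    obtain ⟨g, hg, rfl⟩ := Finset.mem_image.1 hf
    have h4 := h3 g hg
    have h5 : (fun x => U x (l x (e g x))) = fun x => U x (g x) := by
      funext x
      simp [e]
    show contract (fun x => U x (l x (e g x))) T = 0
    rw [h5]
    exact h4

end Pool.Agent.BSub
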