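import Mathlib.Analysis.Complex.Basic
import Mathlib.Analysis.Normed.Group.Constructions
import Mathlib.LinearAlgebra.Matrix.Defs
import Mathlib.LinearAlgebra.LinearIndependent.Basic
import Mathlib.Data.Matrix.Mul
import Mathlib.Tactic.Linarith
import Mathlib.Tactic.FieldSimp
import Mathlib.Tactic.Ring

set_option autoImplicit false

namespace Pool.Agent.BSub

/-- one step of Gaussian elimination with pivot `(l, c)` (all rows are modified, row `l` and
column `c` become zero) -/
noncomputable def schurStep {r n : ℕ} (R : Matrix (Fin r) (Fin n) ℂ) (p : Fin r × Fin n) :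
    Matrix (Fin r) (Fin n) ℂ :=
  fun i j => R i j - R i p.2 * R p.1 j / R p.1 p.2

/-- the result of several elimination steps -/
noncomputable def schur {r n : ℕ} (A : Matrix (Fin r) (Fin n) ℂ) (p : List (Fin r × Fin n)) :
    Matrix (Fin r) (Fin n) ℂ :=
  p.foldl schurStep A

theorem schurStep_scale {r n : ℕ} (h : Fin r → ℂ) (hh : ∀ i, h i ≠ 0)
    (A : Matrix (Fin r) (Fin n) ℂ) (p : Fin r × Fin n) :
    schurStep (fun i j => h i * A i j) p = fun i j => h i * schurStep A p i j := by
  funext i j
  simp only [schurStep]
  by_cases h0 : A p.1 p.2 = 0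
  · simp [h0]
  · have := hh p.1
    field_simp

theorem schur_scale {r n : ℕ} (h : Fin r → ℂ) (hh : ∀ i, h i ≠ 0) (A : Matrix (Fin r) (Fin n) ℂ)
    (p : List (Fin r × Fin n)) (i : Fin r) (j : Fin n) :
    schur (fun i j => h i * A i j) p i j = h i * schur A p i j := by
  induction p generalizing A with
  | nil => rfl
  | cons q p ih =>
    have h1 : schur (fun i j => h i * A i j) (q :: p) =
        schur (fun i j => h i * schurStep A q i j) p := by
      show List.foldl schurStep (schurStep (fun i j => h i * A i j) q) p = _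
      rw [schurStep_scale h hh]
      rfl
    rw [h1]
    exact ih (schurStep A q)

/-- all pairs of residual rows are separated by the factor `ε` -/
def Separated {r n : ℕ} (ε : ℝ) (A : Matrix (Fin r) (Fin n) ℂ) : Prop :=
  ∀ p : List (Fin r × Fin n), p.length < r → ∀ l l', l ≠ l' →
    (fun j => schur A p l j) ≠ 0 → (fun j => schur A p l' j) ≠ 0 →
      ‖fun j => schur A p l j‖ < ε * ‖fun j => schur A p l' j‖ ∨
      ‖fun j => schur A p l' j‖ < ε * ‖fun j => schur A p l j‖

section
variable {r n : ℕ} (pick : Matrix (Fin r) (Fin n) ℂ → Fin r × Fin n)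
  (A : Matrix (Fin r) (Fin n) ℂ)

/-- residual matrices of the greedy elimination -/
noncomputable def elimR : ℕ → Matrix (Fin r) (Fin n) ℂ
  | 0 => A
  | t + 1 => schurStep (elimR t) (pick (elimR t))

theorem elimR_eq_schur (t : ℕ) :
    elimR pick A t = schur A ((List.range t).map fun s => pick (elimR pick A s)) := by
  induction t with
  | zero => rfl
  | succ t ih =>
    rw [List.range_succ, List.map_append]
    show schurStep (elimR pick A t) (pick (elimR pick A t)) = _
    simp only [schur, List.foldl_append, List.map_cons, List.map_nil, List.foldl_cons,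
      List.foldl_nil]
    have := ih
    simp only [schur] at this
    rw [← this]

theorem elimR_succ_apply (t : ℕ) (i : Fin r) (j : Fin n) :
    elimR pick A (t + 1) i j = elimR pick A t i j - elimR pick A t i (pick (elimR pick A t)).2 *
      elimR pick A t (pick (elimR pick A t)).1 j /
        elimR pick A t (pick (elimR pick A t)).1 (pick (elimR pick A t)).2 := rfl

theorem elimR_sum (k : ℕ) (i : Fin r) (j : Fin n) :
    A i j = ∑ t ∈ Finset.range k, elimR pick A t i (pick (elimR pick A t)).2 *
      elimR pick A t (pick (elimR pick A t)).1 j /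
        elimR pick A t (pick (elimR pick A t)).1 (pick (elimR pick A t)).2 +
      elimR pick A k i j := by
  induction k with
  | zero => simp [elimR]
  | succ k ih =>
    rw [Finset.sum_range_succ, elimR_succ_apply]
    rw [add_assoc]
    conv_lhs => rw [ih]
    ring

theorem elimR_row_zero {s t : ℕ} (hst : s ≤ t) (i : Fin r) (h : ∀ j, elimR pick A s i j = 0) :
    ∀ j, elimR pick A t i j = 0 := by
  induction t, hst using Nat.le_induction with
  | base => exact h
  | succ t _ ih =>
    intro j
    rw [elimR_succ_apply, ih, ih]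
    simp

theorem elimR_col_zero {s t : ℕ} (hst : s ≤ t) (j : Fin n) (h : ∀ i, elimR pick A s i j = 0) :
    ∀ i, elimR pick A t i j = 0 := by
  induction t, hst using Nat.le_induction with
  | base => exact h
  | succ t _ ih =>
    intro i
    rw [elimR_succ_apply, ih, ih]
    simp

theorem elimR_span (t : ℕ) (i : Fin r) :
    (fun j => elimR pick A t i j) - A i ∈
      Submodule.span ℂ ((fun i => A i) '' {l | ∃ s < t, l = (pick (elimR pick A s)).1}) := by
  induction t generalizing i with
  | zero =>
    have : (fun j => elimR pick A 0 i j) - A i = 0 := by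
      funext j
      simp [elimR]
    rw [this]
    exact Submodule.zero_mem _
  | succ t ih =>
    have hmono : ((fun i => A i) '' {l | ∃ s < t, l = (pick (elimR pick A s)).1}) ⊆
        ((fun i => A i) '' {l | ∃ s < t + 1, l = (pick (elimR pick A s)).1}) := by
      apply Set.image_mono
      rintro l ⟨s, hs, rfl⟩
      exact ⟨s, by omega, rfl⟩
    have h1 := Submodule.span_mono (R := ℂ) hmono (ih i)
    have h2 := Submodule.span_mono (R := ℂ) hmono (ih (pick (elimR pick A t)).1)
    have h3 : A (pick (elimR pick A t)).1 ∈ Submodule.span ℂ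
        ((fun i => A i) '' {l | ∃ s < t + 1, l = (pick (elimR pick A s)).1}) :=
      Submodule.subset_span ⟨_, ⟨t, by omega, rfl⟩, rfl⟩
    have h4 := Submodule.add_mem _ h2 h3
    rw [sub_add_cancel] at h4
    set a : ℂ := elimR pick A t i (pick (elimR pick A t)).2 /
        elimR pick A t (pick (elimR pick A t)).1 (pick (elimR pick A t)).2 with ha
    have h5 := Submodule.sub_mem _ h1 (Submodule.smul_mem _ a h4)
    convert h5 using 1
    funext j
    simp only [Pi.sub_apply, Pi.smul_apply, smul_eq_mul, elimR_succ_apply, ha]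
    ring

end

/-- greedy Gaussian elimination of a separated matrix -/
theorem exists_elimination {r n : ℕ} (A : Matrix (Fin r) (Fin n) ℂ)
    (hA : LinearIndependent ℂ (fun i => A i)) (ε : ℝ) (hε : 0 < ε) (hε1 : ε < 1)
    (hsep : Separated ε A) :
    ∃ (l : Fin r ≃ Fin r) (c : Fin r ↪ Fin n) (E : Matrix (Fin r) (Fin r) ℂ) (D : Fin r → ℂ)
      (U : Matrix (Fin r) (Fin n) ℂ),
      A = E * (Matrix.diagonal D * U) ∧ (∀ i, D i ≠ 0) ∧ (∀ i, E i i = 1) ∧
      (∀ i j, i ≠ j → ‖E i j‖ ≤ ε) ∧ (∀ i j, ‖U i j‖ ≤ 1) ∧ (∀ t, U (l t) (c t) = 1) ∧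
      (∀ s t, s < t → U (l t) (c s) = 0) := by
  classical
  rcases Nat.eq_zero_or_pos r with rfl | hr
  · refine ⟨Equiv.refl _, ⟨fun i => i.elim0, fun i => i.elim0⟩, 1, fun i => i.elim0,
      fun i => i.elim0, ?_, fun i => i.elim0, fun i => i.elim0, fun i => i.elim0,
      fun i => i.elim0, fun i => i.elim0, fun i => i.elim0⟩
    ext i
    exact i.elim0
  -- n is positive
  have hn : 0 < n := by
    rcases Nat.eq_zero_or_pos n with rfl | h
    · exfalso
      have := hA.ne_zero ⟨0, hr⟩
      apply this
      funext j
      exact j.elim0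
    · exact h
  have : Nonempty (Fin r × Fin n) := ⟨(⟨0, hr⟩, ⟨0, hn⟩)⟩
  have hpick : ∀ R : Matrix (Fin r) (Fin n) ℂ, ∃ p : Fin r × Fin n,
      ∀ q : Fin r × Fin n, ‖R q.1 q.2‖ ≤ ‖R p.1 p.2‖ := by
    intro R
    obtain ⟨p, hp⟩ := Finite.exists_max (fun q : Fin r × Fin n => ‖R q.1 q.2‖)
    exact ⟨p, hp⟩
  choose pick hmax using hpick
  set R := elimR pick A with hR
  set l : ℕ → Fin r := fun t => (pick (R t)).1 with hl
  set c : ℕ → Fin n := fun t => (pick (R t)).2 with hc
  have hle : ∀ t i j, ‖R t i j‖ ≤ ‖R t (l t) (c t)‖ := fun t i j => hmax (R t) (i, j)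
  -- pivots are nonzero
  have hpiv : ∀ t < r, R t (l t) (c t) ≠ 0 := by
    intro t ht h0
    have hall : ∀ i j, R t i j = 0 := by
      intro i j
      have := hle t i j
      rw [h0, norm_zero] at this
      exact norm_le_zero_iff.1 this
    -- an unused row
    obtain ⟨i, hi⟩ : ∃ i : Fin r, i ∉ (Finset.range t).image l := by
      by_contra hcon
      push Not at hcon
      have h1 : (Finset.univ : Finset (Fin r)) ⊆ (Finset.range t).image l := fun i _ => hcon i
      have h2 := (Finset.card_le_card h1).trans Finset.card_image_le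
      simp at h2
      omega
    have hspan := elimR_span pick A t i
    have hzero : (fun j => elimR pick A t i j) = 0 := by
      funext j
      exact hall i j
    rw [hzero, zero_sub] at hspan
    have hspan' := (Submodule.neg_mem_iff _).1 hspan
    refine hA.notMem_span_image (s := {l | ∃ s < t, l = (pick (elimR pick A s)).1}) ?_ hspan'
    rintro ⟨s, hs, hsi⟩
    apply hi
    rw [Finset.mem_image]
    exact ⟨s, Finset.mem_range.2 hs, hsi.symm⟩
  -- used rows and columns vanish
  have hrow : ∀ s t, s < t → s < r → ∀ j, R t (l s) j = 0 := by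
    intro s t hst hs
    apply elimR_row_zero pick A (s := s + 1) (by omega)
    intro j
    rw [elimR_succ_apply]
    have := hpiv s hs
    simp only [hR, hl, hc] at this
    field_simp
    ring
  have hcol : ∀ s t, s < t → s < r → ∀ i, R t i (c s) = 0 := by
    intro s t hst hs
    apply elimR_col_zero pick A (s := s + 1) (by omega)
    intro i
    rw [elimR_succ_apply]
    have := hpiv s hs
    simp only [hR, hl, hc] at this
    field_simp
    ring
  have hlinj : ∀ s t, s < t → t < r → l s ≠ l t := by
    intro s t hst ht h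
    have h1 := hrow s t hst (by omega) (c t)
    rw [h] at h1
    exact hpiv t ht h1
  have hcinj : ∀ s t, s < t → t < r → c s ≠ c t := by
    intro s t hst ht h
    have h1 := hcol s t hst (by omega) (l t)
    rw [h] at h1
    exact hpiv t ht h1
  have hlinj' : Function.Injective (fun t : Fin r => l t) := by
    intro s t hst
    by_contra hne
    rcases lt_or_gt_of_ne hne with h | h
    · exact hlinj s t h t.2 hst
    · exact hlinj t s h s.2 hst.symm
  have hcinj' : Function.Injective (fun t : Fin r => c t) := by
    intro s t hst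
    by_contra hne
    rcases lt_or_gt_of_ne hne with h | h
    · exact hcinj s t h t.2 hst
    · exact hcinj t s h s.2 hst.symm
  -- norms of rows
  have hnorm : ∀ t, ‖fun j => R t (l t) j‖ = ‖R t (l t) (c t)‖ := by
    intro t
    apply le_antisymm
    · exact (pi_norm_le_iff_of_nonneg (norm_nonneg _)).2 fun j => hle t _ _
    · exact norm_le_pi_norm (fun j => R t (l t) j) (c t)
  have hsmall : ∀ t < r, ∀ i, i ≠ l t → ‖R t i (c t)‖ ≤ ε * ‖R t (l t) (c t)‖ := by
    intro t ht i hi
    by_cases hz : (fun j => R t i j) = 0
    · have : R t i (c t) = 0 := congrFun hz (c t)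
      rw [this, norm_zero]
      positivity
    · have hz' : (fun j => R t (l t) j) ≠ 0 := fun h => hpiv t ht (congrFun h (c t))
      have hlen : ((List.range t).map fun s => pick (R s)).length < r := by
        simpa using ht
      have hs := hsep _ hlen i (l t) hi
      have he : schur A ((List.range t).map fun s => pick (R s)) = R t :=
        (elimR_eq_schur pick A t).symm
      rw [he] at hs
      have h1 : ‖fun j => R t i j‖ ≤ ‖fun j => R t (l t) j‖ := by
        rw [hnorm]
        exact (pi_norm_le_iff_of_nonneg (norm_nonneg _)).2 fun j => hle t _ _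
      have h2 : 0 < ‖fun j => R t (l t) j‖ := norm_pos_iff.2 hz'
      have h3 : ‖R t i (c t)‖ ≤ ‖fun j => R t i j‖ := norm_le_pi_norm (fun j => R t i j) (c t)
      rcases hs hz hz' with h | h
      · rw [← hnorm]
        exact h3.trans h.le
      · exfalso
        have : ε * ‖fun j => R t i j‖ ≤ ε * ‖fun j => R t (l t) j‖ :=
          mul_le_mul_of_nonneg_left h1 hε.le
        nlinarith
  -- the permutation
  set L : Fin r ≃ Fin r := Equiv.ofBijective (fun t : Fin r => l t)
    (Finite.injective_iff_bijective.1 hlinj') with hL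
  have hLt : ∀ t : Fin r, L t = l t := fun t => rfl
  have hRr : ∀ i j, R r i j = 0 := by
    intro i j
    obtain ⟨t, rfl⟩ := L.surjective i
    rw [hLt]
    exact hrow t r t.2 t.2 j
  refine ⟨L, ⟨fun t : Fin r => c t, hcinj'⟩,
    Matrix.of fun i i' => R (L.symm i').val i (c (L.symm i').val) /
      R (L.symm i').val (l (L.symm i').val) (c (L.symm i').val),
    fun i => R (L.symm i).val (l (L.symm i).val) (c (L.symm i).val),
    Matrix.of fun i j => R (L.symm i).val (l (L.symm i).val) j /
      R (L.symm i).val (l (L.symm i).val) (c (L.symm i).val), ?_, ?_, ?_, ?_, ?_, ?_, ?_⟩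
  · ext i j
    rw [Matrix.mul_apply]
    have hsum := elimR_sum pick A r i j
    have hz : elimR pick A r i j = 0 := hRr i j
    rw [hz, add_zero, ← Fin.sum_univ_eq_sum_range (fun t => elimR pick A t i
      (pick (elimR pick A t)).2 * elimR pick A t (pick (elimR pick A t)).1 j /
        elimR pick A t (pick (elimR pick A t)).1 (pick (elimR pick A t)).2)] at hsum
    rw [hsum]
    refine Eq.trans ?_ (Equiv.sum_comp L _)
    refine Finset.sum_congr rfl fun t _ => ?_
    have hp := hpiv t t.2
    rw [Matrix.diagonal_mul, Matrix.of_apply, Matrix.of_apply]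
    have hs : L.symm (L t) = t := Equiv.symm_apply_apply L t
    show R t i (c t) * R t (l t) j / R t (l t) (c t) =
      R (L.symm (L t)).val i (c (L.symm (L t)).val) /
        R (L.symm (L t)).val (l (L.symm (L t)).val) (c (L.symm (L t)).val) *
      (R (L.symm (L t)).val (l (L.symm (L t)).val) (c (L.symm (L t)).val) *
        (R (L.symm (L t)).val (l (L.symm (L t)).val) j /
          R (L.symm (L t)).val (l (L.symm (L t)).val) (c (L.symm (L t)).val)))
    rw [hs]
    field_simp
  · intro i
    exact hpiv _ (L.symm i).2
  · intro i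
    have h1 : l (L.symm i).val = i := by
      rw [← hLt, Equiv.apply_symm_apply]
    have hp := hpiv _ (L.symm i).2
    rw [h1] at hp
    show R (L.symm i).val i (c (L.symm i).val) /
      R (L.symm i).val (l (L.symm i).val) (c (L.symm i).val) = 1
    rw [h1]
    exact div_self hp
  · intro i i' hii
    have h1 : l (L.symm i').val = i' := by
      rw [← hLt, Equiv.apply_symm_apply]
    have hp := hpiv _ (L.symm i').2
    show ‖R (L.symm i').val i (c (L.symm i').val) /
      R (L.symm i').val (l (L.symm i').val) (c (L.symm i').val)‖ ≤ ε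
    rw [norm_div, div_le_iff₀ (norm_pos_iff.2 hp)]
    exact hsmall _ (L.symm i').2 i (by rw [h1]; exact hii)
  · intro i j
    have hp := hpiv _ (L.symm i).2
    show ‖R (L.symm i).val (l (L.symm i).val) j /
      R (L.symm i).val (l (L.symm i).val) (c (L.symm i).val)‖ ≤ 1
    rw [norm_div, div_le_one (norm_pos_iff.2 hp)]
    exact hle _ _ _
  · intro t
    have hp := hpiv t t.2
    show R (L.symm (L t)).val (l (L.symm (L t)).val) (c t) /
      R (L.symm (L t)).val (l (L.symm (L t)).val) (c (L.symm (L t)).val) = 1
    rw [Equiv.symm_apply_apply]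
    exact div_self hp
  · intro s t hst
    show R (L.symm (L t)).val (l (L.symm (L t)).val) (c s) /
      R (L.symm (L t)).val (l (L.symm (L t)).val) (c (L.symm (L t)).val) = 0
    rw [Equiv.symm_apply_apply, hcol s t hst s.2, zero_div]

end Pool.Agent.BSub
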