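import Mathlib
import Pool.Agent.Lib.MP_79bff1_ag.Zero

/-!
# The one-variable analytic bound `gBound d T a ≤ nu d * (d T) ^ (d - 1) * a`
-/

set_option autoImplicit false

namespace Pool.Agent.BSub

open MeasureTheory Set

lemma gnum_den_pos {d : ℕ} (hd : 2 ≤ d) {u : ℝ} (h0 : 0 ≤ u) : 1 ≤ 1 + ((d : ℝ) - 1) * u := by
  have hdR : (2 : ℝ) ≤ d := by exact_mod_cast hd
  have : 0 ≤ ((d : ℝ) - 1) * u := mul_nonneg (by linarith) h0
  linarith

lemma gnum_continuousOn {d : ℕ} (hd : 2 ≤ d) : ContinuousOn (nuFun d) (Icc 0 1) := by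
  unfold nuFun
  refine ContinuousOn.div (by fun_prop) (by fun_prop) ?_
  intro u hu
  have := gnum_den_pos hd hu.1
  linarith

lemma gnum_bdd {d : ℕ} (hd : 2 ≤ d) : BddAbove (nuFun d '' Icc 0 1) :=
  isCompact_Icc.bddAbove_image (gnum_continuousOn hd)

theorem nuFun_le_nu {d : ℕ} (hd : 2 ≤ d) {u : ℝ} (h0 : 0 ≤ u) (h1 : u ≤ 1) :
    nuFun d u ≤ nu d :=
  le_csSup (gnum_bdd hd) ⟨u, ⟨h0, h1⟩, rfl⟩

lemma gnum_zero {d : ℕ} (hd : 2 ≤ d) : nuFun d 0 = (1 / (d : ℝ)) ^ d := by
  unfold nuFun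
  have : (0 : ℝ) ^ d = 0 := zero_pow (by omega)
  rw [this]
  simp

theorem nu_pos {d : ℕ} (hd : 2 ≤ d) : 0 < nu d := by
  have hdR : (0 : ℝ) < d := by exact_mod_cast (by omega : 0 < d)
  have h := nuFun_le_nu hd le_rfl zero_le_one
  rw [gnum_zero hd] at h
  exact lt_of_lt_of_le (by positivity) h

theorem nu_three_le : nu 3 ≤ 0.11916 := by
  unfold nu
  refine csSup_le ⟨_, 0, ⟨le_rfl, zero_le_one⟩, rfl⟩ ?_
  rintro _ ⟨u, ⟨h0, h1⟩, rfl⟩
  unfold nuFun
  have hpos : 0 < 1 + (((3 : ℕ) : ℝ) - 1) * u := by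
    have := gnum_den_pos (d := 3) (by norm_num) h0
    linarith
  rw [div_le_iff₀ hpos]
  push_cast
  nlinarith [mul_nonneg h0 (sq_nonneg (u - 0.7815)), sq_nonneg (u - 0.7815)]

/-- Bernoulli type inequality. -/
lemma gnum_bern (a k : ℕ) : a ^ (k + 1) + (k + 1) * a ^ k ≤ (a + 1) ^ (k + 1) := by
  induction k with
  | zero => simp
  | succ k ih =>
    calc a ^ (k + 1 + 1) + (k + 1 + 1) * a ^ (k + 1)
        ≤ (a + 1) * (a ^ (k + 1) + (k + 1) * a ^ k) := by ring_nf; nlinarith [Nat.zero_le (a ^ k), Nat.zero_le (k * a ^ k)]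
      _ ≤ (a + 1) * (a + 1) ^ (k + 1) := Nat.mul_le_mul_left _ ih
      _ = (a + 1) ^ (k + 1 + 1) := by ring

lemma gnum_sum (a k : ℕ) : (k + 1) * ∑ i ∈ Finset.range a, i ^ k ≤ a ^ (k + 1) := by
  induction a with
  | zero => simp
  | succ a ih =>
    rw [Finset.sum_range_succ, mul_add]
    have := gnum_bern a k
    linarith

/-- The real profile. -/
noncomputable def gnumPhi (D T a : ℝ) (k : ℕ) (s : ℝ) : ℝ := (max 0 (min (D * (T - s)) (a - s))) ^ k

lemma gnum_anti {D T a : ℝ} {k : ℕ} (hD : 0 ≤ D) : Antitone (gnumPhi D T a k) := by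
  intro s t hst
  unfold gnumPhi
  refine pow_le_pow_left₀ (le_max_left _ _) ?_ k
  refine max_le_max le_rfl (min_le_min ?_ (by linarith))
  exact mul_le_mul_of_nonneg_left (by linarith) hD

lemma gnum_cont {D T a : ℝ} {k : ℕ} : Continuous (gnumPhi D T a k) := by
  unfold gnumPhi
  fun_prop

lemma gnum_sum_le {d T a k : ℕ} (hk : k = d - 1) :
    (gBound d T a : ℝ) ≤ ∫ s in (0 : ℝ)..(T : ℝ), gnumPhi d T a k s := by
  have h := (gnum_anti (D := (d : ℝ)) (T := T) (a := a) (k := k) (Nat.cast_nonneg d)).antitoneOn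
    (Icc (0 : ℝ) (0 + T)) |>.sum_le_integral
  rw [zero_add] at h
  refine le_trans (le_of_eq ?_) h
  unfold gBound
  push_cast
  refine Finset.sum_congr rfl fun j hj => ?_
  rw [Finset.mem_range] at hj
  unfold gnumPhi
  rw [← hk]
  congr 1
  have e1 : ((T - 1 - j : ℕ) : ℝ) = T - (0 + (j + 1)) := by
    rw [Nat.sub_sub, Nat.cast_sub (by omega)]
    push_cast
    ring
  rw [e1]
  by_cases hja : j + 1 ≤ a
  · have e2 : ((a - 1 - j : ℕ) : ℝ) = a - (0 + (j + 1)) := by
      rw [Nat.sub_sub, Nat.cast_sub (by omega)]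
      push_cast
      ring
    rw [e2, max_eq_right]
    refine le_min ?_ ?_
    · rw [← e1]; positivity
    · rw [← e2]; positivity
  · have e2 : (a - 1 - j : ℕ) = 0 := by omega
    rw [e2]
    push_cast
    have h3 : (a : ℝ) - (0 + (j + 1)) ≤ 0 := by
      have : (a : ℝ) ≤ j + 1 := by exact_mod_cast (by omega : a ≤ j + 1)
      linarith
    have h4 : (0 : ℝ) ≤ d * (T - (0 + (j + 1))) := by rw [← e1]; positivity
    rw [min_eq_right h4, max_eq_left]
    exact (min_le_right _ _).trans h3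

lemma gnum_int_pow (c x y : ℝ) (k : ℕ) :
    ∫ s in x..y, (c - s) ^ k = ((c - x) ^ (k + 1) - (c - y) ^ (k + 1)) / (k + 1) := by
  rw [intervalIntegral.integral_comp_sub_left (fun s => s ^ k) c, integral_pow]

theorem gBound_le {d T a : ℕ} (hd : 2 ≤ d) (ha : a ≤ d * T) :
    (gBound d T a : ℝ) ≤ nu d * ((d : ℝ) * T) ^ (d - 1) * a := by
  obtain ⟨k, rfl⟩ : ∃ k, d = k + 1 := ⟨d - 1, by omega⟩
  have hk : 1 ≤ k := by omega
  have hkR : (1 : ℝ) ≤ k := by exact_mod_cast hk
  rw [Nat.add_sub_cancel]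
  by_cases hT : T = 0
  · subst hT
    have : a = 0 := by omega
    subst this
    simp [gBound]
  have hT1 : 1 ≤ T := Nat.one_le_iff_ne_zero.2 hT
  have hTR : (0 : ℝ) < T := by exact_mod_cast hT1
  rcases lt_or_ge a T with haT | haT
  · -- few slots
    have h1 : gBound (k + 1) T a ≤ ∑ i ∈ Finset.range a, i ^ k := by
      unfold gBound
      rw [Nat.add_sub_cancel]
      have h2 : ∑ j ∈ Finset.range T, (min ((k + 1) * (T - 1 - j)) (a - 1 - j)) ^ k ≤
          ∑ j ∈ Finset.range T, (a - 1 - j) ^ k :=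
        Finset.sum_le_sum fun j _ => Nat.pow_le_pow_left (min_le_right _ _) k
      refine h2.trans ?_
      have h3 : ∑ j ∈ Finset.range T, (a - 1 - j) ^ k = ∑ j ∈ Finset.range a, (a - 1 - j) ^ k := by
        symm
        apply Finset.sum_subset
        · intro j hj
          rw [Finset.mem_range] at hj ⊢
          omega
        · intro j _ hj
          rw [Finset.mem_range] at hj
          have : a - 1 - j = 0 := by omega
          rw [this]
          exact zero_pow (by omega)
      rw [h3, Finset.sum_range_reflect (fun i => i ^ k) a]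
    have h2 := gnum_sum a k
    have h3 : ((k + 1 : ℕ) : ℝ) * (gBound (k + 1) T a : ℝ) ≤ (a : ℝ) ^ (k + 1) := by
      have : (k + 1) * gBound (k + 1) T a ≤ a ^ (k + 1) :=
        (Nat.mul_le_mul_left _ h1).trans h2
      exact_mod_cast this
    have h4 := nuFun_le_nu hd le_rfl zero_le_one
    rw [gnum_zero hd] at h4
    have hD : (0 : ℝ) < ((k + 1 : ℕ) : ℝ) := by positivity
    have h5 : (1 / ((k + 1 : ℕ) : ℝ)) ^ (k + 1) * (((k + 1 : ℕ) : ℝ) * T) ^ k * a =
        T ^ k * a / ((k + 1 : ℕ) : ℝ) := by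
      rw [mul_pow, pow_succ, div_pow, one_pow]
      field_simp
    have h6 : (gBound (k + 1) T a : ℝ) ≤ T ^ k * a / ((k + 1 : ℕ) : ℝ) := by
      rw [le_div_iff₀ hD, mul_comm]
      refine h3.trans ?_
      rw [pow_succ]
      refine mul_le_mul_of_nonneg_right ?_ (Nat.cast_nonneg a)
      exact pow_le_pow_left₀ (Nat.cast_nonneg a) (by exact_mod_cast haT.le) k
    refine h6.trans ?_
    rw [← h5]
    refine mul_le_mul_of_nonneg_right ?_ (Nat.cast_nonneg a)
    exact mul_le_mul_of_nonneg_right h4 (by positivity)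
  · -- main case
    have haTR : (T : ℝ) ≤ a := by exact_mod_cast haT
    have haR : (a : ℝ) ≤ (k + 1) * T := by exact_mod_cast ha
    set D : ℝ := ((k + 1 : ℕ) : ℝ) with hD
    have hDk : D = k + 1 := by rw [hD]; push_cast; ring
    have hD0 : 0 < D := by rw [hDk]; linarith
    have haP : (0 : ℝ) < a := lt_of_lt_of_le hTR haTR
    have hk0 : (0 : ℝ) < k := by linarith
    set s := (D * T - a) / k with hs
    have hs0 : 0 ≤ s := div_nonneg (by rw [hDk]; linarith) hk0.le
    have hsT : s ≤ T := by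
      rw [hs, div_le_iff₀ hk0, hDk]
      linarith
    have hTs : T - s = (a - T) / k := by
      rw [hs, hDk]
      field_simp
      ring
    have has : a - s = D * ((a - T) / k) := by
      rw [hs, hDk]
      field_simp
      ring
    set v : ℝ := (a - T) / k with hv
    have h1 := gnum_sum_le (d := k + 1) (T := T) (a := a) (k := k) rfl
    rw [← hD] at h1
    have hint : ∫ t in (0 : ℝ)..(T : ℝ), gnumPhi D T a k t =
        ((a : ℝ) ^ (k + 1) - (D * v) ^ (k + 1)) / (k + 1) + D ^ k * (v ^ (k + 1) / (k + 1)) := by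
      rw [← intervalIntegral.integral_add_adjacent_intervals (b := s)
        (gnum_cont.intervalIntegrable _ _) (gnum_cont.intervalIntegrable _ _)]
      congr 1
      · have e : ∫ t in (0 : ℝ)..s, gnumPhi D T a k t = ∫ t in (0 : ℝ)..s, ((a : ℝ) - t) ^ k := by
          apply intervalIntegral.integral_congr
          intro t ht
          rw [uIcc_of_le hs0] at ht
          simp only [gnumPhi]
          have h2 : (a : ℝ) - t ≤ D * (T - t) := by
            have h3 := ht.2
            rw [hs, le_div_iff₀ hk0] at h3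
            rw [hDk] at h3 ⊢
            linarith
          rw [min_eq_right h2, max_eq_right (by linarith [ht.2])]
        rw [e, gnum_int_pow, has, sub_zero]
      · have e : ∫ t in s..(T : ℝ), gnumPhi D T a k t =
            ∫ t in s..(T : ℝ), D ^ k * ((T : ℝ) - t) ^ k := by
          apply intervalIntegral.integral_congr
          intro t ht
          rw [uIcc_of_le hsT] at ht
          simp only [gnumPhi]
          have h2 : D * (T - t) ≤ (a : ℝ) - t := by
            have h3 := ht.1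
            rw [hs, div_le_iff₀ hk0] at h3
            rw [hDk] at h3 ⊢
            linarith
          rw [min_eq_left h2, max_eq_right (mul_nonneg hD0.le (by linarith [ht.2])), mul_pow]
        rw [e, intervalIntegral.integral_const_mul, gnum_int_pow, hTs, sub_self,
          zero_pow (by omega), sub_zero]
    rw [hint] at h1
    have hu0 : 0 ≤ v / T := div_nonneg (div_nonneg (by linarith) hk0.le) hTR.le
    have hu1 : v / T ≤ 1 := by
      rw [div_le_one hTR, hv, div_le_iff₀ hk0]
      linarith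
    have hmain := nuFun_le_nu (d := k + 1) hd hu0 hu1
    refine h1.trans ?_
    have hfun : nuFun (k + 1) (v / T) * (D * T) ^ k * a =
        ((a : ℝ) ^ (k + 1) - (D * v) ^ (k + 1)) / (k + 1) + D ^ k * (v ^ (k + 1) / (k + 1)) := by
      unfold nuFun
      rw [← hD]
      have e1 : 1 + (D - 1) * (v / T) = a / T := by
        rw [hDk, hv]
        field_simp
        ring
      rw [e1, ← hDk]
      have e2 : ((a : ℝ) / T / D) ^ (k + 1) = (a : ℝ) ^ (k + 1) / (T ^ (k + 1) * D ^ (k + 1)) := by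
        rw [div_pow, div_pow, div_div]
      have e3 : (v / T) ^ (k + 1) = v ^ (k + 1) / T ^ (k + 1) := div_pow _ _ _
      rw [e2, e3, mul_pow, mul_pow, pow_succ D k, pow_succ (T : ℝ) k]
      have hTk : (T : ℝ) ^ k ≠ 0 := pow_ne_zero _ hTR.ne'
      have hDk' : D ^ k ≠ 0 := pow_ne_zero _ hD0.ne'
      field_simp
      ring
    rw [← hfun]
    refine mul_le_mul_of_nonneg_right ?_ haP.le
    exact mul_le_mul_of_nonneg_right hmain (by positivity)

end Pool.Agent.BSub
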