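import Mathlib
import Pool.Agent.Lib.MP_79bff1_ag.Zero

set_option autoImplicit false

/-!
# A Hall type bound for the zero pattern
-/

namespace Pool.Agent.BSub

namespace Hall

/-- main elements: the head is in coordinate `x` and has type `x`, everything else is in lower
blocks -/
def mainSet (d T : ℕ) : Finset (Fin d → Fin T × Fin d) :=
  Finset.univ.filter fun f => ∃ x, (f x).2 = x ∧ ∀ y, y ≠ x → (f y).1 < (f x).1

/-- main elements of a box -/
def mainBox (d T : ℕ) (S : Fin d → Finset (Fin T × Fin d)) : Finset (Fin d → Fin T × Fin d) :=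
  (mainSet d T).filter fun f => ∀ x, f x ∈ S x

theorem supermod {ι κ : Type*} [Fintype ι] [DecidableEq ι] [DecidableEq κ] (M : Finset (ι → κ))
    (S S' : ι → Finset κ) :
    (M.filter fun f => ∀ x, f x ∈ S x).card + (M.filter fun f => ∀ x, f x ∈ S' x).card ≤
      (M.filter fun f => ∀ x, f x ∈ S x ∪ S' x).card +
      (M.filter fun f => ∀ x, f x ∈ S x ∩ S' x).card := by
  classical
  rw [← Finset.card_union_add_card_inter]
  refine add_le_add (Finset.card_le_card ?_) (Finset.card_le_card ?_)
  · intro f hf
    rw [Finset.mem_union, Finset.mem_filter, Finset.mem_filter] at hf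
    rw [Finset.mem_filter]
    rcases hf with hf | hf
    · exact ⟨hf.1, fun x => Finset.mem_union_left _ (hf.2 x)⟩
    · exact ⟨hf.1, fun x => Finset.mem_union_right _ (hf.2 x)⟩
  · intro f hf
    rw [Finset.mem_inter, Finset.mem_filter, Finset.mem_filter] at hf
    rw [Finset.mem_filter]
    exact ⟨hf.1.1, fun x => Finset.mem_inter.mpr ⟨hf.1.2 x, hf.2.2 x⟩⟩

/-- The one-variable bound. -/
theorem sum_pow_le_gBound {d T A : ℕ} (O : Finset (Fin T)) (a : Fin T → ℕ)
    (h1 : ∀ t ∈ O, a t ≤ d * t.val)
    (h2 : ∀ t ∈ O, a t + (O.filter fun t' => t ≤ t').card ≤ A) :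
    ∑ t ∈ O, a t ^ (d - 1) ≤ gBound d T A := by
  classical
  have hj : ∀ t ∈ O, (O.filter fun t' => t ≤ t').card = (O.filter fun t' => t < t').card + 1 := by
    intro t ht
    have : (O.filter fun t' => t ≤ t') = insert t (O.filter fun t' => t < t') := by
      ext t'
      simp only [Finset.mem_filter, Finset.mem_insert]
      constructor
      · rintro ⟨h, h'⟩
        rcases h'.eq_or_lt with h' | h'
        · exact Or.inl h'.symm
        · exact Or.inr ⟨h, h'⟩
      · rintro (h | h)
        · exact ⟨h ▸ ht, h.ge⟩
        · exact ⟨h.1, h.2.le⟩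
    rw [this, Finset.card_insert_of_notMem]
    simp
  have hjT : ∀ t : Fin T, (O.filter fun t' => t < t').card ≤ T - 1 - t.val := by
    intro t
    calc (O.filter fun t' => t < t').card ≤ (Finset.Ioi t).card :=
          Finset.card_le_card fun t' ht' => Finset.mem_Ioi.mpr (Finset.mem_filter.mp ht').2
      _ = T - 1 - t.val := by rw [Fin.card_Ioi]
  have hinj : Set.InjOn (fun t : Fin T => (O.filter fun t' => t < t').card) O := by
    intro t ht t' ht' h
    simp only at h
    by_contra hne
    wlog hlt : t < t' generalizing t t'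
    · exact this ht' ht h.symm (Ne.symm hne) (lt_of_le_of_ne (not_lt.mp hlt) (Ne.symm hne))
    have : (O.filter fun s => t' < s).card < (O.filter fun s => t < s).card := by
      apply Finset.card_lt_card
      refine ⟨fun s hs => ?_, fun hs => ?_⟩
      · rw [Finset.mem_filter] at hs ⊢
        exact ⟨hs.1, hlt.trans hs.2⟩
      · have := hs (Finset.mem_filter.mpr ⟨ht', hlt⟩)
        rw [Finset.mem_filter] at this
        exact lt_irrefl _ this.2
    omega
  calc ∑ t ∈ O, a t ^ (d - 1)
      ≤ ∑ t ∈ O, (min (d * (T - 1 - (O.filter fun t' => t < t').card))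
          (A - 1 - (O.filter fun t' => t < t').card)) ^ (d - 1) := by
        refine Finset.sum_le_sum fun t ht => Nat.pow_le_pow_left (le_min ?_ ?_) _
        · refine (h1 t ht).trans (Nat.mul_le_mul_left _ ?_)
          have := hjT t
          have := t.isLt
          omega
        · have h3 := h2 t ht
          rw [hj t ht] at h3
          omega
    _ = ∑ j ∈ O.image (fun t : Fin T => (O.filter fun t' => t < t').card),
          (min (d * (T - 1 - j)) (A - 1 - j)) ^ (d - 1) := by
        rw [Finset.sum_image hinj]
    _ ≤ gBound d T A := by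
        unfold gBound
        refine Finset.sum_le_sum_of_subset fun j hj => ?_
        rw [Finset.mem_image] at hj
        obtain ⟨t, ht, rfl⟩ := hj
        rw [Finset.mem_range]
        have := hjT t
        have := t.isLt
        omega

/-- Rotation of a box. -/
def rot {d T : ℕ} [NeZero d] (j : Fin d) (S : Fin d → Finset (Fin T × Fin d)) :
    Fin d → Finset (Fin T × Fin d) :=
  fun x => Finset.univ.filter fun p => (p.1, p.2 - j) ∈ S (x - j)

theorem mem_rot {d T : ℕ} [NeZero d] {j : Fin d} {S : Fin d → Finset (Fin T × Fin d)} {x : Fin d}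
    {p : Fin T × Fin d} : p ∈ rot j S x ↔ (p.1, p.2 - j) ∈ S (x - j) := by
  simp [rot]

theorem card_rot {d T : ℕ} [NeZero d] (j : Fin d) (S : Fin d → Finset (Fin T × Fin d)) :
    ∑ x, (rot j S x).card = ∑ x, (S x).card := by
  have h : ∀ x, (rot j S x).card = (S (x - j)).card := by
    intro x
    refine Finset.card_bij (fun p _ => (p.1, p.2 - j)) (fun p hp => mem_rot.mp hp) ?_ ?_
    · rintro ⟨t, s⟩ _ ⟨t', s'⟩ _ h
      simp only [Prod.mk.injEq, sub_left_inj] at h
      exact Prod.ext h.1 h.2
    · rintro ⟨t, s⟩ hp
      exact ⟨(t, s + j), mem_rot.mpr (by simpa using hp), by simp⟩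
  simp only [h]
  exact Fintype.sum_equiv (Equiv.subRight j) _ _ fun x => rfl

theorem mainBox_rot {d T : ℕ} [NeZero d] (j : Fin d) (S : Fin d → Finset (Fin T × Fin d)) :
    (mainBox d T S).card ≤ (mainBox d T (rot j S)).card := by
  refine Finset.card_le_card_of_injOn (fun f x => ((f (x - j)).1, (f (x - j)).2 + j)) ?_ ?_
  · intro f hf
    simp only [mainBox, mainSet, Finset.coe_filter, Finset.mem_filter, Finset.mem_univ, true_and,
      Set.mem_ofPred_eq] at hf ⊢
    obtain ⟨⟨x, hx1, hx2⟩, hS⟩ := hf
    refine ⟨⟨x + j, ?_, ?_⟩, ?_⟩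
    · rw [add_sub_cancel_right, hx1]
    · intro y hy
      rw [add_sub_cancel_right]
      refine hx2 (y - j) fun h => hy ?_
      rw [← h, sub_add_cancel]
    · intro y
      rw [mem_rot]
      simpa using hS (y - j)
  · intro f _ g _ h
    funext x
    have := congrFun h (x + j)
    simp only [add_sub_cancel_right, Prod.mk.injEq, add_left_inj] at this
    exact Prod.ext this.1 this.2

/-- The bound for a box that is invariant under rotation. -/
theorem main_invariant {d T : ℕ} [NeZero d] (C : ℕ)
    (hC : ∀ a, a ≤ d * T → gBound d T a ≤ C * a) (S : Fin d → Finset (Fin T × Fin d))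
    (hS : ∀ x p, p ∈ S x ↔ (p.1, p.2 - x) ∈ S 0) :
    (mainBox d T S).card ≤ C * ∑ x, (S x).card := by
  classical
  have hcard : ∀ x, (S 0).card ≤ (S x).card := by
    intro x
    refine Finset.card_le_card_of_injOn (fun p => (p.1, p.2 + x)) ?_ ?_
    · rintro ⟨t, s⟩ hp
      rw [Finset.mem_coe] at hp ⊢
      rw [hS]
      simpa using hp
    · rintro ⟨t, s⟩ _ ⟨t', s'⟩ _ h
      simp only [Prod.mk.injEq, add_left_inj] at h
      exact Prod.ext h.1 h.2
  let O : Finset (Fin T) := Finset.univ.filter fun t => (t, (0 : Fin d)) ∈ S 0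
  let a : Fin T → ℕ := fun t => ((S 0).filter fun p => p.1 < t).card
  have ha : ∀ x t, ((S x).filter fun p => p.1 < t).card ≤ a t := by
    intro x t
    refine Finset.card_le_card_of_injOn (fun p => (p.1, p.2 - x)) ?_ ?_
    · rintro ⟨t', s⟩ hp
      rw [Finset.mem_coe, Finset.mem_filter] at hp ⊢
      exact ⟨(hS x _).mp hp.1, hp.2⟩
    · rintro ⟨t, s⟩ _ ⟨t', s'⟩ _ h
      simp only [Prod.mk.injEq, sub_left_inj] at h
      exact Prod.ext h.1 h.2
  have hsub : mainBox d T S ⊆ (Finset.univ : Finset (Fin d)).biUnion fun x =>
      O.biUnion fun t => Fintype.piFinset fun y =>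
        if y = x then {(t, x)} else (S y).filter fun p => p.1 < t := by
    intro f hf
    simp only [mainBox, mainSet, Finset.mem_filter, Finset.mem_univ, true_and] at hf
    obtain ⟨⟨x, hx1, hx2⟩, hf⟩ := hf
    rw [Finset.mem_biUnion]
    refine ⟨x, Finset.mem_univ _, ?_⟩
    rw [Finset.mem_biUnion]
    refine ⟨(f x).1, ?_, ?_⟩
    · rw [Finset.mem_filter]
      refine ⟨Finset.mem_univ _, ?_⟩
      have := (hS x (f x)).mp (hf x)
      rwa [hx1, sub_self] at this
    · rw [Fintype.mem_piFinset]
      intro y
      by_cases hy : y = x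
      · rw [if_pos hy, Finset.mem_singleton, hy]
        exact Prod.ext rfl hx1
      · rw [if_neg hy, Finset.mem_filter]
        exact ⟨hf y, hx2 y hy⟩
  have hone : ∀ (x : Fin d) (t : Fin T), (Fintype.piFinset fun y =>
        if y = x then ({(t, x)} : Finset (Fin T × Fin d))
        else (S y).filter fun p => p.1 < t).card ≤ a t ^ (d - 1) := by
    intro x t
    rw [Fintype.card_piFinset, ← Finset.mul_prod_erase _ _ (Finset.mem_univ x), if_pos rfl,
      Finset.card_singleton, one_mul]
    calc ∏ y ∈ Finset.univ.erase x, (if y = x then ({(t, x)} : Finset (Fin T × Fin d))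
        else (S y).filter fun p => p.1 < t).card ≤ ∏ y ∈ Finset.univ.erase x, a t := by
          refine Finset.prod_le_prod' fun y hy => ?_
          rw [if_neg (Finset.ne_of_mem_erase hy)]
          exact ha y t
      _ = a t ^ (d - 1) := by
          rw [Finset.prod_const, Finset.card_erase_of_mem (Finset.mem_univ x), Finset.card_univ,
            Fintype.card_fin]
  have h1 : (mainBox d T S).card ≤ d * ∑ t ∈ O, a t ^ (d - 1) := by
    refine (Finset.card_le_card hsub).trans (Finset.card_biUnion_le.trans ?_)
    calc ∑ x : Fin d, (O.biUnion fun t => Fintype.piFinset fun y =>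
        if y = x then ({(t, x)} : Finset (Fin T × Fin d))
        else (S y).filter fun p => p.1 < t).card ≤ ∑ x : Fin d, ∑ t ∈ O, a t ^ (d - 1) := by
          refine Finset.sum_le_sum fun x _ => Finset.card_biUnion_le.trans ?_
          exact Finset.sum_le_sum fun t _ => hone x t
      _ = d * ∑ t ∈ O, a t ^ (d - 1) := by
          rw [Finset.sum_const, Finset.card_univ, Fintype.card_fin, smul_eq_mul]
  have h2 : ∑ t ∈ O, a t ^ (d - 1) ≤ gBound d T (S 0).card := by
    refine sum_pow_le_gBound O a ?_ ?_
    · intro t _
      calc a t ≤ ((Finset.univ.filter fun t' : Fin T => t' < t) ×ˢ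
              (Finset.univ : Finset (Fin d))).card := by
            refine Finset.card_le_card fun p hp => ?_
            rw [Finset.mem_filter] at hp
            simp [hp.2]
        _ = d * t.val := by
            rw [Finset.card_product, Finset.card_univ, Fintype.card_fin]
            have : (Finset.univ.filter fun t' : Fin T => t' < t) = Finset.Iio t := by
              ext t'
              simp
            rw [this, Fin.card_Iio, mul_comm]
    · intro t _
      have hdisj : Disjoint ((S 0).filter fun p => p.1 < t)
          ((O.filter fun t' => t ≤ t').image fun t' => (t', (0 : Fin d))) := by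
        rw [Finset.disjoint_left]
        rintro p hp hp'
        rw [Finset.mem_filter] at hp
        rw [Finset.mem_image] at hp'
        obtain ⟨t', ht', rfl⟩ := hp'
        rw [Finset.mem_filter] at ht'
        exact absurd hp.2 (not_lt.mpr ht'.2)
      have hi : ((O.filter fun t' => t ≤ t').image fun t' => (t', (0 : Fin d))).card =
          (O.filter fun t' => t ≤ t').card := by
        refine Finset.card_image_of_injective _ fun u v h => ?_
        simpa using h
      calc a t + (O.filter fun t' => t ≤ t').card =
          (((S 0).filter fun p => p.1 < t) ∪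
            ((O.filter fun t' => t ≤ t').image fun t' => (t', (0 : Fin d)))).card := by
            rw [Finset.card_union_of_disjoint hdisj, hi]
        _ ≤ (S 0).card := by
            refine Finset.card_le_card fun p hp => ?_
            rw [Finset.mem_union] at hp
            rcases hp with hp | hp
            · exact (Finset.mem_filter.mp hp).1
            · rw [Finset.mem_image] at hp
              obtain ⟨t', ht', rfl⟩ := hp
              rw [Finset.mem_filter, Finset.mem_filter] at ht'
              exact ht'.1.2
  have h3 : (S 0).card ≤ d * T := by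
    calc (S 0).card ≤ (Finset.univ : Finset (Fin T × Fin d)).card :=
          Finset.card_le_card (Finset.subset_univ _)
      _ = d * T := by
          rw [Finset.card_univ, Fintype.card_prod, Fintype.card_fin, Fintype.card_fin, mul_comm]
  calc (mainBox d T S).card ≤ d * ∑ t ∈ O, a t ^ (d - 1) := h1
    _ ≤ d * (C * (S 0).card) := Nat.mul_le_mul_left _ (h2.trans (hC _ h3))
    _ = C * ∑ _x : Fin d, (S 0).card := by
        rw [Finset.sum_const, Finset.card_univ, Fintype.card_fin, smul_eq_mul]
        ring
    _ ≤ C * ∑ x, (S x).card := Nat.mul_le_mul_left _ (Finset.sum_le_sum fun x _ => hcard x)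

/-- The Hall bound for main elements. -/
theorem main_bound {d T : ℕ} [NeZero d] (C : ℕ)
    (hC : ∀ a, a ≤ d * T → gBound d T a ≤ C * a) (S₀ : Fin d → Finset (Fin T × Fin d)) :
    (mainBox d T S₀).card ≤ C * ∑ x, (S₀ x).card := by
  classical
  let sz : (Fin d → Finset (Fin T × Fin d)) → ℕ := fun S => ∑ x, (S x).card
  let F : (Fin d → Finset (Fin T × Fin d)) → ℤ := fun S =>
    ((mainBox d T S).card : ℤ) - C * sz S
  have hsup : ∀ S S', F S + F S' ≤ F (fun x => S x ∪ S' x) + F (fun x => S x ∩ S' x) := by
    intro S S'
    have h1 : (mainBox d T S).card + (mainBox d T S').card ≤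
        (mainBox d T (fun x => S x ∪ S' x)).card + (mainBox d T (fun x => S x ∩ S' x)).card := by
      unfold mainBox
      convert supermod (mainSet d T) S S'
    have h2 : sz (fun x => S x ∪ S' x) + sz (fun x => S x ∩ S' x) = sz S + sz S' := by
      simp only [sz]
      rw [← Finset.sum_add_distrib, ← Finset.sum_add_distrib]
      exact Finset.sum_congr rfl fun x _ => Finset.card_union_add_card_inter _ _
    simp only [F]
    have h1' : ((mainBox d T S).card : ℤ) + (mainBox d T S').card ≤
        (mainBox d T (fun x => S x ∪ S' x)).card + (mainBox d T (fun x => S x ∩ S' x)).card := by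
      exact_mod_cast h1
    have h2' : (sz (fun x => S x ∪ S' x) : ℤ) + sz (fun x => S x ∩ S' x) = sz S + sz S' := by
      exact_mod_cast h2
    have h3 : (C : ℤ) * ((sz (fun x => S x ∪ S' x) : ℤ) + sz (fun x => S x ∩ S' x)) =
        C * (sz S + sz S') := by rw [h2']
    linarith
  have hrot : ∀ j S, F S ≤ F (rot j S) := by
    intro j S
    have h1 : ((mainBox d T S).card : ℤ) ≤ (mainBox d T (rot j S)).card := by
      exact_mod_cast mainBox_rot j S
    have h2 : sz (rot j S) = sz S := card_rot j S
    simp only [F, h2]
    linarith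
  obtain ⟨S₁, -, hS₁⟩ := Finset.exists_max_image Finset.univ F ⟨S₀, Finset.mem_univ _⟩
  obtain ⟨S, hS, hSmax⟩ := Finset.exists_max_image
    (Finset.univ.filter fun S => F S = F S₁) sz ⟨S₁, by simp⟩
  rw [Finset.mem_filter] at hS
  have hmax : ∀ S', F S' ≤ F S := fun S' => by
    rw [hS.2]
    exact hS₁ S' (Finset.mem_univ _)
  have hsubset : ∀ j x, rot j S x ⊆ S x := by
    intro j
    have h1 := hsup S (rot j S)
    have h2 := hrot j S
    have h3 := hmax (fun x => S x ∪ rot j S x)
    have h4 := hmax (fun x => S x ∩ rot j S x)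
    have h5 : F (fun x => S x ∪ rot j S x) = F S₁ := by
      rw [← hS.2]
      linarith
    have h6 := hSmax (fun x => S x ∪ rot j S x) (Finset.mem_filter.mpr ⟨Finset.mem_univ _, h5⟩)
    by_contra hcon
    push Not at hcon
    obtain ⟨x₀, hx₀⟩ := hcon
    have h7 : sz S < sz (fun x => S x ∪ rot j S x) := by
      refine Finset.sum_lt_sum (fun x _ => Finset.card_le_card Finset.subset_union_left)
        ⟨x₀, Finset.mem_univ _, Finset.card_lt_card ⟨Finset.subset_union_left, fun h => hx₀ ?_⟩⟩
      exact Finset.subset_union_right.trans h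
    omega
  have hinv : ∀ x p, p ∈ S x ↔ (p.1, p.2 - x) ∈ S 0 := by
    intro x p
    constructor
    · intro hp
      apply hsubset (-x) 0
      rw [mem_rot]
      simpa using hp
    · intro hp
      apply hsubset x x
      rw [mem_rot]
      simpa using hp
  have h1 := main_invariant C hC S hinv
  have h2 : F S ≤ 0 := by
    have : ((mainBox d T S).card : ℤ) ≤ C * sz S := by exact_mod_cast h1
    simp only [F]
    linarith
  have h3 := (hmax S₀).trans h2
  simp only [F] at h3
  have h4 : ((mainBox d T S₀).card : ℤ) ≤ C * sz S₀ := by linarith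
  exact_mod_cast h4

/-- The non-main elements. -/
theorem nonmain_bound {d n r : ℕ} (hd : 2 ≤ d) (S : Fin d → Finset (Fin n)) :
    (Finset.univ.filter fun f : Fin d → Fin n => (∀ x, (f x).val < r) ∧ (∀ x, f x ∈ S x) ∧
      ∃ x y, y ≠ x ∧ (f y).val / d = (f x).val / d).card ≤
      d ^ 2 * r ^ (d - 2) * ∑ x, (S x).card := by
  classical
  have hsub : (Finset.univ.filter fun f : Fin d → Fin n => (∀ x, (f x).val < r) ∧
      (∀ x, f x ∈ S x) ∧ ∃ x y, y ≠ x ∧ (f y).val / d = (f x).val / d) ⊆
      (Finset.univ : Finset (Fin d)).biUnion fun x => (S x).biUnion fun m =>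
        (Finset.univ.erase x).biUnion fun y => Fintype.piFinset fun z =>
          if z = x then {m} else if z = y then
            Finset.univ.filter fun l : Fin n => l.val / d = m.val / d
          else Finset.univ.filter fun l : Fin n => l.val < r := by
    intro f hf
    rw [Finset.mem_filter] at hf
    obtain ⟨-, hr, hS, x, y, hyx, hxy⟩ := hf
    rw [Finset.mem_biUnion]
    refine ⟨x, Finset.mem_univ _, ?_⟩
    rw [Finset.mem_biUnion]
    refine ⟨f x, hS x, ?_⟩
    rw [Finset.mem_biUnion]
    refine ⟨y, Finset.mem_erase.mpr ⟨hyx, Finset.mem_univ _⟩, ?_⟩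
    rw [Fintype.mem_piFinset]
    intro z
    by_cases hz : z = x
    · rw [if_pos hz, hz, Finset.mem_singleton]
    · rw [if_neg hz]
      by_cases hz' : z = y
      · rw [if_pos hz', hz', Finset.mem_filter]
        exact ⟨Finset.mem_univ _, hxy⟩
      · rw [if_neg hz', Finset.mem_filter]
        exact ⟨Finset.mem_univ _, hr z⟩
  have hblock : ∀ m : Fin n, (Finset.univ.filter fun l : Fin n => l.val / d = m.val / d).card ≤ d := by
    intro m
    calc (Finset.univ.filter fun l : Fin n => l.val / d = m.val / d).card ≤
        (Finset.range d).card := by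
          refine Finset.card_le_card_of_injOn (fun l => l.val % d) ?_ ?_
          · intro l _
            simp only [Finset.coe_range, Set.mem_Iio]
            exact Nat.mod_lt _ (by omega)
          · intro l hl l' hl' h
            simp only [Finset.coe_filter, Finset.mem_univ, true_and, Set.mem_ofPred_eq] at hl hl' h
            apply Fin.ext
            rw [← Nat.div_add_mod l.val d, ← Nat.div_add_mod l'.val d, hl, hl', h]
      _ = d := Finset.card_range d
  have hlow : (Finset.univ.filter fun l : Fin n => l.val < r).card ≤ r := by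
    calc (Finset.univ.filter fun l : Fin n => l.val < r).card ≤ (Finset.range r).card := by
          refine Finset.card_le_card_of_injOn (fun l => l.val) ?_ ?_
          · intro l hl
            simp only [Finset.coe_filter, Finset.mem_univ, true_and, Set.mem_ofPred_eq] at hl
            simpa using hl
          · intro l _ l' _ h
            exact Fin.ext h
      _ = r := Finset.card_range r
  have hone : ∀ (x : Fin d) (m : Fin n), ∀ y ∈ Finset.univ.erase x,
      (Fintype.piFinset fun z => if z = x then ({m} : Finset (Fin n)) else if z = y then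
            Finset.univ.filter fun l : Fin n => l.val / d = m.val / d
          else Finset.univ.filter fun l : Fin n => l.val < r).card ≤ d * r ^ (d - 2) := by
    intro x m y hy
    have hyx : y ≠ x := Finset.ne_of_mem_erase hy
    rw [Fintype.card_piFinset, ← Finset.mul_prod_erase _ _ (Finset.mem_univ x), if_pos rfl,
      Finset.card_singleton, one_mul, ← Finset.mul_prod_erase _ _ hy, if_neg hyx, if_pos rfl]
    refine Nat.mul_le_mul (hblock m) ?_
    calc ∏ z ∈ (Finset.univ.erase x).erase y, (if z = x then ({m} : Finset (Fin n)) else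
          if z = y then Finset.univ.filter fun l : Fin n => l.val / d = m.val / d
          else Finset.univ.filter fun l : Fin n => l.val < r).card
        ≤ ∏ z ∈ (Finset.univ.erase x).erase y, r := by
          refine Finset.prod_le_prod' fun z hz => ?_
          rw [Finset.mem_erase, Finset.mem_erase] at hz
          rw [if_neg hz.2.1, if_neg hz.1]
          exact hlow
      _ = r ^ (d - 2) := by
          rw [Finset.prod_const, Finset.card_erase_of_mem hy,
            Finset.card_erase_of_mem (Finset.mem_univ x), Finset.card_univ, Fintype.card_fin]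
          rfl
  refine (Finset.card_le_card hsub).trans (Finset.card_biUnion_le.trans ?_)
  rw [Finset.mul_sum]
  refine Finset.sum_le_sum fun x _ => Finset.card_biUnion_le.trans ?_
  rw [mul_comm, ← smul_eq_mul, ← Finset.sum_const]
  refine Finset.sum_le_sum fun m _ => Finset.card_biUnion_le.trans ?_
  calc ∑ y ∈ Finset.univ.erase x, (Fintype.piFinset fun z => if z = x then
          ({m} : Finset (Fin n)) else if z = y then
            Finset.univ.filter fun l : Fin n => l.val / d = m.val / d
          else Finset.univ.filter fun l : Fin n => l.val < r).card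
      ≤ ∑ y ∈ Finset.univ.erase x, d * r ^ (d - 2) := Finset.sum_le_sum fun y hy => hone x m y hy
    _ = (d - 1) * (d * r ^ (d - 2)) := by
        rw [Finset.sum_const, Finset.card_erase_of_mem (Finset.mem_univ x), Finset.card_univ,
          Fintype.card_fin, smul_eq_mul]
    _ ≤ d * (d * r ^ (d - 2)) := Nat.mul_le_mul_right _ (Nat.sub_le d 1)
    _ = d ^ 2 * r ^ (d - 2) := by ring

end Hall

open Hall in
theorem hall_bound {d n T : ℕ} (hd : 2 ≤ d) (hT : d * T ≤ n) (C : ℕ)
    (hC : ∀ a, a ≤ d * T → gBound d T a ≤ C * a) (S : Fin d → Finset (Fin n)) :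
    ((zeroSet d n (d * T)).filter fun f => ∀ x, f x ∈ S x).card ≤
      (C + d ^ 2 * (d * T) ^ (d - 2)) * ∑ x, (S x).card := by
  classical
  have : NeZero d := ⟨by omega⟩
  have hlab : ∀ p : Fin T × Fin d, d * p.1.val + p.2.val < n := by
    rintro ⟨⟨t, ht⟩, ⟨s, hs⟩⟩
    simp only
    have : d * t + d ≤ d * T := by
      rw [← Nat.mul_succ]
      exact Nat.mul_le_mul_left _ ht
    omega
  let lab : Fin T × Fin d → Fin n := fun p => ⟨d * p.1.val + p.2.val, hlab p⟩
  have hlabinj : Function.Injective lab := by
    rintro ⟨t, s⟩ ⟨t', s'⟩ h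
    have h1 : d * t.val + s.val = d * t'.val + s'.val := congrArg Fin.val h
    have hd0 : 0 < d := by omega
    have h2 : t.val = t'.val := by
      have := congrArg (· / d) h1
      simp only [Nat.mul_add_div hd0, Nat.div_eq_of_lt s.isLt, Nat.div_eq_of_lt s'.isLt] at this
      simpa using this
    have h3 : s.val = s'.val := by
      rw [h2] at h1
      omega
    exact Prod.ext (Fin.ext h2) (Fin.ext h3)
  let S' : Fin d → Finset (Fin T × Fin d) := fun x => Finset.univ.filter fun p => lab p ∈ S x
  have hS' : ∀ x, (S' x).card ≤ (S x).card := by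
    intro x
    refine Finset.card_le_card_of_injOn lab ?_ hlabinj.injOn
    intro p hp
    simpa [S'] using hp
  have hsub : ((zeroSet d n (d * T)).filter fun f => ∀ x, f x ∈ S x) ⊆
      ((mainBox d T S').image fun f x => lab (f x)) ∪
      (Finset.univ.filter fun f : Fin d → Fin n => (∀ x, (f x).val < d * T) ∧
        (∀ x, f x ∈ S x) ∧ ∃ x y, y ≠ x ∧ (f y).val / d = (f x).val / d) := by
    intro f hf
    rw [Finset.mem_filter, zeroSet, Finset.mem_filter] at hf
    obtain ⟨⟨-, hr, -, x, hx1, hx2⟩, hS⟩ := hf
    rw [Finset.mem_union]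
    by_cases hmain : ∃ x y, y ≠ x ∧ (f y).val / d = (f x).val / d
    · right
      rw [Finset.mem_filter]
      exact ⟨Finset.mem_univ _, hr, hS, hmain⟩
    · left
      push Not at hmain
      rw [Finset.mem_image]
      have hdiv : ∀ y, (f y).val / d < T := fun y => by
        have := hr y
        exact Nat.div_lt_of_lt_mul this
      have hmod : ∀ y, (f y).val % d < d := fun y => Nat.mod_lt _ (by omega)
      have hl : ∀ y, lab (⟨(f y).val / d, hdiv y⟩, ⟨(f y).val % d, hmod y⟩) = f y := by
        intro y
        apply Fin.ext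
        exact Nat.div_add_mod _ _
      refine ⟨fun y => (⟨(f y).val / d, hdiv y⟩, ⟨(f y).val % d, hmod y⟩), ?_, funext hl⟩
      rw [mainBox, mainSet, Finset.mem_filter, Finset.mem_filter]
      refine ⟨⟨Finset.mem_univ _, x, Fin.ext hx2, fun y hy => ?_⟩, fun y => ?_⟩
      · have h1 : (f y).val / d ≤ (f x).val / d := Nat.div_le_div_right (hx1 y)
        have h2 := hmain x y hy
        exact Fin.mk_lt_mk.mpr (lt_of_le_of_ne h1 h2)
      · rw [Finset.mem_filter, hl]
        exact ⟨Finset.mem_univ _, hS y⟩
  have h1 := main_bound C hC S'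
  have h2 := nonmain_bound (r := d * T) hd S
  calc ((zeroSet d n (d * T)).filter fun f => ∀ x, f x ∈ S x).card
      ≤ _ := Finset.card_le_card hsub
    _ ≤ _ := Finset.card_union_le _ _
    _ ≤ C * ∑ x, (S x).card + d ^ 2 * (d * T) ^ (d - 2) * ∑ x, (S x).card := by
        refine add_le_add (Finset.card_image_le.trans (h1.trans ?_)) h2
        exact Nat.mul_le_mul_left _ (Finset.sum_le_sum fun x _ => hS' x)
    _ = _ := by ring

end Pool.Agent.BSub
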