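import Mathlib.Algebra.BigOperators.Group.Finset.Basic
import Mathlib.Algebra.Order.Archimedean.Real.Basic
import Mathlib.Data.Fintype.Pi
import Pool.Agent.Lib.MP_79bff1_ag.Defs

set_option autoImplicit false

namespace Pool.Agent.BSub

/-- a system of real weights: `w x l` is the weight of the label `l` in the factor `x`, and the
weights of each label sum to zero -/
def ZeroSum {d r : ℕ} (w : Fin d → Fin r → ℝ) : Prop := ∀ l, ∑ x, w x l = 0

open Classical in
/-- the nonconstant elements of nonpositive weight in the box `B` -/
noncomputable def wSet {d r : ℕ} (w : Fin d → Fin r → ℝ) (B : Fin d → Finset (Fin r)) :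
    Finset (Fin d → Fin r) :=
  (Fintype.piFinset B).filter fun f => (¬ ∀ x y, f x = f y) ∧ ∑ x, w x (f x) ≤ 0

/-- some system of weights has at most `C` elements of nonpositive weight per slot in every box -/
def Feasible (d r C : ℕ) : Prop :=
  ∃ w : Fin d → Fin r → ℝ, ZeroSum w ∧
    ∀ B : Fin d → Finset (Fin r), (wSet w B).card ≤ C * ∑ x, (B x).card

/-- the least `C` with `Feasible d r C`: a minimum over weight systems of a maximum over boxes -/
noncomputable def kap (d r : ℕ) : ℕ := sInf {C : ℕ | Feasible d r C}

/-- the generic border subrank of tensors in the `d`-fold tensor power of `ℂ ^ n` -/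
noncomputable def genBorderSubrank (d n : ℕ) : ℕ :=
  sSup {q : ℕ | Generic fun T : Tensor d n => Degenerates T (unitTensor d q)}

end Pool.Agent.BSub
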