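import Mathlib
import Pool.Agent.Lib.MP_79bff1_ag.WDefs
import Pool.Agent.Lib.MP_79bff1_ag.Hall
import Pool.Agent.Lib.MP_79bff1_ag.Degen
import Pool.Agent.Lib.MP_79bff1_ag.GNum
import Pool.Agent.Lib.MP_79bff1_ag.Count

set_option autoImplicit false

namespace Pool.Agent.BSub

/-! Auxiliary lemmas for the module `Kap` start with `kp`. -/

lemma kp_mem_wSet {d r : ℕ} {w : Fin d → Fin r → ℝ} {B : Fin d → Finset (Fin r)}
    {f : Fin d → Fin r} :
    f ∈ wSet w B ↔ (∀ x, f x ∈ B x) ∧ (¬ ∀ x y, f x = f y) ∧ ∑ x, w x (f x) ≤ 0 := by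
  unfold wSet
  rw [Finset.mem_filter, Fintype.mem_piFinset]

/-- the counting lemma for zero-sum weights -/
lemma kp_count {d r : ℕ} (hd : 2 ≤ d) (w : Fin d → Fin r → ℝ) (hw : ZeroSum w) :
    ∑ k ∈ Finset.range r, ((k + 1) ^ (d - 1) - 1) ≤ (wSet w fun _ => Finset.univ).card := by
  classical
  refine (count_nonneg hd (fun x l => Real.exp (-w x l)) (fun x l => Real.exp_pos _) 1
    one_pos (fun l => ?_)).trans (Finset.card_le_card ?_)
  · rw [← Real.exp_sum, Finset.sum_neg_distrib, hw l, neg_zero, Real.exp_zero]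
  · intro f hf
    rw [Finset.mem_filter] at hf
    rw [kp_mem_wSet]
    refine ⟨fun x => Finset.mem_univ _, hf.2.1, ?_⟩
    have h := hf.2.2
    rw [← Real.exp_sum, Finset.sum_neg_distrib, ← Real.exp_zero, Real.exp_le_exp] at h
    linarith

lemma kp_up {d r C C' : ℕ} (h : Feasible d r C) (hC : C ≤ C') : Feasible d r C' := by
  obtain ⟨w, hw, hB⟩ := h
  exact ⟨w, hw, fun B => (hB B).trans (Nat.mul_le_mul_right _ hC)⟩

lemma kp_exists {d r : ℕ} (hd : 1 ≤ d) : Feasible d r (r ^ (d - 1)) := by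
  obtain ⟨k, rfl⟩ : ∃ k, d = k + 1 := ⟨d - 1, by omega⟩
  refine ⟨fun _ _ => 0, fun l => by simp, fun B => ?_⟩
  have h1 : (wSet (fun (_ : Fin (k + 1)) (_ : Fin r) => (0 : ℝ)) B).card ≤
      (Fintype.piFinset B).card := by
    unfold wSet
    exact Finset.card_filter_le _ _
  refine h1.trans ?_
  rw [Fintype.card_piFinset, Fin.prod_univ_succ, Fin.sum_univ_succ, Nat.add_sub_cancel, mul_comm]
  have h2 : ∏ i : Fin k, (B i.succ).card ≤ r ^ k := by
    calc ∏ i : Fin k, (B i.succ).card ≤ ∏ _i : Fin k, r :=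
          Finset.prod_le_prod' (fun i _ => by
            simpa using Finset.card_le_univ (B i.succ))
      _ = r ^ k := by simp
  exact Nat.mul_le_mul h2 (Nat.le_add_right _ _)

lemma kp_feasible {d r : ℕ} (hd : 1 ≤ d) : Feasible d r (kap d r) :=
  Nat.sInf_mem (s := {C : ℕ | Feasible d r C}) ⟨_, kp_exists hd⟩

theorem feasible_iff {d r C : ℕ} (hd : 1 ≤ d) : Feasible d r C ↔ kap d r ≤ C :=
  ⟨fun h => Nat.sInf_le h, fun h => kp_up (kp_feasible hd) h⟩

theorem kap_mono {d r r' : ℕ} (hd : 1 ≤ d) (h : r ≤ r') : kap d r ≤ kap d r' := by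
  rw [← feasible_iff hd]
  obtain ⟨w, hw, hB⟩ := kp_feasible (r := r') hd
  refine ⟨fun x l => w x (Fin.castLE h l), fun l => hw _, fun B => ?_⟩
  have h1 := hB (fun x => (B x).map (Fin.castLEEmb h))
  simp only [Finset.card_map] at h1
  refine le_trans ?_ h1
  refine Finset.card_le_card_of_injOn (fun f x => Fin.castLE h (f x)) ?_ ?_
  · intro f hf
    rw [Finset.mem_coe, kp_mem_wSet] at hf
    rw [Finset.mem_coe, kp_mem_wSet]
    refine ⟨fun x => ?_, fun hc => hf.2.1 (fun x y => ?_), hf.2.2⟩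
    · rw [Finset.mem_map]
      exact ⟨f x, hf.1 x, rfl⟩
    · exact Fin.castLE_injective h (hc x y)
  · intro f _ g _ hfg
    funext x
    exact Fin.castLE_injective h (congrFun hfg x)

/-- the slice of a box in the label group `s` -/
def kpB {m r d : ℕ} (B' : Fin d → Finset (Fin (m * r))) (x : Fin d) (s : Fin m) : Finset (Fin r) :=
  Finset.univ.filter fun l => finProdFinEquiv (s, l) ∈ B' x

lemma kp_sum_slices {m r d : ℕ} (B' : Fin d → Finset (Fin (m * r))) (x : Fin d) :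
    ∑ s : Fin m, (kpB B' x s).card = (B' x).card := by
  have h1 : (B' x).card = ∑ i : Fin (m * r), if i ∈ B' x then 1 else 0 := by simp
  rw [h1, ← Equiv.sum_comp finProdFinEquiv, Fintype.sum_prod_type]
  refine Finset.sum_congr rfl (fun s _ => ?_)
  unfold kpB
  rw [Finset.card_filter]

lemma kp_sum_pi {m k : ℕ} (x : Fin (k + 1)) (φ : Fin m → ℕ) :
    ∑ s : Fin (k + 1) → Fin m, φ (s x) = m ^ k * ∑ j, φ j := by
  rw [← Equiv.sum_comp (Fin.insertNthEquiv (fun _ => Fin m) x), Fintype.sum_prod_type,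
    Finset.mul_sum]
  refine Finset.sum_congr rfl (fun j _ => ?_)
  simp

theorem kap_mul {d : ℕ} (hd : 2 ≤ d) (m r : ℕ) (hm : 1 ≤ m) :
    kap d (m * r) ≤ m ^ (d - 1) * (kap d r + 1) := by
  classical
  obtain ⟨k, rfl⟩ : ∃ k, d = k + 1 := ⟨d - 1, by omega⟩
  rw [Nat.add_sub_cancel, ← feasible_iff (by omega)]
  obtain ⟨w, hw, hB⟩ := kp_feasible (r := r) (d := k + 1) (by omega)
  refine ⟨fun x i => w x (finProdFinEquiv.symm i).2, fun i => hw _, fun B' => ?_⟩
  set W := wSet (fun (x : Fin (k + 1)) (i : Fin (m * r)) => w x (finProdFinEquiv.symm i).2) B'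
    with hWd
  have hfib : ∀ s : Fin (k + 1) → Fin m,
      (W.filter (fun f => (fun x => (finProdFinEquiv.symm (f x)).1) = s)).card ≤
        (kap (k + 1) r + 1) * ∑ x, (kpB B' x (s x)).card := by
    intro s
    have h1 : (W.filter (fun f => (fun x => (finProdFinEquiv.symm (f x)).1) = s)).card ≤
        (wSet w (fun x => kpB B' x (s x)) ∪
          (kpB B' 0 (s 0)).image (fun l => (fun _ : Fin (k + 1) => l))).card := by
      refine Finset.card_le_card_of_injOn (fun f x => (finProdFinEquiv.symm (f x)).2) ?_ ?_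
      · intro f hf
        rw [Finset.mem_coe, Finset.mem_filter, hWd, kp_mem_wSet] at hf
        obtain ⟨⟨hf1, hf2, hf3⟩, hf4⟩ := hf
        have hmem : ∀ x, (finProdFinEquiv.symm (f x)).2 ∈ kpB B' x (s x) := by
          intro x
          unfold kpB
          rw [Finset.mem_filter]
          refine ⟨Finset.mem_univ _, ?_⟩
          have h2 : s x = (finProdFinEquiv.symm (f x)).1 := (congrFun hf4 x).symm
          rw [h2, Prod.mk.eta, Equiv.apply_symm_apply]
          exact hf1 x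
        rw [Finset.mem_coe, Finset.mem_union]
        by_cases hc : ∀ x y : Fin (k + 1),
            (finProdFinEquiv.symm (f x)).2 = (finProdFinEquiv.symm (f y)).2
        · right
          rw [Finset.mem_image]
          exact ⟨_, hmem 0, funext fun x => hc 0 x⟩
        · left
          rw [kp_mem_wSet]
          exact ⟨hmem, hc, hf3⟩
      · intro f hf g hg hfg
        rw [Finset.mem_coe, Finset.mem_filter] at hf hg
        funext x
        apply finProdFinEquiv.symm.injective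
        refine Prod.ext ?_ (congrFun hfg x)
        rw [congrFun hf.2 x, congrFun hg.2 x]
    refine h1.trans ((Finset.card_union_le _ _).trans ?_)
    have h2 := hB (fun x => kpB B' x (s x))
    have h3 : ((kpB B' 0 (s 0)).image (fun l => (fun _ : Fin (k + 1) => l))).card ≤
        ∑ x, (kpB B' x (s x)).card := by
      refine Finset.card_image_le.trans ?_
      exact Finset.single_le_sum (f := fun x => (kpB B' x (s x)).card)
        (fun _ _ => Nat.zero_le _) (Finset.mem_univ (0 : Fin (k + 1)))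
    rw [add_mul, one_mul]
    exact Nat.add_le_add h2 h3
  have hcard : W.card = ∑ s : Fin (k + 1) → Fin m,
      (W.filter (fun f => (fun x => (finProdFinEquiv.symm (f x)).1) = s)).card :=
    Finset.card_eq_sum_card_fiberwise (fun _ _ => Finset.mem_coe.2 (Finset.mem_univ _))
  rw [hcard]
  calc ∑ s : Fin (k + 1) → Fin m,
        (W.filter (fun f => (fun x => (finProdFinEquiv.symm (f x)).1) = s)).card
      ≤ ∑ s : Fin (k + 1) → Fin m, (kap (k + 1) r + 1) * ∑ x, (kpB B' x (s x)).card :=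
        Finset.sum_le_sum (fun s _ => hfib s)
    _ = (kap (k + 1) r + 1) * ∑ x, ∑ s : Fin (k + 1) → Fin m, (kpB B' x (s x)).card := by
        rw [← Finset.mul_sum, Finset.sum_comm]
    _ = (kap (k + 1) r + 1) * ∑ x, m ^ k * (B' x).card := by
        congr 1
        refine Finset.sum_congr rfl (fun x _ => ?_)
        rw [kp_sum_pi x (fun j => (kpB B' x j).card), kp_sum_slices]
    _ = m ^ k * (kap (k + 1) r + 1) * ∑ x, (B' x).card := by
        rw [← Finset.mul_sum]; ring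

lemma kp_pow_le (r k : ℕ) : (r + 1) ^ (k + 1) ≤ r ^ (k + 1) + (k + 1) * (r + 1) ^ k := by
  induction k with
  | zero => simp
  | succ k ih =>
    have h1 : r ^ (k + 1) ≤ (r + 1) ^ (k + 1) := Nat.pow_le_pow_left (by omega) _
    calc (r + 1) ^ (k + 1 + 1) = (r + 1) * (r + 1) ^ (k + 1) := by ring
      _ ≤ (r + 1) * (r ^ (k + 1) + (k + 1) * (r + 1) ^ k) := Nat.mul_le_mul_left _ ih
      _ = r ^ (k + 1 + 1) + r ^ (k + 1) + (k + 1) * (r + 1) ^ (k + 1) := by ring
      _ ≤ r ^ (k + 1 + 1) + (r + 1) ^ (k + 1) + (k + 1) * (r + 1) ^ (k + 1) := by omega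
      _ = r ^ (k + 1 + 1) + (k + 1 + 1) * (r + 1) ^ (k + 1) := by ring

lemma kp_sum_pow (r k : ℕ) : r ^ (k + 1) ≤ (k + 1) * ∑ i ∈ Finset.range r, (i + 1) ^ k := by
  induction r with
  | zero => simp
  | succ r ih =>
    rw [Finset.sum_range_succ, mul_add]
    exact (kp_pow_le r k).trans (Nat.add_le_add_right ih _)

theorem kap_ge {d : ℕ} (hd : 2 ≤ d) (r : ℕ) (hr : 1 ≤ r) :
    ((r : ℝ) ^ (d - 1) - d) / (d : ℝ) ^ 2 ≤ kap d r := by
  obtain ⟨w, hw, hB⟩ := kp_feasible (r := r) (d := d) (by omega)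
  have h1 := kp_count hd w hw
  have h2 := hB (fun _ => Finset.univ)
  simp only [Finset.card_univ, Fintype.card_fin, Finset.sum_const, smul_eq_mul] at h2
  have h3 : ∑ k ∈ Finset.range r, (k + 1) ^ (d - 1) ≤ kap d r * (d * r) + r := by
    have h4 : ∑ k ∈ Finset.range r, (k + 1) ^ (d - 1) =
        ∑ k ∈ Finset.range r, ((k + 1) ^ (d - 1) - 1) + r := by
      have h5 : ∀ k ∈ Finset.range r, (k + 1) ^ (d - 1) = ((k + 1) ^ (d - 1) - 1) + 1 := by
        intro k _
        have : 1 ≤ (k + 1) ^ (d - 1) := Nat.one_le_pow _ _ (by omega)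
        omega
      rw [Finset.sum_congr rfl h5, Finset.sum_add_distrib]
      simp
    rw [h4]
    exact Nat.add_le_add_right (h1.trans h2) _
  obtain ⟨k, rfl⟩ : ∃ k, d = k + 1 := ⟨d - 1, by omega⟩
  rw [Nat.add_sub_cancel] at h3 ⊢
  have h6 := kp_sum_pow r k
  have h7 : r ^ (k + 1) ≤ (k + 1) * (kap (k + 1) r * ((k + 1) * r) + r) :=
    h6.trans (Nat.mul_le_mul_left _ h3)
  have h8 : (r : ℝ) ^ (k + 1) ≤ ((k : ℝ) + 1) * (kap (k + 1) r * (((k : ℝ) + 1) * r) + r) := by
    exact_mod_cast h7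
  have hr0 : (0 : ℝ) < r := by exact_mod_cast hr
  have hk0 : (0 : ℝ) < (k : ℝ) + 1 := by positivity
  push_cast
  rw [div_le_iff₀ (by positivity)]
  have h9 : (r : ℝ) ^ k * r ≤ ((k : ℝ) + 1) * (kap (k + 1) r * ((k : ℝ) + 1) + 1) * r := by
    calc (r : ℝ) ^ k * r = (r : ℝ) ^ (k + 1) := by ring
      _ ≤ ((k : ℝ) + 1) * (kap (k + 1) r * (((k : ℝ) + 1) * r) + r) := h8
      _ = _ := by ring
  have h10 := le_of_mul_le_mul_right h9 hr0
  nlinarith [h10]

theorem kap_le {d : ℕ} (hd : 2 ≤ d) (T : ℕ) :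
    (kap d (d * T) : ℝ) ≤
      nu d * ((d * T : ℕ) : ℝ) ^ (d - 1) + 1 + (d : ℝ) ^ 2 * ((d * T : ℕ) : ℝ) ^ (d - 2) := by
  classical
  have hnu : 0 < nu d := nu_pos hd
  obtain ⟨C₀, hC₀⟩ : ∃ C₀ : ℕ, C₀ = ⌈nu d * ((d * T : ℕ) : ℝ) ^ (d - 1)⌉₊ := ⟨_, rfl⟩
  have hg : ∀ a, a ≤ d * T → gBound d T a ≤ C₀ * a := by
    intro a ha
    have h1 := gBound_le hd ha
    have h2 : nu d * ((d * T : ℕ) : ℝ) ^ (d - 1) ≤ C₀ := by rw [hC₀]; exact Nat.le_ceil _
    have h3 : (gBound d T a : ℝ) ≤ (C₀ : ℝ) * a := by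
      refine h1.trans (mul_le_mul_of_nonneg_right ?_ (Nat.cast_nonneg a))
      push_cast at h2
      exact h2
    exact_mod_cast h3
  have hfeas : Feasible d (d * T) (C₀ + d ^ 2 * (d * T) ^ (d - 2)) := by
    refine ⟨fun x l => ((dgWt d x l.val : ℤ) : ℝ), fun l => ?_, fun B => ?_⟩
    · rw [← Int.cast_sum, dg_sum_const hd, Int.cast_zero]
    · refine le_trans (Finset.card_le_card ?_) (hall_bound hd (le_refl (d * T)) C₀ hg B)
      intro f hf
      rw [kp_mem_wSet] at hf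
      obtain ⟨hf1, hf2, hf3⟩ := hf
      rw [Finset.mem_filter]
      refine ⟨?_, hf1⟩
      unfold zeroSet
      rw [Finset.mem_filter]
      refine ⟨Finset.mem_univ _, fun x => (f x).isLt, hf2, ?_⟩
      by_contra hne
      have h4 := dg_sum_pos hd (fun x => (f x).val)
        (fun h => hf2 (fun x y => Fin.ext (h x y)))
        (fun ⟨x, hx1, hx2⟩ => hne ⟨x, fun y => hx1 y, hx2⟩)
      rw [← Int.cast_sum] at hf3
      have h5 : ∑ x : Fin d, dgWt d x (f x).val ≤ 0 := by exact_mod_cast hf3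
      omega
  have h1 : kap d (d * T) ≤ C₀ + d ^ 2 * (d * T) ^ (d - 2) := (feasible_iff (by omega)).1 hfeas
  have h2 : (C₀ : ℝ) ≤ nu d * ((d * T : ℕ) : ℝ) ^ (d - 1) + 1 := by
    rw [hC₀]
    exact (Nat.ceil_lt_add_one (by positivity)).le
  have h3 : (kap d (d * T) : ℝ) ≤ (C₀ : ℝ) + (d : ℝ) ^ 2 * ((d * T : ℕ) : ℝ) ^ (d - 2) := by
    exact_mod_cast h1
  linarith

end Pool.Agent.BSub
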