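import Mathlib.LinearAlgebra.Lagrange
import Mathlib.LinearAlgebra.Matrix.ToLinearEquiv
import Mathlib.Algebra.BigOperators.Fin
import Mathlib.Algebra.Polynomial.Roots
import Pool.Agent.Lib.MP_79bff1_ag.Defs

set_option autoImplicit false

namespace Pool.Agent.BSub

open Polynomial Finset

/-- the Vandermonde node of `f` at `x`: the digits of `f` off `x` -/
def vdNode {d n : ℕ} (x : Fin d) (f : Fin d → Fin n) : ℕ :=
  ∑ x' ∈ Finset.univ.erase x, (f x').val * n ^ (x'.val)

theorem vdNode_congr {d n : ℕ} (x : Fin d) (f f' : Fin d → Fin n)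
    (h : ∀ x', x' ≠ x → f x' = f' x') : vdNode x f = vdNode x f' := by
  unfold vdNode
  refine Finset.sum_congr rfl fun x' hx' => ?_
  rw [h x' (Finset.ne_of_mem_erase hx')]

theorem vdNode_inj {d n : ℕ} (x : Fin d) (f f' : Fin d → Fin n)
    (h : vdNode x f = vdNode x f') (hx : f x = f' x) : f = f' := by
  have key : ∀ g : Fin d → Fin n,
      ((finFunctionFinEquiv g : Fin (n ^ d)) : ℕ) = vdNode x g + (g x).val * n ^ (x.val) := by
    intro g
    rw [finFunctionFinEquiv_apply, vdNode, Finset.sum_erase_add _ _ (Finset.mem_univ x)]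
  have h1 : finFunctionFinEquiv f = finFunctionFinEquiv f' := by
    apply Fin.ext
    rw [key, key, h, hx]
  exact finFunctionFinEquiv.injective h1

/-- the tensor of the construction -/
noncomputable def vdTensor {d n : ℕ} (r : ℕ) (w : Fin d → (Fin d → Fin n) → ℕ) (t : ℂ) :
    Tensor d n := fun h => ∑ x : Fin d,
      if r ≤ (h x).val ∧ ∀ x', x' ≠ x → (h x').val < r then
        t ^ (w x h) * (vdNode x h : ℂ) ^ ((h x).val - r) else 0

theorem vdTensor_low {d n : ℕ} (r : ℕ) (w : Fin d → (Fin d → Fin n) → ℕ) (t : ℂ)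
    (f : Fin d → Fin n) (hf : ∀ x, (f x).val < r) : vdTensor r w t f = 0 := by
  unfold vdTensor
  refine Finset.sum_eq_zero fun x _ => ?_
  rw [if_neg]
  rintro ⟨h1, -⟩
  exact absurd (hf x) (not_lt.mpr h1)

theorem vdTensor_update {d n : ℕ} (r : ℕ) (w : Fin d → (Fin d → Fin n) → ℕ)
    (hw : ∀ x f f', (∀ x', x' ≠ x → f x' = f' x') → w x f = w x f') (t : ℂ)
    (f : Fin d → Fin n) (hf : ∀ x, (f x).val < r) (x : Fin d) (j : Fin n) (hj : r ≤ j.val) :
    vdTensor r w t (Function.update f x j) = t ^ (w x f) * (vdNode x f : ℂ) ^ (j.val - r) := by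
  unfold vdTensor
  have hoff : ∀ x', x' ≠ x → Function.update f x j x' = f x' := fun x' hx' =>
    Function.update_of_ne hx' _ _
  rw [Finset.sum_eq_single x]
  · rw [if_pos]
    · rw [hw x _ f hoff, vdNode_congr x _ f hoff, Function.update_self]
    · refine ⟨by rw [Function.update_self]; exact hj, fun x' hx' => ?_⟩
      rw [hoff x' hx']; exact hf x'
  · intro x'' _ hx''
    rw [if_neg]
    rintro ⟨h1, -⟩
    rw [hoff x'' hx''] at h1
    exact absurd (hf x'') (not_lt.mpr h1)
  · intro h; exact absurd (Finset.mem_univ x) h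

/-- from exponents with a unique minimum and small loads to a surjective tangent map -/
theorem exists_tensor_of_exponents {d n r : ℕ} (hr : r ≤ n) (Λ : Finset (Fin d → Fin n))
    (hΛ : ∀ f ∈ Λ, ∀ x, (f x).val < r) (w : Fin d → (Fin d → Fin n) → ℕ)
    (hw : ∀ x f f', (∀ x', x' ≠ x → f x' = f' x') → w x f = w x f')
    (lam : Fin d → Fin n → ℕ) (θ : (Fin d → Fin n) → Fin d)
    (hθ : ∀ f ∈ Λ, ∀ x, x ≠ θ f → w (θ f) f + lam (θ f) (f (θ f)) < w x f + lam x (f x))
    (hload : ∀ x l, (Λ.filter fun f => θ f = x ∧ f x = l).card ≤ n - r) :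
    ∃ S₀ : Tensor d n, (∀ f, (∀ x, (f x).val < r) → S₀ f = 0) ∧
      ∀ y : Tensor d n, (∀ f ∉ Λ, y f = 0) →
      (∀ (x : Fin d) (l j : Fin n), l.val < r → r ≤ j.val →
        ∑ f ∈ Λ.filter (fun f => f x = l), y f * S₀ (Function.update f x j) = 0) → y = 0 := by
  classical
  -- the data
  set e : Fin d → (Fin d → Fin n) → ℕ := fun x f => w x f + lam x (f x) with he
  set em : (Fin d → Fin n) → ℕ := fun f => e (θ f) f with hem
  set slot : (Fin d → Fin n) → Finset (Fin d → Fin n) := fun f' =>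
    Λ.filter (fun f => θ f = θ f' ∧ f (θ f') = f' (θ f')) with hslot
  set L : (Fin d → Fin n) → ℂ[X] := fun f' =>
    Lagrange.basis (slot f') (fun f => (vdNode (θ f') f : ℂ)) f' with hL
  have hinj : ∀ f', Set.InjOn (fun f => (vdNode (θ f') f : ℂ)) (slot f' : Set (Fin d → Fin n)) := by
    intro f' a ha b hb hab
    have ha' := Finset.mem_coe.mp ha
    have hb' := Finset.mem_coe.mp hb
    simp only [hslot, Finset.mem_filter] at ha' hb'
    have hab' : (vdNode (θ f') a : ℂ) = vdNode (θ f') b := hab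
    refine vdNode_inj (θ f') a b (by exact_mod_cast hab') ?_
    rw [ha'.2.2, hb'.2.2]
  have hmemslot : ∀ f' ∈ Λ, f' ∈ slot f' := fun f' hf' =>
    Finset.mem_filter.mpr ⟨hf', rfl, rfl⟩
  have hdeg : ∀ f' ∈ Λ, (L f').natDegree < n - r := by
    intro f' hf'
    have h1 : (L f').degree = ((slot f').card - 1 : ℕ) := Lagrange.degree_basis (hinj f') (hmemslot f' hf')
    have h2 : (L f').natDegree = (slot f').card - 1 := natDegree_eq_of_degree_eq_some h1
    have h3 : (slot f').card ≤ n - r := hload (θ f') (f' (θ f'))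
    have h4 : 0 < (slot f').card := Finset.card_pos.mpr ⟨f', hmemslot f' hf'⟩
    omega
  set Q : Matrix Λ Λ ℂ[X] := fun f f' =>
    if f.1 (θ f'.1) = f'.1 (θ f'.1) then
      X ^ (e (θ f'.1) f.1 - em f.1) * C ((L f'.1).eval (vdNode (θ f'.1) f.1 : ℂ)) else 0 with hQ
  have hQapp : ∀ f f' : Λ, Q f f' = if f.1 (θ f'.1) = f'.1 (θ f'.1) then
      X ^ (e (θ f'.1) f.1 - em f.1) * C ((L f'.1).eval (vdNode (θ f'.1) f.1 : ℂ)) else 0 :=
    fun _ _ => rfl
  have hQ0 : (Polynomial.evalRingHom (0 : ℂ)).mapMatrix Q = 1 := by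
    ext f f'
    rw [RingHom.mapMatrix_apply, Matrix.map_apply, coe_evalRingHom, hQapp]
    by_cases hff : f = f'
    · subst hff
      rw [Matrix.one_apply_eq, if_pos rfl]
      have h1 : e (θ f.1) f.1 - em f.1 = 0 := Nat.sub_self _
      have h2 : (L f.1).eval (vdNode (θ f.1) f.1 : ℂ) = 1 :=
        Lagrange.eval_basis_self (hinj f.1) (hmemslot f.1 f.2)
      rw [h1, h2]; simp
    · rw [Matrix.one_apply_ne hff]
      split_ifs with hc
      · by_cases hth : θ f.1 = θ f'.1
        · have h1 : f.1 ∈ slot f'.1 := by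
            simp only [hslot, Finset.mem_filter]; exact ⟨f.2, hth, hc⟩
          have h2 : (L f'.1).eval (vdNode (θ f'.1) f.1 : ℂ) = 0 :=
            Lagrange.eval_basis_of_ne (v := fun g => (vdNode (θ f'.1) g : ℂ))
              (fun h => hff (Subtype.ext h.symm)) h1
          rw [h2]; simp
        · have h1 : 0 < e (θ f'.1) f.1 - em f.1 := by
            have := hθ f.1 f.2 (θ f'.1) (fun h => hth h.symm)
            simp only [he, hem]; omega
          simp [h1.ne']
      · simp
  have hdet : Q.det ≠ 0 := by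
    intro h0
    have h1 : (Polynomial.evalRingHom (0 : ℂ)) Q.det = 1 := by
      rw [RingHom.map_det, hQ0, Matrix.det_one]
    rw [h0, map_zero] at h1
    exact zero_ne_one h1
  obtain ⟨t, ht⟩ : ∃ t : ℂ, (X * Q.det).eval t ≠ 0 := by
    by_contra hcon
    push Not at hcon
    have : X * Q.det = 0 := Polynomial.funext fun s => by rw [hcon s, eval_zero]
    exact mul_ne_zero X_ne_zero hdet this
  rw [eval_mul, eval_X] at ht
  have ht0 : t ≠ 0 := fun h => ht (by rw [h, zero_mul])
  have htd : Q.det.eval t ≠ 0 := fun h => ht (by rw [h, mul_zero])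
  refine ⟨vdTensor r w t, fun f hf => vdTensor_low r w t f hf, ?_⟩
  intro y hy hsum
  set z : Λ → ℂ := fun f => y f.1 * t ^ (em f.1) with hz
  have hemle : ∀ f ∈ Λ, ∀ x, em f ≤ e x f := by
    intro f hf x
    by_cases hx : x = θ f
    · rw [hx]
    · exact (hθ f hf x hx).le
  have hzQ : Matrix.vecMul z ((Polynomial.evalRingHom t).mapMatrix Q) = 0 := by
    ext f'
    rw [Pi.zero_apply]
    have hsumΛ : Matrix.vecMul z ((Polynomial.evalRingHom t).mapMatrix Q) f'
        = ∑ f ∈ Λ, (y f * t ^ (em f)) * (if f (θ f'.1) = f'.1 (θ f'.1) then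
          t ^ (e (θ f'.1) f - em f) * (L f'.1).eval (vdNode (θ f'.1) f : ℂ) else 0) := by
      rw [Matrix.vecMul, dotProduct, ← Finset.sum_coe_sort Λ]
      refine Finset.sum_congr rfl fun f _ => ?_
      rw [RingHom.mapMatrix_apply, Matrix.map_apply, coe_evalRingHom, hQapp]
      simp only [hz]
      split_ifs
      · rw [eval_mul, eval_pow, eval_X, eval_C]
      · rw [eval_zero]
    rw [hsumΛ]
    set x := θ f'.1 with hx
    set l := f'.1 x with hl
    have hlr : l.val < r := hΛ f'.1 f'.2 x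
    have hstep : ∑ f ∈ Λ, (y f * t ^ (em f)) * (if f x = l then
          t ^ (e x f - em f) * (L f'.1).eval (vdNode x f : ℂ) else 0)
        = ∑ f ∈ Λ.filter (fun f => f x = l), ∑ i ∈ Finset.range (n - r),
          (t ^ (lam x l) * (L f'.1).coeff i) * (y f * (t ^ (w x f) * (vdNode x f : ℂ) ^ i)) := by
      rw [Finset.sum_filter]
      refine Finset.sum_congr rfl fun f hf => ?_
      split_ifs with hc
      · rw [Polynomial.eval_eq_sum_range' (hdeg f'.1 f'.2)]
        have h1 : t ^ (em f) * t ^ (e x f - em f) = t ^ (lam x l) * t ^ (w x f) := by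
          rw [← pow_add, ← pow_add]
          congr 1
          have := hemle f hf x
          have h2 : e x f = w x f + lam x l := by simp only [he, hc]
          omega
        calc (y f * t ^ (em f)) * (t ^ (e x f - em f) * ∑ i ∈ Finset.range (n - r),
              (L f'.1).coeff i * (vdNode x f : ℂ) ^ i)
            = y f * (t ^ (em f) * t ^ (e x f - em f)) * ∑ i ∈ Finset.range (n - r),
              (L f'.1).coeff i * (vdNode x f : ℂ) ^ i := by ring
          _ = _ := by
              rw [h1, Finset.mul_sum]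
              refine Finset.sum_congr rfl fun i _ => ?_
              ring
      · rw [mul_zero]
    rw [hstep, Finset.sum_comm]
    refine Finset.sum_eq_zero fun i hi => ?_
    rw [← Finset.mul_sum]
    have hin : r + i < n := by
      have := Finset.mem_range.mp hi
      omega
    have h0 := hsum x l ⟨r + i, hin⟩ hlr (Nat.le_add_right r i)
    have h1 : ∑ f ∈ Λ.filter (fun f => f x = l), y f * (t ^ (w x f) * (vdNode x f : ℂ) ^ i)
        = ∑ f ∈ Λ.filter (fun f => f x = l), y f * vdTensor r w t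
            (Function.update f x ⟨r + i, hin⟩) := by
      refine Finset.sum_congr rfl fun f hf => ?_
      rw [vdTensor_update r w hw t f (hΛ f (Finset.mem_filter.mp hf).1) x _ (Nat.le_add_right r i)]
      rw [Nat.add_sub_cancel_left]
    rw [h1, h0, mul_zero]
  have hdet' : ((Polynomial.evalRingHom t).mapMatrix Q).det ≠ 0 := by
    rw [← RingHom.map_det]
    exact htd
  have hz0 : z = 0 := Matrix.eq_zero_of_vecMul_eq_zero hdet' hzQ
  funext f
  by_cases hf : f ∈ Λ
  · have h1 : y f * t ^ (em f) = 0 := congrFun hz0 ⟨f, hf⟩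
    exact (mul_eq_zero.mp h1).resolve_right (pow_ne_zero _ ht0)
  · exact hy f hf

end Pool.Agent.BSub
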