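import Pool.Agent.Lib.MP_79bff1_ag.Tangent
import Pool.Agent.Lib.MP_79bff1_ag.Vander
import Pool.Agent.Lib.MP_79bff1_ag.Assign
import Pool.Agent.Lib.MP_79bff1_ag.Hall
import Pool.Agent.Lib.MP_79bff1_ag.Degen

set_option autoImplicit false

namespace Pool.Agent.BSub

theorem generic_lower {d n T : ℕ} (hd : 2 ≤ d) (C : ℕ)
    (hC : ∀ a, a ≤ d * T → gBound d T a ≤ C * a)
    (hn : C + d ^ 2 * (d * T) ^ (d - 2) + 1 + (d - 1) * (d * T) + d * T ≤ n) :
    Generic fun A : Tensor d n => Degenerates A (unitTensor d (d * T)) := by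
  have hTn : d * T ≤ n := le_trans (Nat.le_add_left _ _) hn
  obtain ⟨w, lam, θ, hw, hθ, hload⟩ := exists_exponents (n := n) (le_trans one_le_two hd)
    (zeroSet d n (d * T)) (C + d ^ 2 * (d * T) ^ (d - 2)) (d * T)
    (fun f hf => (Finset.mem_filter.1 hf).2.1) (hall_bound hd hTn C hC)
  obtain ⟨S₀, hS0, hS1⟩ := exists_tensor_of_exponents hTn (zeroSet d n (d * T))
    (fun f hf => (Finset.mem_filter.1 hf).2.1) w hw lam θ hθ
    (fun x l => (hload x l).trans (by omega))
  refine (generic_zeros (d * T) (zeroSet d n (d * T)) S₀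
    (fun f hf => hS0 f (Finset.mem_filter.1 hf).2.1) ?_ hS1).mono ?_
  · intro l _ h
    exact (Finset.mem_filter.1 h).2.2.1 fun _ _ => rfl
  · rintro A ⟨X, S, hX, hS, hS', rfl⟩
    exact degenerates_of_zeros hd hTn X S hX hS hS'

end Pool.Agent.BSub
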