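import Pool.Agent.Lib.MP_79bff1_ag.Normal
import Pool.Agent.Lib.MP_79bff1_ag.Dim
import Pool.Agent.Lib.MP_79bff1_ag.Count
import Pool.Agent.Lib.MP_79bff1_ag.Zero

set_option autoImplicit false

namespace Pool.Agent.BSub

/-- the polynomial attached to one datum -/
theorem upper_poly {d n : ℕ} (r : Fin d → ℕ) (c : ∀ x, Fin (r x) ↪ Fin n)
    (Λ : Finset (∀ x, Fin (r x))) :
    ∃ P : MvPolynomial (Fin d → Fin n) ℂ, P ≠ 0 ∧
      (∑ x, (r x * n - r x * (r x + 1) / 2) < Λ.card →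
      ∀ (T : Tensor d n) (U : ∀ x, Matrix (Fin (r x)) (Fin n) ℂ),
        (∀ x t, U x t (c x t) = 1) → (∀ x s t, s < t → U x t (c x s) = 0) →
        (∀ f ∈ Λ, contract (fun x => U x (f x)) T = 0) → MvPolynomial.eval T P = 0) := by
  by_cases h : ∑ x, (r x * n - r x * (r x + 1) / 2) < Λ.card
  · obtain ⟨P, hP, hP'⟩ := exists_poly r c Λ h
    exact ⟨P, hP, fun _ => hP'⟩
  · exact ⟨1, one_ne_zero, fun h' => absurd h' h⟩

theorem upper_exists_prod {d n r : ℕ} :
    ∃ P : MvPolynomial (Fin d → Fin n) ℂ, P ≠ 0 ∧ ∀ T : Tensor d n, MvPolynomial.eval T P ≠ 0 →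
      ∀ (r' : Fin d → ℕ) (_ : ∀ x, r' x ≤ r) (c : ∀ x, Fin (r' x) ↪ Fin n)
        (Λ : Finset (∀ x, Fin (r' x))),
        ∑ x, (r' x * n - r' x * (r' x + 1) / 2) < Λ.card →
        ∀ U : ∀ x, Matrix (Fin (r' x)) (Fin n) ℂ,
          (∀ x t, U x t (c x t) = 1) → (∀ x s t, s < t → U x t (c x s) = 0) →
          ¬ ∀ f ∈ Λ, contract (fun x => U x (f x)) T = 0 := by
  classical
  choose Q hQ0 hQ using fun (r' : Fin d → Fin (r + 1)) (c : ∀ x, Fin (r' x) ↪ Fin n)
    (Λ : Finset (∀ x, Fin (r' x))) => upper_poly (n := n) (fun x => (r' x : ℕ)) c Λ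
  refine ⟨∏ r' : Fin d → Fin (r + 1), ∏ c : (∀ x, Fin (r' x) ↪ Fin n),
    ∏ Λ : Finset (∀ x, Fin (r' x)), Q r' c Λ, ?_, ?_⟩
  · rw [Finset.prod_ne_zero_iff]
    intro r' _
    rw [Finset.prod_ne_zero_iff]
    intro c _
    rw [Finset.prod_ne_zero_iff]
    intro Λ _
    exact hQ0 r' c Λ
  · intro T hT r' hr' c Λ hΛ U hU1 hU2 hU3
    rw [map_prod, Finset.prod_ne_zero_iff] at hT
    have h1 := hT (fun x => ⟨r' x, Nat.lt_succ_of_le (hr' x)⟩) (Finset.mem_univ _)
    rw [map_prod, Finset.prod_ne_zero_iff] at h1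
    have h2 := h1 c (Finset.mem_univ _)
    rw [map_prod, Finset.prod_ne_zero_iff] at h2
    have h3 := h2 Λ (Finset.mem_univ _)
    exact h3 (hQ (fun x => ⟨r' x, Nat.lt_succ_of_le (hr' x)⟩) c Λ hΛ T U hU1 hU2 hU3)

/-- upper bound with boxes -/
theorem generic_upper_box {d n r : ℕ} (hd : 2 ≤ d)
    (H : ∀ (P : Fin d → Fin r → ℝ) (c₀ : ℝ), 0 < c₀ → (∀ x i, 0 < P x i) →
      (∀ i, c₀ ≤ ∏ x, P x i) → ∃ B : Fin d → Finset (Fin r),
      ∑ x, ((B x).card * n - (B x).card * ((B x).card + 1) / 2) <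
        ((Fintype.piFinset B).filter fun f => (¬ ∀ x y, f x = f y) ∧ c₀ ≤ ∏ x, P x (f x)).card) :
    Generic fun T : Tensor d n => ¬ Degenerates T (unitTensor d r) := by
  classical
  obtain ⟨P, hP0, hP⟩ := upper_exists_prod (d := d) (n := n) (r := r)
  refine ⟨P, hP0, fun T hT hdeg => ?_⟩
  obtain ⟨P', c₀, l, c, U, hc0, hP'pos, hdiag, hU1, hU2, hU3⟩ := exists_normal hd T hdeg
  obtain ⟨B, hB⟩ := H P' c₀ hc0 hP'pos hdiag
  have hcard : ∀ x, ((B x).map (l x).symm.toEmbedding).card = (B x).card := fun x =>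
    Finset.card_map _
  let e : ∀ x, Fin (B x).card ↪o Fin r := fun x =>
    ((B x).map (l x).symm.toEmbedding).orderEmbOfFin (hcard x)
  have hemem : ∀ x t, l x (e x t) ∈ B x := by
    intro x t
    have h1 : e x t ∈ (B x).map (l x).symm.toEmbedding :=
      Finset.orderEmbOfFin_mem _ (hcard x) t
    obtain ⟨b, hb, hb'⟩ := Finset.mem_map.1 h1
    have h2 : l x (e x t) = b := by
      rw [← hb']
      exact (l x).apply_symm_apply b
    rw [h2]
    exact hb
  have hesurj : ∀ x, ∀ b ∈ B x, ∃ t, l x (e x t) = b := by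
    intro x b hb
    have h1 : (l x).symm b ∈ Set.range (e x) := by
      have h2 : Set.range (e x) = ((B x).map (l x).symm.toEmbedding : Finset (Fin r)) :=
        Finset.range_orderEmbOfFin _ (hcard x)
      rw [h2, Finset.mem_coe]
      exact Finset.mem_map_of_mem _ hb
    obtain ⟨t, ht⟩ := h1
    exact ⟨t, by rw [ht]; exact (l x).apply_symm_apply b⟩
  let Λ : Finset (∀ x, Fin (B x).card) := Finset.univ.filter fun g =>
    (¬ ∀ x y, l x (e x (g x)) = l y (e y (g y))) ∧ c₀ ≤ ∏ x, P' x (l x (e x (g x)))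
  have hΛ : Λ.card = ((Fintype.piFinset B).filter fun f =>
      (¬ ∀ x y, f x = f y) ∧ c₀ ≤ ∏ x, P' x (f x)).card := by
    refine Finset.card_bij (fun g _ => fun x => l x (e x (g x))) ?_ ?_ ?_
    · intro g hg
      rw [Finset.mem_filter, Fintype.mem_piFinset]
      exact ⟨fun x => hemem x (g x), (Finset.mem_filter.1 hg).2⟩
    · intro g _ g' _ hgg
      funext x
      exact (e x).injective ((l x).injective (congrFun hgg x))
    · intro f hf
      rw [Finset.mem_filter, Fintype.mem_piFinset] at hf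
      choose g hg using fun x => hesurj x (f x) (hf.1 x)
      have hgf : (fun x => l x (e x (g x))) = f := funext hg
      refine ⟨g, ?_, hgf⟩
      refine Finset.mem_filter.2 ⟨Finset.mem_univ _, ?_⟩
      have h2 := hf.2
      rw [← hgf] at h2
      exact h2
  refine hP T hT (fun x => (B x).card) (fun x => ?_) (fun x => (e x).toEmbedding.trans (c x)) Λ
    (by rw [hΛ]; exact hB) (fun x t => U x (l x (e x t))) ?_ ?_ ?_
  · have := Finset.card_le_univ (B x)
    rwa [Fintype.card_fin] at this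
  · intro x t
    exact hU1 x (e x t)
  · intro x s t hst
    exact hU2 x (e x s) (e x t) ((e x).lt_iff_lt.2 hst)
  · intro g hg
    have h2 := (Finset.mem_filter.1 hg).2
    exact hU3 (fun x => l x (e x (g x))) h2.1 h2.2

theorem generic_upper {d n r : ℕ} (hd : 2 ≤ d)
    (H : d * (r * n - r * (r + 1) / 2) < ∑ k ∈ Finset.range r, ((k + 1) ^ (d - 1) - 1)) :
    Generic fun T : Tensor d n => ¬ Degenerates T (unitTensor d r) := by
  classical
  apply generic_upper_box hd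
  intro P c₀ hc hP h
  refine ⟨fun _ => Finset.univ, ?_⟩
  have h1 := count_nonneg hd P hP c₀ hc h
  simp only [Finset.card_univ, Fintype.card_fin, Fintype.piFinset_univ, Finset.sum_const,
    smul_eq_mul]
  refine lt_of_lt_of_le H (h1.trans (le_of_eq ?_))
  congr

end Pool.Agent.BSub
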