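import Mathlib.Algebra.MvPolynomial.PDeriv
import Mathlib.Algebra.MvPolynomial.Degrees
import Mathlib.Data.Complex.Basic
import Mathlib.LinearAlgebra.Matrix.ToLin
import Mathlib.LinearAlgebra.Matrix.Adjugate
import Mathlib.LinearAlgebra.Matrix.Rank
import Mathlib.LinearAlgebra.Matrix.NonsingularInverse

/-!
# The Jacobian criterion for algebraic independence (over `ℂ`, at a point)
-/

set_option autoImplicit false

namespace Pool.Agent.BSub

open MvPolynomial

private theorem jac_chain {σ τ : Type} [Fintype τ] (ψ : τ → MvPolynomial σ ℂ) (s : σ)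
    (P : MvPolynomial τ ℂ) :
    pderiv s (aeval ψ P) = ∑ i, aeval ψ (pderiv i P) * pderiv s (ψ i) := by
  classical
  induction P using MvPolynomial.induction_on with
  | C a => simp
  | add p q hp hq => simp [hp, hq, Finset.sum_add_distrib, add_mul]
  | mul_X p i hp =>
    simp only [map_mul, aeval_X, Derivation.leibniz, hp, pderiv_X, smul_eq_mul, map_add,
      Finset.mul_sum, add_mul, Finset.sum_add_distrib]
    congr 1
    · rw [Finset.sum_eq_single i]
      · simp
      · intro j _ hj
        simp [hj.symm]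
      · simp
    · exact Finset.sum_congr rfl fun j _ => by ring

private theorem jac_const {τ : Type} (P : MvPolynomial τ ℂ) (h : ∀ i, pderiv i P = 0) :
    P = C (coeff 0 P) := by
  classical
  ext m
  rw [coeff_C]
  split_ifs with hm
  · rw [← hm]
  · obtain ⟨i, hi⟩ : ∃ i, m i ≠ 0 := by
      by_contra hc
      push Not at hc
      exact hm (Finsupp.ext fun i => (hc i).symm)
    have h1 := coeff_pderiv (i := i) P (m - Finsupp.single i 1)
    rw [h i, coeff_zero, tsub_add_cancel_of_le (by
      rw [Finsupp.single_le_iff]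
      omega)] at h1
    rcases mul_eq_zero.1 h1.symm with h2 | h2
    · exact h2
    · exfalso
      exact (Nat.cast_add_one_ne_zero (R := ℂ) _) h2

private theorem jac_degree {τ : Type} (P : MvPolynomial τ ℂ) (n : ℕ) (h : P.totalDegree ≤ n + 1)
    (i : τ) : (pderiv i P).totalDegree ≤ n := by
  refine Finset.sup_le fun m hm => ?_
  rw [mem_support_iff, coeff_pderiv] at hm
  have h1 : m + Finsupp.single i 1 ∈ P.support := by
    rw [mem_support_iff]
    exact fun h0 => hm (by rw [h0, zero_mul])
  have h2 := (le_totalDegree h1).trans h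
  rw [Finsupp.sum_add_index' (fun _ => rfl) (fun _ _ _ => rfl),
    Finsupp.sum_single_index rfl] at h2
  omega

/-- the relation matrix: a vector killed by the generic Jacobian is zero -/
private theorem jac_vec {σ τ : Type} [Fintype σ] [Fintype τ]
    (ψ : τ → MvPolynomial σ ℂ) (p₀ : σ → ℂ)
    (h : ∀ y : τ → ℂ, (∀ s : σ, ∑ i, y i * MvPolynomial.eval p₀ (MvPolynomial.pderiv s (ψ i)) = 0) →
      y = 0) (Y : τ → MvPolynomial σ ℂ) (hY : ∀ s, ∑ i, Y i * pderiv s (ψ i) = 0) : Y = 0 := by
  classical
  let N : Matrix τ σ ℂ := fun i s => eval p₀ (pderiv s (ψ i))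
  have hN : LinearMap.ker (Matrix.toLin' N.transpose) = ⊥ := by
    rw [LinearMap.ker_eq_bot']
    intro y hy
    refine h y fun s => ?_
    have := congrFun hy s
    rw [Matrix.toLin'_apply, Matrix.mulVec_transpose] at this
    exact this
  obtain ⟨Q, hQ⟩ : ∃ Q : Matrix σ τ ℂ, N * Q = 1 := by
    obtain ⟨g, hg⟩ := LinearMap.exists_leftInverse_of_injective _ hN
    refine ⟨(LinearMap.toMatrix' g).transpose, ?_⟩
    have h1 := congrArg LinearMap.toMatrix' hg
    rw [LinearMap.toMatrix'_comp, LinearMap.toMatrix'_toLin', LinearMap.toMatrix'_id] at h1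
    rw [← Matrix.transpose_transpose N, ← Matrix.transpose_mul, h1, Matrix.transpose_one]
  let M : Matrix τ τ (MvPolynomial σ ℂ) := fun i j => ∑ s, pderiv s (ψ i) * C (Q s j)
  have hM : M.map (eval p₀) = 1 := by
    rw [← hQ]
    ext i j
    simp [M, N, Matrix.mul_apply]
  have hdet : M.det ≠ 0 := by
    intro h0
    have h1 := congrArg (eval p₀) h0
    rw [RingHom.map_det, RingHom.mapMatrix_apply, hM, Matrix.det_one, map_zero] at h1
    exact one_ne_zero h1
  have hYM : M.vecMul Y = 0 := by
    funext j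
    simp only [M, Matrix.vecMul, dotProduct, Finset.mul_sum, Pi.zero_apply]
    rw [Finset.sum_comm]
    refine Finset.sum_eq_zero fun s _ => ?_
    simp_rw [← mul_assoc, ← Finset.sum_mul]
    rw [hY s, zero_mul]
  exact Matrix.eq_zero_of_vecMul_eq_zero hdet hYM

theorem injective_of_jacobian {σ τ : Type} [Fintype σ] [Fintype τ]
    (ψ : τ → MvPolynomial σ ℂ) (p₀ : σ → ℂ)
    (h : ∀ y : τ → ℂ, (∀ s : σ, ∑ i, y i * MvPolynomial.eval p₀ (MvPolynomial.pderiv s (ψ i)) = 0) →
      y = 0) :
    Function.Injective (MvPolynomial.aeval ψ : MvPolynomial τ ℂ →ₐ[ℂ] MvPolynomial σ ℂ) := by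
  rw [injective_iff_map_eq_zero]
  have key : ∀ n : ℕ, ∀ P : MvPolynomial τ ℂ, P.totalDegree ≤ n → aeval ψ P = 0 → P = 0 := by
    have hC : ∀ P : MvPolynomial τ ℂ, P = C (coeff 0 P) → aeval ψ P = 0 → P = 0 := by
      intro P hP h0
      rw [hP, aeval_C, MvPolynomial.algebraMap_eq, MvPolynomial.C_eq_zero] at h0
      rw [hP, h0, C_0]
    intro n
    induction n with
    | zero =>
      intro P hP h0
      exact hC P (totalDegree_eq_zero_iff_eq_C.1 (Nat.le_zero.1 hP)) h0
    | succ n ih =>
      intro P hP h0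
      refine hC P (jac_const P fun i => ih _ (jac_degree P n hP i) ?_) h0
      have := jac_vec ψ p₀ h (fun i => aeval ψ (pderiv i P)) (fun s => by
        rw [← jac_chain, h0, map_zero])
      exact congrFun this i
  exact fun P hP => key _ P le_rfl hP

end Pool.Agent.BSub
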