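import Mathlib.Algebra.MvPolynomial.PDeriv
import Mathlib.Algebra.MvPolynomial.Funext
import Pool.Agent.Lib.MP_79bff1_ag.Defs
import Pool.Agent.Lib.MP_79bff1_ag.Chev
import Pool.Agent.Lib.MP_79bff1_ag.Jac

set_option autoImplicit false

namespace Pool.Agent.BSub

/-! ### Derivatives of the parametrisation -/

theorem tg_pderiv_prod {σ ι : Type} [DecidableEq ι] (p : σ → ℂ) (s : σ) (S : Finset ι)
    (a : ι → MvPolynomial σ ℂ) :
    MvPolynomial.eval p (MvPolynomial.pderiv s (∏ x ∈ S, a x)) =
      ∑ x ∈ S, (∏ y ∈ S.erase x, MvPolynomial.eval p (a y)) *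
        MvPolynomial.eval p (MvPolynomial.pderiv s (a x)) := by
  induction S using Finset.induction_on with
  | empty => simp
  | insert x S hx ih =>
    rw [Finset.prod_insert hx, MvPolynomial.pderiv_mul, map_add, map_mul, map_mul, ih,
      Finset.sum_insert hx, Finset.erase_insert hx, map_prod, Finset.mul_sum]
    congr 1
    · ring
    · refine Finset.sum_congr rfl fun y hy => ?_
      have hyx : y ≠ x := fun h => hx (h ▸ hy)
      rw [Finset.erase_insert_of_ne hyx.symm, Finset.prod_insert (by
        intro h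
        exact hx (Finset.mem_of_mem_erase h))]
      ring

section

variable {d n : ℕ}

/-- index type of the parameters -/
abbrev TgVar (d n : ℕ) := (Fin d × Fin n × Fin n) ⊕ (Fin d → Fin n)

/-- masked matrix entry -/
noncomputable def tgX (r : ℕ) (x : Fin d) (l j : Fin n) : MvPolynomial (TgVar d n) ℂ :=
  if l.val < r ∧ r ≤ j.val then MvPolynomial.X (Sum.inl (x, l, j)) else 0

/-- masked tensor entry -/
noncomputable def tgS (Λ : Finset (Fin d → Fin n)) (g : Fin d → Fin n) :
    MvPolynomial (TgVar d n) ℂ :=
  if g ∈ Λ then 0 else MvPolynomial.X (Sum.inr g)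

/-- one factor of the parametrisation -/
noncomputable def tgF (r : ℕ) (f g : Fin d → Fin n) (x : Fin d) : MvPolynomial (TgVar d n) ℂ :=
  (if f x = g x then 1 else 0) + tgX r x (f x) (g x)

/-- the parametrisation -/
noncomputable def tgPsi (r : ℕ) (Λ : Finset (Fin d → Fin n)) (f : Fin d → Fin n) :
    MvPolynomial (TgVar d n) ℂ :=
  ∑ g : Fin d → Fin n, (∏ x, tgF r f g x) * tgS Λ g

/-- the matrix part of a point -/
def tgMat (r : ℕ) (p : TgVar d n → ℂ) (x : Fin d) : Matrix (Fin n) (Fin n) ℂ :=
  fun l j => if l.val < r ∧ r ≤ j.val then p (Sum.inl (x, l, j)) else 0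

/-- the tensor part of a point -/
def tgTen (Λ : Finset (Fin d → Fin n)) (p : TgVar d n → ℂ) : Tensor d n :=
  fun g => if g ∈ Λ then 0 else p (Sum.inr g)

theorem tg_eval_psi (r : ℕ) (Λ : Finset (Fin d → Fin n)) (p : TgVar d n → ℂ)
    (f : Fin d → Fin n) :
    MvPolynomial.eval p (tgPsi r Λ f) =
      restrict (fun x => (1 : Matrix (Fin n) (Fin n) ℂ) + tgMat r p x) (tgTen Λ p) f := by
  unfold tgPsi restrict contract
  rw [map_sum]
  refine Finset.sum_congr rfl fun g _ => ?_
  rw [map_mul, map_prod]
  congr 1
  · refine Finset.prod_congr rfl fun x _ => ?_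
    change _ = ((1 : Matrix (Fin n) (Fin n) ℂ) + tgMat r p x) (f x) (g x)
    rw [Matrix.add_apply, Matrix.one_apply]
    unfold tgF tgX tgMat
    rw [map_add]
    split_ifs <;> simp
  · unfold tgS tgTen
    by_cases hg : g ∈ Λ
    · simp [hg]
    · simp [hg]

theorem tg_pderiv_psi_inr (r : ℕ) (Λ : Finset (Fin d → Fin n)) (p : TgVar d n → ℂ)
    (hp : ∀ q, p (Sum.inl q) = 0) (f g : Fin d → Fin n) (hg : g ∉ Λ) :
    MvPolynomial.eval p (MvPolynomial.pderiv (Sum.inr g) (tgPsi r Λ f)) =
      if f = g then 1 else 0 := by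
  unfold tgPsi
  rw [map_sum, map_sum]
  have h1 : ∀ g' : Fin d → Fin n, MvPolynomial.eval p (MvPolynomial.pderiv (Sum.inr g)
      ((∏ x, tgF r f g' x) * tgS Λ g')) = if g' = g then (if f = g then 1 else 0) else 0 := by
    intro g'
    rw [MvPolynomial.pderiv_mul, map_add, map_mul, map_mul, tg_pderiv_prod]
    have h2 : ∀ x, MvPolynomial.eval p (MvPolynomial.pderiv (Sum.inr g) (tgF r f g' x)) = 0 := by
      intro x
      unfold tgF tgX
      rw [map_add, map_add]
      split_ifs <;> simp [MvPolynomial.pderiv_X]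
    simp only [h2, mul_zero, Finset.sum_const_zero, zero_mul, zero_add]
    have h3 : MvPolynomial.eval p (∏ x, tgF r f g' x) = if f = g' then 1 else 0 := by
      rw [map_prod]
      have h4 : ∀ x, MvPolynomial.eval p (tgF r f g' x) = if f x = g' x then 1 else 0 := by
        intro x
        unfold tgF tgX
        rw [map_add]
        split_ifs <;> simp [hp]
      simp only [h4]
      rw [Finset.prod_ite_zero]
      simp only [Finset.mem_univ, forall_const, Finset.prod_const_one]
      congr 1
      rw [funext_iff]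
    rw [h3]
    unfold tgS
    by_cases hgg : g' = g
    · subst hgg
      simp [hg]
    · by_cases hg' : g' ∈ Λ
      · simp [hg', hgg]
      · simp [hg', hgg, MvPolynomial.pderiv_X]
  simp only [h1]
  simp

theorem tg_pderiv_psi_inl (r : ℕ) (Λ : Finset (Fin d → Fin n)) (p : TgVar d n → ℂ)
    (hp : ∀ q, p (Sum.inl q) = 0) (f : Fin d → Fin n) (x : Fin d) (l j : Fin n) (hl : l.val < r)
    (hj : r ≤ j.val) :
    MvPolynomial.eval p (MvPolynomial.pderiv (Sum.inl (x, l, j)) (tgPsi r Λ f)) =
      if f x = l then (if Function.update f x j ∈ Λ then 0 else p (Sum.inr (Function.update f x j)))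
        else 0 := by
  classical
  unfold tgPsi
  rw [map_sum, map_sum]
  have h1 : ∀ g' : Fin d → Fin n, MvPolynomial.eval p (MvPolynomial.pderiv (Sum.inl (x, l, j))
      ((∏ x, tgF r f g' x) * tgS Λ g')) = if g' = Function.update f x j then
        (if f x = l then (if g' ∈ Λ then 0 else p (Sum.inr g')) else 0) else 0 := by
    intro g'
    rw [MvPolynomial.pderiv_mul, map_add, map_mul, map_mul, tg_pderiv_prod]
    have hS : MvPolynomial.eval p (MvPolynomial.pderiv (Sum.inl (x, l, j)) (tgS Λ g')) = 0 := by
      unfold tgS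
      split_ifs <;> simp [MvPolynomial.pderiv_X]
    have hS2 : MvPolynomial.eval p (tgS Λ g') = if g' ∈ Λ then 0 else p (Sum.inr g') := by
      unfold tgS
      split_ifs <;> simp
    rw [hS, mul_zero, add_zero, hS2]
    have h4 : ∀ y, MvPolynomial.eval p (tgF r f g' y) = if f y = g' y then 1 else 0 := by
      intro y
      unfold tgF tgX
      rw [map_add]
      split_ifs <;> simp [hp]
    have h2 : ∀ y, MvPolynomial.eval p (MvPolynomial.pderiv (Sum.inl (x, l, j)) (tgF r f g' y)) =
        if y = x then (if f x = l ∧ g' x = j then 1 else 0) else 0 := by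
      intro y
      unfold tgF tgX
      rw [map_add, map_add]
      have h5 : MvPolynomial.eval p (MvPolynomial.pderiv (Sum.inl (x, l, j) : TgVar d n)
          (if f y = g' y then (1 : MvPolynomial (TgVar d n) ℂ) else 0)) = 0 := by
        split_ifs <;> simp
      rw [h5, zero_add]
      by_cases hyx : y = x
      · subst hyx
        by_cases hfl : f y = l ∧ g' y = j
        · obtain ⟨ha, hb⟩ := hfl
          simp [ha, hb, hl, hj]
        · rw [if_pos rfl, if_neg hfl]
          split_ifs with hc
          · rw [MvPolynomial.pderiv_X_of_ne, map_zero]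
            intro he
            simp only [Sum.inl.injEq, Prod.mk.injEq, true_and] at he
            exact hfl he
          · simp
      · rw [if_neg hyx]
        split_ifs with hc
        · rw [MvPolynomial.pderiv_X_of_ne, map_zero]
          intro he
          simp only [Sum.inl.injEq, Prod.mk.injEq] at he
          exact hyx he.1
        · simp
    simp only [h2, h4]
    rw [Finset.sum_eq_single x]
    · rw [if_pos rfl, Finset.prod_ite_zero]
      simp only [Finset.prod_const_one]
      by_cases hg : g' = Function.update f x j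
      · subst hg
        rw [if_pos rfl, if_pos]
        · by_cases hfx : f x = l
          · simp [hfx]
          · simp [hfx]
        · intro y hy
          rw [Function.update_of_ne (Finset.ne_of_mem_erase hy)]
      · rw [if_neg hg]
        by_cases hgx : g' x = j
        · rw [if_neg]
          · simp
          · intro hall
            apply hg
            funext y
            by_cases hyx : y = x
            · subst hyx
              rw [Function.update_self, hgx]
            · rw [Function.update_of_ne hyx]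
              exact (hall y (Finset.mem_erase.2 ⟨hyx, Finset.mem_univ _⟩)).symm
        · simp [hgx]
    · intro y _ hy
      rw [if_neg hy, mul_zero]
    · simp
  simp only [h1]
  simp

end

/-- if the tangent map at `(0, S₀)` is onto then the generic tensor has the prescribed zeros -/
theorem generic_zeros {d n : ℕ} (r : ℕ) (Λ : Finset (Fin d → Fin n)) (S₀ : Tensor d n)
    (hS0 : ∀ f ∈ Λ, S₀ f = 0)
    (hS1 : ∀ l : Fin n, l.val < r → (fun _ : Fin d => l) ∉ Λ)
    (htan : ∀ y : Tensor d n, (∀ f ∉ Λ, y f = 0) →
      (∀ (x : Fin d) (l j : Fin n), l.val < r → r ≤ j.val →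
        ∑ f ∈ Λ.filter (fun f => f x = l), y f * S₀ (Function.update f x j) = 0) → y = 0) :
    Generic fun T : Tensor d n => ∃ (X : Fin d → Matrix (Fin n) (Fin n) ℂ) (S : Tensor d n),
      (∀ x l j, X x l j ≠ 0 → l.val < r ∧ r ≤ j.val) ∧ (∀ f ∈ Λ, S f = 0) ∧
      (∀ l : Fin n, l.val < r → S (fun _ => l) ≠ 0) ∧ T = restrict (fun x => 1 + X x) S := by
  classical
  have hinj : Function.Injective (MvPolynomial.aeval (tgPsi r Λ) :
      MvPolynomial (Fin d → Fin n) ℂ →ₐ[ℂ] MvPolynomial (TgVar d n) ℂ) := by
    refine injective_of_jacobian (tgPsi r Λ) (Sum.elim (fun _ => 0) S₀) fun y hy => ?_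
    have h0 : ∀ f ∉ Λ, y f = 0 := by
      intro g hg
      have := hy (Sum.inr g)
      simp only [tg_pderiv_psi_inr r Λ (Sum.elim (fun _ => 0) S₀) (fun _ => rfl) _ g hg] at this
      simpa using this
    refine htan y h0 fun x l j hl hj => ?_
    have := hy (Sum.inl (x, l, j))
    simp only [tg_pderiv_psi_inl r Λ (Sum.elim (fun _ => 0) S₀) (fun _ => rfl) _ x l j hl hj,
      Sum.elim_inr] at this
    rw [← this, Finset.sum_filter]
    rw [← Finset.sum_subset (Finset.subset_univ Λ) (fun f _ hf => by rw [h0 f hf, zero_mul])]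
    refine Finset.sum_congr rfl fun f _ => ?_
    split_ifs with h1 h2
    · rw [hS0 _ h2]
    · rfl
    · simp
  have hb : (∏ l : Fin n, if l.val < r then
      (MvPolynomial.X (Sum.inr (fun _ => l)) : MvPolynomial (TgVar d n) ℂ) else 1) ≠ 0 := by
    rw [Finset.prod_ne_zero_iff]
    intro l _
    split_ifs
    · exact MvPolynomial.X_ne_zero _
    · exact one_ne_zero
  obtain ⟨P, hP, hP'⟩ := exists_poly_of_injective (tgPsi r Λ) _ hb hinj
  refine ⟨P, hP, fun T hT => ?_⟩
  obtain ⟨p, hp1, hp2⟩ := hP' T hT
  refine ⟨tgMat r p, tgTen Λ p, ?_, ?_, ?_, ?_⟩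
  · intro x l j h
    by_contra hc
    exact h (if_neg hc)
  · intro f hf
    exact if_pos hf
  · intro l hl
    unfold tgTen
    rw [if_neg (hS1 l hl)]
    rw [map_prod, Finset.prod_ne_zero_iff] at hp2
    have := hp2 l (Finset.mem_univ _)
    rw [if_pos hl, MvPolynomial.eval_X] at this
    exact this
  · funext f
    rw [← hp1 f, tg_eval_psi]

end Pool.Agent.BSub
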