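import Mathlib.Analysis.SpecialFunctions.Log.Basic
import Mathlib.Analysis.SpecialFunctions.Exp
import Pool.Agent.Lib.MP_79bff1_ag.WDefs
import Pool.Agent.Lib.MP_79bff1_ag.Basic
import Pool.Agent.Lib.MP_79bff1_ag.Count

set_option autoImplicit false

namespace Pool.Agent.BSub

open Filter Topology

/-- degeneration by a torus with real exponents -/
theorem degenerates_of_rows {d n r : ℕ} (hd : 1 ≤ d) (T : Tensor d n)
    (U : Fin d → Matrix (Fin r) (Fin n) ℂ) (w : Fin d → Fin r → ℝ) (hw : ZeroSum w)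
    (h0 : ∀ f : Fin d → Fin r, (¬ ∀ x y, f x = f y) → ∑ x, w x (f x) ≤ 0 →
      contract (fun x => U x (f x)) T = 0)
    (h1 : ∀ i, contract (fun x => U x i) T ≠ 0) : Degenerates T (unitTensor d r) := by
  classical
  set x0 : Fin d := ⟨0, by omega⟩ with hx0
  set c : Fin d → Fin r → ℂ := fun x i =>
    if x = x0 then (contract (fun x => U x i) T)⁻¹ else 1 with hc
  set A : ℕ → Fin d → Matrix (Fin r) (Fin n) ℂ := fun k x i j =>
    (((Real.exp (-((k : ℝ) * w x i)) : ℝ) : ℂ) * c x i) * U x i j with hA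
  have hval : ∀ (k : ℕ) (f : Fin d → Fin r), restrict (A k) T f =
      ((Real.exp (-((k : ℝ) * ∑ x, w x (f x))) : ℝ) : ℂ) *
        ((∏ x, c x (f x)) * contract (fun x => U x (f x)) T) := by
    intro k f
    have e1 : restrict (A k) T f = (∏ x, (((Real.exp (-((k : ℝ) * w x (f x))) : ℝ) : ℂ) *
        c x (f x))) * contract (fun x => U x (f x)) T :=
      contract_smul (fun x => (((Real.exp (-((k : ℝ) * w x (f x))) : ℝ) : ℂ) * c x (f x)))
        (fun x => U x (f x)) T
    rw [e1, Finset.prod_mul_distrib, mul_assoc]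
    congr 1
    rw [← Complex.ofReal_prod, ← Real.exp_sum, Finset.sum_neg_distrib, ← Finset.mul_sum]
  refine mem_closure_of_tendsto (f := fun k : ℕ => restrict (A k) T) (b := atTop) ?_
    (Eventually.of_forall fun k => ⟨A k, rfl⟩)
  rw [tendsto_pi_nhds]
  intro f
  simp only [hval]
  by_cases hf : ∀ x y, f x = f y
  · have hfc : f = fun _ => f x0 := funext fun x => hf x x0
    have hs : ∑ x, w x (f x) = 0 := by
      rw [hfc]; exact hw (f x0)
    have hu : unitTensor d r f = 1 := if_pos hf
    have hcp : ∏ x, c x (f x) = (contract (fun x => U x (f x0)) T)⁻¹ := by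
      rw [Finset.prod_eq_single x0]
      · simp [hc]
      · intro b _ hb
        simp [hc, hb]
      · intro h; exact absurd (Finset.mem_univ _) h
    have hct : contract (fun x => U x (f x)) T = contract (fun x => U x (f x0)) T := by
      congr 1
      funext x
      rw [hf x x0]
    rw [hs, hu, hcp, hct, inv_mul_cancel₀ (h1 (f x0))]
    simp
  · have hu : unitTensor d r f = 0 := if_neg hf
    rw [hu]
    by_cases hs : ∑ x, w x (f x) ≤ 0
    · rw [h0 f hf hs]
      simp
    · push Not at hs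
      have h2 : Tendsto (fun k : ℕ => Real.exp (-((k : ℝ) * ∑ x, w x (f x)))) atTop (𝓝 0) := by
        refine Real.tendsto_exp_neg_atTop_nhds_zero.comp ?_
        exact Tendsto.atTop_mul_const hs tendsto_natCast_atTop_atTop
      have h3 : Tendsto (fun k : ℕ => ((Real.exp (-((k : ℝ) * ∑ x, w x (f x))) : ℝ) : ℂ))
          atTop (𝓝 ((0 : ℝ) : ℂ)) := (Complex.continuous_ofReal.tendsto 0).comp h2
      have h4 := h3.mul_const ((∏ x, c x (f x)) * contract (fun x => U x (f x)) T)
      rw [Complex.ofReal_zero, zero_mul] at h4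
      exact h4

/-- multiplicative weights can be replaced by a zero-sum weight system with fewer zeros -/
theorem exists_zeroSum_of_prod {d r : ℕ} (hd : 1 ≤ d) (P : Fin d → Fin r → ℝ) (c₀ : ℝ)
    (hc : 0 < c₀) (hP : ∀ x i, 0 < P x i) (h : ∀ i, c₀ ≤ ∏ x, P x i) :
    ∃ w : Fin d → Fin r → ℝ, ZeroSum w ∧
      ∀ f : Fin d → Fin r, ∑ x, w x (f x) ≤ 0 → c₀ ≤ ∏ x, P x (f x) := by
  have hd0 : (0 : ℝ) < d := by exact_mod_cast hd
  refine ⟨fun x l => -Real.log (P x l) + (1 / (d : ℝ)) * ∑ y, Real.log (P y l), ?_, ?_⟩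
  · intro l
    rw [Finset.sum_add_distrib, Finset.sum_neg_distrib, Finset.sum_const, Finset.card_univ,
      Fintype.card_fin, nsmul_eq_mul]
    field_simp
    ring
  · intro f hf
    have hlog : ∀ l, Real.log c₀ ≤ ∑ y, Real.log (P y l) := by
      intro l
      rw [← Real.log_prod fun y _ => (hP y l).ne']
      exact Real.log_le_log hc (h l)
    have hsum : (d : ℝ) * Real.log c₀ ≤ ∑ x, ∑ y, Real.log (P y (f x)) := by
      calc (d : ℝ) * Real.log c₀ = ∑ _x : Fin d, Real.log c₀ := by
            rw [Finset.sum_const, Finset.card_univ, Fintype.card_fin, nsmul_eq_mul]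
        _ ≤ _ := Finset.sum_le_sum fun x _ => hlog (f x)
    rw [Finset.sum_add_distrib, Finset.sum_neg_distrib, ← Finset.mul_sum] at hf
    have h1 : Real.log c₀ ≤ (1 / (d : ℝ)) * ∑ x, ∑ y, Real.log (P y (f x)) := by
      rw [one_div, ← div_eq_inv_mul, le_div_iff₀ hd0]
      linarith
    have h2 : Real.log c₀ ≤ ∑ x, Real.log (P x (f x)) := by linarith
    rw [← Real.log_prod fun x _ => (hP x (f x)).ne'] at h2
    exact (Real.log_le_log_iff hc (Finset.prod_pos fun x _ => hP x (f x))).mp h2

/-- zero-sum weights as multiplicative weights, and the counting lemma for them -/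
theorem count_wSet {d r : ℕ} (hd : 2 ≤ d) (w : Fin d → Fin r → ℝ) (hw : ZeroSum w) :
    ∑ k ∈ Finset.range r, ((k + 1) ^ (d - 1) - 1) ≤ (wSet w fun _ => Finset.univ).card := by
  classical
  have h := count_nonneg hd (fun x l => Real.exp (-w x l)) (fun x l => Real.exp_pos _) 1 one_pos
    (fun l => by
      rw [← Real.exp_sum, Finset.sum_neg_distrib, hw l, neg_zero, Real.exp_zero])
  refine h.trans (Finset.card_le_card ?_)
  intro f hf
  rw [Finset.mem_filter] at hf
  unfold wSet
  rw [Finset.mem_filter]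
  refine ⟨by simp, hf.2.1, ?_⟩
  have h2 := hf.2.2
  rw [← Real.exp_sum, Finset.sum_neg_distrib, Real.one_le_exp_iff] at h2
  linarith

end Pool.Agent.BSub
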