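import Pool.Agent.Lib.MP_79bff1_ag.WDefs
import Pool.Agent.Lib.MP_79bff1_ag.WDegen
import Pool.Agent.Lib.MP_79bff1_ag.Tangent
import Pool.Agent.Lib.MP_79bff1_ag.Vander
import Pool.Agent.Lib.MP_79bff1_ag.Assign
import Pool.Agent.Lib.MP_79bff1_ag.Basic

set_option autoImplicit false

namespace Pool.Agent.BSub

/-- composition with the inclusion of labels -/
def wlEmb {d n r : ℕ} (hr : r ≤ n) : (Fin d → Fin r) ↪ (Fin d → Fin n) :=
  ⟨fun f x => Fin.castLE hr (f x), fun f g h => by
    funext x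
    exact Fin.castLE_injective hr (congrFun h x)⟩

/-- the zero pattern attached to a weight system -/
noncomputable def wlSet {d n r : ℕ} (hr : r ≤ n) (w : Fin d → Fin r → ℝ) :
    Finset (Fin d → Fin n) :=
  (wSet w fun _ => Finset.univ).map (wlEmb hr)

theorem wl_mem_wSet {d r : ℕ} (w : Fin d → Fin r → ℝ) (B : Fin d → Finset (Fin r))
    (f : Fin d → Fin r) :
    f ∈ wSet w B ↔ (∀ x, f x ∈ B x) ∧ (¬ ∀ x y, f x = f y) ∧ ∑ x, w x (f x) ≤ 0 := by
  unfold wSet
  rw [Finset.mem_filter, Fintype.mem_piFinset]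

theorem wl_mem {d n r : ℕ} (hr : r ≤ n) (w : Fin d → Fin r → ℝ) (g : Fin d → Fin n) :
    g ∈ wlSet hr w ↔ ∃ f ∈ wSet w (fun _ => Finset.univ), (fun x => Fin.castLE hr (f x)) = g := by
  unfold wlSet
  rw [Finset.mem_map]
  rfl

theorem wl_lt {d n r : ℕ} (hr : r ≤ n) (w : Fin d → Fin r → ℝ) :
    ∀ f ∈ wlSet hr w, ∀ x, (f x).val < r := by
  intro f hf x
  obtain ⟨g, -, rfl⟩ := (wl_mem hr w f).1 hf
  exact (g x).isLt

theorem wl_hall {d n r C : ℕ} (hr : r ≤ n) (w : Fin d → Fin r → ℝ)
    (hcard : ∀ B : Fin d → Finset (Fin r), (wSet w B).card ≤ C * ∑ x, (B x).card)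
    (S : Fin d → Finset (Fin n)) :
    ((wlSet hr w).filter fun f => ∀ x, f x ∈ S x).card ≤ C * ∑ x, (S x).card := by
  classical
  let B : Fin d → Finset (Fin r) := fun x => Finset.univ.filter fun l => Fin.castLE hr l ∈ S x
  have h1 : ((wlSet hr w).filter fun f => ∀ x, f x ∈ S x) ⊆ (wSet w B).map (wlEmb hr) := by
    intro g hg
    rw [Finset.mem_filter] at hg
    obtain ⟨f, hf, rfl⟩ := (wl_mem hr w g).1 hg.1
    rw [Finset.mem_map]
    refine ⟨f, ?_, rfl⟩
    rw [wl_mem_wSet] at hf ⊢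
    refine ⟨fun x => ?_, hf.2⟩
    rw [Finset.mem_filter]
    exact ⟨Finset.mem_univ _, hg.2 x⟩
  have h2 : ∀ x, (B x).card ≤ (S x).card := by
    intro x
    refine Finset.card_le_card_of_injOn (Fin.castLE hr) ?_
      (Fin.castLE_injective hr).injOn
    intro l hl
    exact (Finset.mem_filter.1 hl).2
  calc ((wlSet hr w).filter fun f => ∀ x, f x ∈ S x).card
      ≤ ((wSet w B).map (wlEmb hr)).card := Finset.card_le_card h1
    _ = (wSet w B).card := Finset.card_map _
    _ ≤ C * ∑ x, (B x).card := hcard B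
    _ ≤ C * ∑ x, (S x).card := Nat.mul_le_mul_left _ (Finset.sum_le_sum fun x _ => h2 x)

theorem wl_contract_single {d n : ℕ} (g : Fin d → Fin n) (S : Tensor d n) :
    contract (fun x j => if g x = j then 1 else 0) S = S g := by
  unfold contract
  rw [Finset.sum_eq_single g]
  · simp
  · intro h _ hne
    have : ∃ x, g x ≠ h x := by
      by_contra hcon
      push Not at hcon
      exact hne (funext fun x => (hcon x).symm)
    obtain ⟨x, hx⟩ := this
    rw [Finset.prod_eq_zero (Finset.mem_univ x) (if_neg hx), zero_mul]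
  · intro h
    exact absurd (Finset.mem_univ _) h

/-- the tensor in the rows of `1 - X` -/
theorem wl_rows {d n r : ℕ} (hr : r ≤ n) (X : Fin d → Matrix (Fin n) (Fin n) ℂ) (S : Tensor d n)
    (hX : ∀ x l j, X x l j ≠ 0 → l.val < r ∧ r ≤ j.val) (f : Fin d → Fin r) :
    contract (fun x => ((1 - X x).submatrix (Fin.castLE hr) id : Matrix (Fin r) (Fin n) ℂ) (f x))
      (restrict (fun x => 1 + X x) S) = S fun x => Fin.castLE hr (f x) := by
  have hXX : ∀ x, X x * X x = 0 := by
    intro x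
    ext l j
    rw [Matrix.mul_apply, Matrix.zero_apply]
    apply Finset.sum_eq_zero
    intro i _
    by_contra h
    have h1 := hX x l i (left_ne_zero_of_mul h)
    have h2 := hX x i j (right_ne_zero_of_mul h)
    omega
  have hinv : ∀ x, (1 - X x) * (1 + X x) = 1 := by
    intro x
    have : (1 - X x) * (1 + X x) = 1 - X x * X x := by noncomm_ring
    rw [this, hXX, sub_zero]
  have h1 : contract (fun x => ((1 - X x).submatrix (Fin.castLE hr) id :
      Matrix (Fin r) (Fin n) ℂ) (f x)) (restrict (fun x => 1 + X x) S) =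
      restrict (fun x => ((1 - X x).submatrix (Fin.castLE hr) id : Matrix (Fin r) (Fin n) ℂ))
        (restrict (fun x => 1 + X x) S) f := rfl
  rw [h1, ← restrict_mul]
  have h2 : restrict (fun x => ((1 - X x).submatrix (Fin.castLE hr) id :
      Matrix (Fin r) (Fin n) ℂ) * (1 + X x)) S f =
      contract (fun x j => if Fin.castLE hr (f x) = j then 1 else 0) S := by
    unfold restrict
    congr 1
    funext x j
    have h3 : (((1 - X x).submatrix (Fin.castLE hr) id : Matrix (Fin r) (Fin n) ℂ) *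
        (1 + X x) : Matrix (Fin r) (Fin n) ℂ) (f x) j =
        ((1 - X x) * (1 + X x) : Matrix (Fin n) (Fin n) ℂ) (Fin.castLE hr (f x)) j := by
      rw [Matrix.mul_apply, Matrix.mul_apply]
      rfl
    exact h3.trans (by rw [hinv, Matrix.one_apply])
  rw [h2, wl_contract_single]

theorem generic_lower_weights {d n r C : ℕ} (hd : 2 ≤ d) (H : Feasible d r C)
    (hn : C + 1 + d * r ≤ n) :
    Generic fun T : Tensor d n => Degenerates T (unitTensor d r) := by
  obtain ⟨w, hw, hcard⟩ := H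
  have hdr : d * r = (d - 1) * r + r := by
    obtain ⟨e, rfl⟩ : ∃ e, d = e + 1 := ⟨d - 1, by omega⟩
    rw [Nat.add_sub_cancel]
    ring
  have hr : r ≤ n := by
    rw [hdr] at hn
    omega
  have hconst : ∀ l : Fin n, (fun _ : Fin d => l) ∉ wlSet hr w := by
    intro l hl
    obtain ⟨f, hf, hfl⟩ := (wl_mem hr w _).1 hl
    rw [wl_mem_wSet] at hf
    apply hf.2.1
    intro x y
    apply Fin.castLE_injective hr
    rw [congrFun hfl x, congrFun hfl y]
  obtain ⟨w', lam, θ, hw', hθ, hload⟩ := exists_exponents (n := n) (le_trans one_le_two hd)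
    (wlSet hr w) C r (wl_lt hr w) (wl_hall hr w hcard)
  obtain ⟨S₀, hS0, hS1⟩ := exists_tensor_of_exponents hr (wlSet hr w) (wl_lt hr w) w' hw' lam θ hθ
    (fun x l => (hload x l).trans (by omega))
  refine (generic_zeros r (wlSet hr w) S₀ (fun f hf => hS0 f (wl_lt hr w f hf))
    (fun l _ => hconst l) hS1).mono ?_
  rintro A ⟨X, S, hX, hS, hS', rfl⟩
  refine degenerates_of_rows (le_trans one_le_two hd) _
    (fun x => (1 - X x).submatrix (Fin.castLE hr) id) w hw ?_ ?_
  · intro f hf hsum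
    rw [wl_rows hr X S hX f]
    apply hS
    rw [wl_mem]
    refine ⟨f, ?_, rfl⟩
    rw [wl_mem_wSet]
    exact ⟨fun _ => Finset.mem_univ _, hf, hsum⟩
  · intro i
    have h := wl_rows hr X S hX fun _ => i
    rw [h]
    exact hS' _ i.isLt

end Pool.Agent.BSub
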