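import Pool.Agent.Lib.MP_79bff1_ag.WDefs
import Pool.Agent.Lib.MP_79bff1_ag.WDegen
import Pool.Agent.Lib.MP_79bff1_ag.Upper

/-!
Upper bounds for the generic border subrank in terms of weight systems.
-/

set_option autoImplicit false

namespace Pool.Agent.BSub

theorem generic_upper_weights {d n r : ℕ} (hd : 2 ≤ d)
    (H : ∀ w : Fin d → Fin r → ℝ, ZeroSum w → ∃ B : Fin d → Finset (Fin r),
      ∑ x, ((B x).card * n - (B x).card * ((B x).card + 1) / 2) < (wSet w B).card) :
    Generic fun T : Tensor d n => ¬ Degenerates T (unitTensor d r) := by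
  apply generic_upper_box hd
  intro P c₀ hc hP h
  obtain ⟨w, hw, hwP⟩ := exists_zeroSum_of_prod (by omega) P c₀ hc hP h
  obtain ⟨B, hB⟩ := H w hw
  refine ⟨B, lt_of_lt_of_le hB (Finset.card_le_card ?_)⟩
  intro f hf
  unfold wSet at hf
  rw [Finset.mem_filter] at hf
  rw [Finset.mem_filter]
  exact ⟨hf.1, hf.2.1, hwP f hf.2.2⟩

theorem generic_upper_feasible {d n r : ℕ} (hd : 2 ≤ d) (H : ¬ Feasible d r n) :
    Generic fun T : Tensor d n => ¬ Degenerates T (unitTensor d r) := by
  apply generic_upper_weights hd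
  intro w hw
  by_contra hcon
  apply H
  refine ⟨w, hw, fun B => ?_⟩
  by_contra hB
  apply hcon
  refine ⟨B, lt_of_le_of_lt ?_ (not_le.1 hB)⟩
  rw [Finset.mul_sum]
  refine Finset.sum_le_sum fun x _ => ?_
  rw [mul_comm n]
  exact Nat.sub_le _ _

end Pool.Agent.BSub
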