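import Mathlib.Analysis.Complex.Basic
import Mathlib.Analysis.Normed.Ring.Basic
import Mathlib.LinearAlgebra.Matrix.NonsingularInverse
import Mathlib.Order.Filter.Ultrafilter.Basic
import Mathlib.Topology.Instances.Matrix
import Mathlib.Topology.MetricSpace.ProperSpace
import Mathlib.Analysis.Normed.Group.Constructions
import Mathlib.Topology.Compactness.Compact
import Pool.Agent.Lib.MP_79bff1_ag.Defs
import Pool.Agent.Lib.MP_79bff1_ag.Basic
import Pool.Agent.Lib.MP_79bff1_ag.Torus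
import Pool.Agent.Lib.MP_79bff1_ag.Elim

set_option autoImplicit false

namespace Pool.Agent.BSub

/-- continuity of the inverse change of coordinates near the identity -/
theorem nf_eta {d r : ℕ} (ε : ℝ) (hε : 0 < ε) :
    ∃ η : ℝ, 0 < η ∧ ∀ (E : Fin d → Matrix (Fin r) (Fin r) ℂ) (W : Tensor d r),
      (∀ x i j, ‖E x i j - (1 : Matrix (Fin r) (Fin r) ℂ) i j‖ ≤ η) →
      (∀ f, ‖W f - unitTensor d r f‖ ≤ η) →
      (∀ x, (E x).det ≠ 0) ∧
        ∀ f, ‖restrict (fun x => (E x)⁻¹) W f - unitTensor d r f‖ ≤ ε := by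
  classical
  let p₀ : (Fin d → Fin r → Fin r → ℂ) × Tensor d r :=
    (fun _ i j => (1 : Matrix (Fin r) (Fin r) ℂ) i j, unitTensor d r)
  let A : ((Fin d → Fin r → Fin r → ℂ) × Tensor d r) → Fin d → Matrix (Fin r) (Fin r) ℂ :=
    fun p x => Matrix.of (p.1 x)
  have hA : Continuous A := by
    refine continuous_pi fun x => ?_
    exact (continuous_apply x).comp continuous_fst
  have hdet : ∀ x, Continuous fun p => (A p x).det := fun x =>
    ((continuous_apply x).comp hA).matrix_det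
  have hadj : ∀ x, Continuous fun p => (A p x).adjugate := fun x =>
    ((continuous_apply x).comp hA).matrix_adjugate
  have hA0 : ∀ x, A p₀ x = 1 := fun x => rfl
  have hinv : ContinuousAt (fun p => (fun x => (A p x)⁻¹ : Fin d → Matrix (Fin r) (Fin r) ℂ)) p₀ := by
    refine continuousAt_pi.2 fun x => ?_
    have h1 : (fun p => (A p x)⁻¹) = fun p => ((A p x).det)⁻¹ • (A p x).adjugate := by
      funext p
      rw [Matrix.inv_def, Ring.inverse_eq_inv']
    rw [h1]
    refine ContinuousAt.smul (ContinuousAt.inv₀ (hdet x).continuousAt ?_) (hadj x).continuousAt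
    rw [hA0, Matrix.det_one]
    exact one_ne_zero
  let G : ((Fin d → Fin r → Fin r → ℂ) × Tensor d r) → Tensor d r :=
    fun p => restrict (fun x => (A p x)⁻¹) p.2
  have hG : ContinuousAt G p₀ := by
    have := (continuous_restrict (d := d) (n := r) (q := r)).continuousAt
      (x := ((fun x => (A p₀ x)⁻¹ : Fin d → Matrix (Fin r) (Fin r) ℂ), p₀.2))
    exact ContinuousAt.comp (f := fun p => ((fun x => (A p x)⁻¹ :
      Fin d → Matrix (Fin r) (Fin r) ℂ), p.2)) this (hinv.prodMk continuous_snd.continuousAt)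
  have hG0 : G p₀ = unitTensor d r := by
    have h1 : (fun x => (A p₀ x)⁻¹) = fun _ => (1 : Matrix (Fin r) (Fin r) ℂ) := by
      funext x
      rw [hA0, inv_one]
    show restrict (fun x => (A p₀ x)⁻¹) p₀.2 = _
    rw [h1, restrict_one]
  have hev1 : ∀ᶠ p in nhds p₀, ∀ x, (A p x).det ≠ 0 := by
    rw [Filter.eventually_all]
    intro x
    refine (hdet x).continuousAt.eventually_ne ?_
    rw [hA0, Matrix.det_one]
    exact one_ne_zero
  have hev2 : ∀ᶠ p in nhds p₀, dist (G p) (unitTensor d r) < ε := by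
    have := hG
    rw [ContinuousAt, hG0] at this
    exact (Metric.tendsto_nhds.1 this) ε hε
  obtain ⟨δ, hδ, hδ'⟩ := Metric.eventually_nhds_iff.1 (hev1.and hev2)
  refine ⟨δ / 2, half_pos hδ, fun E W hE hW => ?_⟩
  have hdist : dist ((fun x i j => E x i j, W) : (Fin d → Fin r → Fin r → ℂ) × Tensor d r) p₀ < δ := by
    refine lt_of_le_of_lt ?_ (half_lt_self hδ)
    rw [Prod.dist_eq]
    refine max_le ?_ ?_
    · refine (dist_pi_le_iff (half_pos hδ).le).2 fun x => ?_
      refine (dist_pi_le_iff (half_pos hδ).le).2 fun i => ?_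
      refine (dist_pi_le_iff (half_pos hδ).le).2 fun j => ?_
      rw [dist_eq_norm]
      exact hE x i j
    · refine (dist_pi_le_iff (half_pos hδ).le).2 fun f => ?_
      rw [dist_eq_norm]
      exact hW f
  obtain ⟨h1, h2⟩ := hδ' hdist
  refine ⟨h1, fun f => ?_⟩
  rw [← dist_eq_norm]
  exact (dist_le_pi_dist (G (fun x i j => E x i j, W)) (unitTensor d r) f).trans h2.le

/-- for every `ε` there are `D`, `U` in normal form with `restrict (D U) T` close to the unit -/
theorem exists_approx {d n r : ℕ} (hd : 2 ≤ d) (T : Tensor d n)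
    (h : Degenerates T (unitTensor d r)) (ε : ℝ) (hε : 0 < ε) :
    ∃ (l : Fin d → (Fin r ≃ Fin r)) (c : Fin d → (Fin r ↪ Fin n)) (D : Fin d → Fin r → ℂ)
      (U : Fin d → Matrix (Fin r) (Fin n) ℂ),
      (∀ x i, D x i ≠ 0) ∧ (∀ x i j, ‖U x i j‖ ≤ 1) ∧ (∀ x t, U x (l x t) (c x t) = 1) ∧
      (∀ x s t, s < t → U x (l x t) (c x s) = 0) ∧
      ∀ f, ‖(∏ x, D x (f x)) * contract (fun x => U x (f x)) T - unitTensor d r f‖ ≤ ε := by
  classical
  obtain ⟨η, hη, hE⟩ := nf_eta (d := d) (r := r) ε hε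
  have hε'0 : 0 < min η (1 / 2 : ℝ) := lt_min hη (by norm_num)
  have hε'1 : min η (1 / 2 : ℝ) < 1 := lt_of_le_of_lt (min_le_right _ _) (by norm_num)
  obtain ⟨K, hK, hK'⟩ := exists_torus d r n hd (min η (1 / 2)) hε'0 hε'1
  have hKd : 0 < K ^ d := pow_pos (by linarith) d
  have hr1 : (0 : ℝ) < (r : ℝ) + 1 := by positivity
  have hm1 : 0 < min η (1 : ℝ) := lt_min hη one_pos
  set δ : ℝ := min η 1 / (((r : ℝ) + 1) * K ^ d) with hδ
  have hδ0 : 0 < δ := by rw [hδ]; positivity
  have hδ1 : K ^ d * δ = min η 1 / ((r : ℝ) + 1) := by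
    rw [hδ]
    field_simp
  have hδ2 : K ^ d * δ ≤ η := by
    rw [hδ1]
    refine (div_le_self hm1.le (by linarith [Nat.cast_nonneg (α := ℝ) r])).trans (min_le_left _ _)
  have hδ3 : (r : ℝ) * (K ^ d * δ) < 1 := by
    rw [hδ1, ← mul_div_assoc, div_lt_one hr1]
    have h1 : (r : ℝ) * min η 1 ≤ (r : ℝ) * 1 :=
      mul_le_mul_of_nonneg_left (min_le_right _ _) (Nat.cast_nonneg r)
    linarith
  obtain ⟨S, ⟨A, rfl⟩, hA⟩ := Metric.mem_closure_iff.1 h δ hδ0
  have hA' : ∀ f, ‖restrict A T f - unitTensor d r f‖ ≤ δ := by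
    intro f
    rw [← dist_eq_norm, dist_comm]
    exact (dist_le_pi_dist _ _ f).trans hA.le
  obtain ⟨g, hg0, hgK, hg1, hsep⟩ := hK' A
  set A' : Fin d → Matrix (Fin r) (Fin n) ℂ := fun x i j => g x i * A x i j with hA'def
  have hr : ∀ f, restrict A' T f = (∏ x, g x (f x)) * restrict A T f := fun f =>
    contract_smul (fun x => g x (f x)) (fun x => A x (f x)) T
  have hunit : ∀ f : Fin d → Fin r,
      (∏ x, g x (f x)) * unitTensor d r f = unitTensor d r f := by
    intro f
    by_cases hf : ∀ x y, f x = f y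
    · have h1 : ∏ x, g x (f x) = 1 := by
        rw [← hg1 (f ⟨0, by omega⟩)]
        exact Finset.prod_congr rfl fun x _ => by rw [hf x ⟨0, by omega⟩]
      rw [h1, one_mul]
    · simp [unitTensor, hf]
  have hprod : ∀ f : Fin d → Fin r, ‖∏ x, g x (f x)‖ ≤ K ^ d := by
    intro f
    rw [norm_prod]
    calc ∏ x, ‖g x (f x)‖ ≤ ∏ _x : Fin d, K :=
          Finset.prod_le_prod (fun _ _ => norm_nonneg _) fun x _ => hgK x (f x)
      _ = K ^ d := by simp
  have hclose : ∀ f, ‖restrict A' T f - unitTensor d r f‖ ≤ K ^ d * δ := by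
    intro f
    have h1 : restrict A' T f - unitTensor d r f =
        (∏ x, g x (f x)) * (restrict A T f - unitTensor d r f) := by
      rw [mul_sub, hunit, hr]
    rw [h1, norm_mul]
    exact mul_le_mul (hprod f) (hA' f) (norm_nonneg _) hKd.le
  have hind : ∀ x, LinearIndependent ℂ (fun i => A' x i) := fun x =>
    rows_independent hd A' T (fun f => lt_of_le_of_lt
      (mul_le_mul_of_nonneg_left (hclose f) (Nat.cast_nonneg r)) hδ3) x
  have hel := fun x => exists_elimination (A' x) (hind x) (min η (1 / 2)) hε'0 hε'1 (hsep x)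
  choose l c E D U hfac hD hE1 hE2 hU1 hU2 hU3 using hel
  have hEclose : ∀ x i j, ‖E x i j - (1 : Matrix (Fin r) (Fin r) ℂ) i j‖ ≤ η := by
    intro x i j
    by_cases hij : i = j
    · subst hij
      rw [hE1, Matrix.one_apply_eq, sub_self, norm_zero]
      exact hη.le
    · rw [Matrix.one_apply_ne hij, sub_zero]
      exact (hE2 x i j hij).trans (min_le_left _ _)
  obtain ⟨hdet, hfin⟩ := hE E (restrict A' T) hEclose fun f => (hclose f).trans hδ2
  refine ⟨l, c, D, U, hD, hU1, hU2, hU3, fun f => ?_⟩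
  have h1 : restrict (fun x => (E x)⁻¹) (restrict A' T) =
      restrict (fun x => Matrix.diagonal (D x)) (restrict U T) := by
    rw [← restrict_mul, ← restrict_mul]
    congr 1
    funext x
    rw [hfac x, Matrix.nonsing_inv_mul_cancel_left]
    exact (hdet x).isUnit
  have h2 := hfin f
  rw [h1, restrict_diagonal] at h2
  exact h2

theorem nf_contract_bound {d n : ℕ} (v : Fin d → Fin n → ℂ) (T : Tensor d n)
    (hv : ∀ x j, ‖v x j‖ ≤ 1) : ‖contract v T‖ ≤ ∑ f, ‖T f‖ := by
  unfold contract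
  refine (norm_sum_le _ _).trans (Finset.sum_le_sum fun f _ => ?_)
  rw [norm_mul, norm_prod]
  have h1 : ∏ x, ‖v x (f x)‖ ≤ 1 :=
    Finset.prod_le_one (fun _ _ => norm_nonneg _) fun x _ => hv x (f x)
  exact mul_le_of_le_one_left (norm_nonneg _) h1

/-- the limit normal form -/
theorem exists_normal {d n r : ℕ} (hd : 2 ≤ d) (T : Tensor d n)
    (h : Degenerates T (unitTensor d r)) :
    ∃ (P : Fin d → Fin r → ℝ) (c₀ : ℝ) (l : Fin d → (Fin r ≃ Fin r))
      (c : Fin d → (Fin r ↪ Fin n)) (U : Fin d → Matrix (Fin r) (Fin n) ℂ),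
      0 < c₀ ∧ (∀ x i, 0 < P x i) ∧ (∀ i, c₀ ≤ ∏ x, P x i) ∧ (∀ x t, U x (l x t) (c x t) = 1) ∧
      (∀ x s t, s < t → U x (l x t) (c x s) = 0) ∧
      ∀ f : Fin d → Fin r, (¬ ∀ x y, f x = f y) → c₀ ≤ ∏ x, P x (f x) →
        contract (fun x => U x (f x)) T = 0 := by
  classical
  have happ := fun m : ℕ => exists_approx hd T h (1 / ((m : ℝ) + 2)) (by positivity)
  choose l c D U hD hU1 hU2 hU3 hcl using happ
  set C : ℝ := ∑ f, ‖T f‖ + 1 with hC
  have hC0 : 0 < C := by
    have : 0 ≤ ∑ f, ‖T f‖ := Finset.sum_nonneg fun _ _ => norm_nonneg _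
    linarith
  have hbd : ∀ m (f : Fin d → Fin r), ‖contract (fun x => U m x (f x)) T‖ ≤ C := by
    intro m f
    refine (nf_contract_bound _ T fun x j => hU1 m x (f x) j).trans ?_
    linarith
  set c₀ : ℝ := 1 / (2 * C) with hc₀
  have hc₀pos : 0 < c₀ := by rw [hc₀]; positivity
  have hdiag : ∀ m i, c₀ ≤ ∏ x, ‖D m x i‖ := by
    intro m i
    have h1 := hcl m fun _ => i
    have h2 : unitTensor d r (fun _ => i) = 1 := by simp [unitTensor]
    rw [h2] at h1
    have h3 : 1 / ((m : ℝ) + 2) ≤ 1 / 2 := by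
      apply one_div_le_one_div_of_le (by norm_num)
      linarith [Nat.cast_nonneg (α := ℝ) m]
    have h4 : (1 : ℝ) ≤ ‖(∏ x, D m x i) * contract (fun x => U m x i) T‖ + 1 / 2 := by
      have h5 : (1 : ℂ) = (∏ x, D m x i) * contract (fun x => U m x i) T -
          ((∏ x, D m x i) * contract (fun x => U m x i) T - 1) := by ring
      calc (1 : ℝ) = ‖(1 : ℂ)‖ := by simp
        _ ≤ ‖(∏ x, D m x i) * contract (fun x => U m x i) T‖ +
            ‖(∏ x, D m x i) * contract (fun x => U m x i) T - 1‖ := by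
          conv_lhs => rw [h5]
          exact norm_sub_le _ _
        _ ≤ _ := by linarith
    rw [norm_mul, norm_prod] at h4
    have h6 : (∏ x, ‖D m x i‖) * ‖contract (fun x => U m x i) T‖ ≤ (∏ x, ‖D m x i‖) * C :=
      mul_le_mul_of_nonneg_left (hbd m fun _ => i)
        (Finset.prod_nonneg fun _ _ => norm_nonneg _)
    rw [hc₀, div_le_iff₀ (by positivity)]
    nlinarith
  let Λ : ℕ → Finset (Fin d → Fin r) := fun m =>
    Finset.univ.filter fun f => (¬ ∀ x y, f x = f y) ∧ c₀ ≤ ∏ x, ‖D m x (f x)‖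
  let F : ℕ → (Fin d → (Fin r ≃ Fin r)) × (Fin d → (Fin r ↪ Fin n)) ×
    Finset (Fin d → Fin r) := fun m => (l m, c m, Λ m)
  let 𝒰 : Ultrafilter ℕ := Filter.hyperfilter ℕ
  obtain ⟨y, hy⟩ := Ultrafilter.eq_pure_of_finite (𝒰.map F)
  have hyF : ∀ᶠ m in (𝒰 : Filter ℕ), F m = y := by
    have h1 : ({y} : Set _) ∈ 𝒰.map F := by
      rw [hy]
      exact Ultrafilter.mem_pure.2 rfl
    exact Ultrafilter.mem_map.1 h1
  let V : ℕ → Fin d → Fin r → Fin n → ℂ := fun m x i j => U m x i j
  have hVball : ∀ m, V m ∈ Metric.closedBall (0 : Fin d → Fin r → Fin n → ℂ) 1 := by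
    intro m
    rw [mem_closedBall_zero_iff]
    refine (pi_norm_le_iff_of_nonneg zero_le_one).2 fun x => ?_
    refine (pi_norm_le_iff_of_nonneg zero_le_one).2 fun i => ?_
    refine (pi_norm_le_iff_of_nonneg zero_le_one).2 fun j => ?_
    exact hU1 m x i j
  obtain ⟨W, -, hW⟩ := isCompact_iff_ultrafilter_le_nhds.1
    (isCompact_closedBall (0 : Fin d → Fin r → Fin n → ℂ) 1) (𝒰.map V) (by
      rw [Filter.le_principal_iff]
      exact Ultrafilter.mem_map.2 (Filter.Eventually.of_forall hVball))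
  have hWt : Filter.Tendsto V (𝒰 : Filter ℕ) (nhds W) := hW
  have hent : ∀ x i j, Filter.Tendsto (fun m => U m x i j) (𝒰 : Filter ℕ) (nhds (W x i j)) := by
    intro x i j
    exact ((tendsto_pi_nhds.1 ((tendsto_pi_nhds.1 ((tendsto_pi_nhds.1 hWt) x)) i)) j)
  have heps : Filter.Tendsto (fun m : ℕ => 1 / ((m : ℝ) + 2)) (𝒰 : Filter ℕ) (nhds 0) := by
    have h1 : Filter.Tendsto (fun m : ℕ => 1 / ((m : ℝ) + 2)) Filter.atTop (nhds 0) := by
      have h2 : Filter.Tendsto (fun m : ℕ => (m : ℝ) + 2) Filter.atTop Filter.atTop :=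
        Filter.tendsto_atTop_add_const_right _ _ tendsto_natCast_atTop_atTop
      have h3 := h2.inv_tendsto_atTop
      refine h3.congr fun m => ?_
      rw [Pi.inv_apply, one_div]
    exact h1.mono_left Nat.hyperfilter_le_atTop
  obtain ⟨m₀, hm₀⟩ := hyF.exists
  have hl : ∀ᶠ m in (𝒰 : Filter ℕ), l m = l m₀ := hyF.mono fun m hm => by
    have := hm.trans hm₀.symm
    exact congrArg Prod.fst this
  have hc : ∀ᶠ m in (𝒰 : Filter ℕ), c m = c m₀ := hyF.mono fun m hm => by
    have := hm.trans hm₀.symm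
    exact congrArg (fun q => q.2.1) this
  have hΛ : ∀ᶠ m in (𝒰 : Filter ℕ), Λ m = Λ m₀ := hyF.mono fun m hm => by
    have := hm.trans hm₀.symm
    exact congrArg (fun q => q.2.2) this
  refine ⟨fun x i => ‖D m₀ x i‖, c₀, l m₀, c m₀, fun x => Matrix.of (W x), hc₀pos,
    fun x i => norm_pos_iff.2 (hD m₀ x i), hdiag m₀, ?_, ?_, ?_⟩
  · intro x t
    refine tendsto_nhds_unique (hent x (l m₀ x t) (c m₀ x t)) ?_
    refine Filter.Tendsto.congr' ?_ (tendsto_const_nhds (x := (1 : ℂ)))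
    filter_upwards [hl, hc] with m h1 h2
    rw [← h1, ← h2]
    exact (hU2 m x t).symm
  · intro x s t hst
    refine tendsto_nhds_unique (hent x (l m₀ x t) (c m₀ x s)) ?_
    refine Filter.Tendsto.congr' ?_ (tendsto_const_nhds (x := (0 : ℂ)))
    filter_upwards [hl, hc] with m h1 h2
    rw [← h1, ← h2]
    exact (hU3 m x s t hst).symm
  · intro f hf1 hf2
    have hmem : f ∈ Λ m₀ := Finset.mem_filter.2 ⟨Finset.mem_univ _, hf1, hf2⟩
    have hcont : Continuous fun Y : Fin d → Fin r → Fin n → ℂ =>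
        contract (fun x => Y x (f x)) T := by
      unfold contract
      refine continuous_finsetSum _ fun g _ => Continuous.mul ?_ continuous_const
      refine continuous_finsetProd _ fun x _ => ?_
      exact (continuous_apply (g x)).comp ((continuous_apply (f x)).comp (continuous_apply x))
    have hlim : Filter.Tendsto (fun m => ‖contract (fun x => U m x (f x)) T‖) (𝒰 : Filter ℕ)
        (nhds ‖contract (fun x => W x (f x)) T‖) :=
      (hcont.continuousAt.tendsto.comp hWt).norm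
    have hle : ∀ᶠ m in (𝒰 : Filter ℕ),
        ‖contract (fun x => U m x (f x)) T‖ ≤ (1 / ((m : ℝ) + 2)) / c₀ := by
      filter_upwards [hΛ] with m hm
      rw [← hm] at hmem
      have h1 := (Finset.mem_filter.1 hmem).2.2
      have h2 := hcl m f
      have h3 : unitTensor d r f = 0 := by simp [unitTensor, hf1]
      rw [h3, sub_zero, norm_mul, norm_prod] at h2
      rw [le_div_iff₀ hc₀pos, mul_comm]
      exact (mul_le_mul_of_nonneg_right h1 (norm_nonneg _)).trans h2
    have hz : Filter.Tendsto (fun m : ℕ => (1 / ((m : ℝ) + 2)) / c₀) (𝒰 : Filter ℕ) (nhds 0) := by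
      simpa using heps.div_const c₀
    have hfin := le_of_tendsto_of_tendsto hlim hz hle
    exact norm_le_zero_iff.1 hfin

end Pool.Agent.BSub
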