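import Mathlib.Algebra.MvPolynomial.Funext
import Mathlib.Data.Fintype.CardEmbedding
import Pool.Agent.Lib.MP_79bff1_ag.WDefs
import Pool.Agent.Lib.MP_79bff1_ag.WDegen
import Pool.Agent.Lib.MP_79bff1_ag.Dich
import Pool.Agent.Lib.MP_79bff1_ag.Normal
import Pool.Agent.Lib.MP_79bff1_ag.Basic

/-!
# The zero-one law for degeneration of a generic tensor, and the generic border subrank
-/

set_option autoImplicit false

namespace Pool.Agent.BSub

/-- a generic property has a witness -/
theorem zo_witness {d n : ℕ} {p : Tensor d n → Prop} (h : Generic p) : ∃ T, p T := by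
  obtain ⟨P, hP, h⟩ := h
  by_contra hcon
  push Not at hcon
  apply hP
  apply MvPolynomial.funext
  intro T
  rw [map_zero]
  by_contra hT
  exact hcon T (h T hT)

/-- finite intersections of generic properties -/
theorem zo_forall {d n : ℕ} {ι : Type*} [Fintype ι] {p : ι → Tensor d n → Prop}
    (h : ∀ i, Generic (p i)) : Generic fun T => ∀ i, p i T := by
  choose P hP h using h
  refine ⟨∏ i, P i, Finset.prod_ne_zero_iff.mpr fun i _ => hP i, fun T hT i => h i T ?_⟩
  rw [map_prod] at hT
  exact Finset.prod_ne_zero_iff.mp hT i (Finset.mem_univ i)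

theorem zo_of_forall {d n : ℕ} {p : Tensor d n → Prop} (h : ∀ T, p T) : Generic p :=
  ⟨1, one_ne_zero, fun T _ => h T⟩

/-- zero-one law -/
theorem generic_or_not {d n r : ℕ} (hd : 2 ≤ d) :
    (Generic fun T : Tensor d n => Degenerates T (unitTensor d r)) ∨
    (Generic fun T : Tensor d n => ¬ Degenerates T (unitTensor d r)) := by
  classical
  have hconst : ∀ (w : Fin d → Fin r → ℝ) (i : Fin r),
      (fun _ => i) ∉ wSet w (fun _ => Finset.univ) := by
    intro w i h
    unfold wSet at h
    exact (Finset.mem_filter.mp h).2.1 (fun _ _ => rfl)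
  by_cases hA : ∃ (w : Fin d → Fin r → ℝ), ZeroSum w ∧
      Generic fun T : Tensor d n => ∃ U : Fin d → Matrix (Fin r) (Fin n) ℂ,
        (∀ f ∈ wSet w (fun _ => Finset.univ), contract (fun x => U x (f x)) T = 0) ∧
          ∀ i, contract (fun x => U x i) T ≠ 0
  · left
    obtain ⟨w, hw, hG⟩ := hA
    refine hG.mono ?_
    rintro T ⟨U, hU0, hU1⟩
    refine degenerates_of_rows (by omega) T U w hw ?_ hU1
    intro f hf hfw
    apply hU0
    unfold wSet
    rw [Finset.mem_filter]
    exact ⟨Fintype.mem_piFinset.mpr (fun x => Finset.mem_univ _), hf, hfw⟩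
  · right
    push Not at hA
    have hB : ∀ i : (Fin d → (Fin r ≃ Fin r)) × (Fin d → (Fin r ↪ Fin n)) ×
        Finset (Fin d → Fin r), Generic fun T : Tensor d n =>
        (∃ w : Fin d → Fin r → ℝ, ZeroSum w ∧ i.2.2 = wSet w (fun _ => Finset.univ)) →
        ¬ ∃ U : Fin d → Matrix (Fin r) (Fin n) ℂ,
          (∀ x t, U x (i.1 x t) (i.2.1 x t) = 1) ∧
          (∀ x s t, s < t → U x (i.1 x t) (i.2.1 x s) = 0) ∧
          ∀ f ∈ i.2.2, contract (fun x => U x (f x)) T = 0 := by
      rintro ⟨l, c, Λ⟩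
      by_cases hΛ : ∃ w : Fin d → Fin r → ℝ, ZeroSum w ∧ Λ = wSet w (fun _ => Finset.univ)
      · obtain ⟨w, hw, rfl⟩ := hΛ
        rcases generic_dichotomy (n := n) l c (wSet w (fun _ => Finset.univ)) (hconst w) with h | h
        · exact absurd h (hA w hw)
        · exact h.mono fun T hT _ => hT
      · exact zo_of_forall fun T h => absurd h hΛ
    refine (zo_forall hB).mono ?_
    intro T hT hdeg
    obtain ⟨P, c₀, l, c, U, hc₀, hP, hc₀P, hU1, hU2, hU3⟩ := exists_normal hd T hdeg
    obtain ⟨w, hw, hwP⟩ := exists_zeroSum_of_prod (by omega) P c₀ hc₀ hP hc₀P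
    refine hT (l, c, wSet w (fun _ => Finset.univ)) ⟨w, hw, rfl⟩ ⟨U, hU1, hU2, ?_⟩
    intro f hf
    unfold wSet at hf
    obtain ⟨-, hf1, hf2⟩ := Finset.mem_filter.mp hf
    exact hU3 f hf1 (hwP f hf2)

theorem zo_bddAbove {d n : ℕ} (hd : 2 ≤ d) :
    BddAbove {q : ℕ | Generic fun T : Tensor d n => Degenerates T (unitTensor d q)} := by
  refine ⟨n, fun q hq => ?_⟩
  obtain ⟨T, hT⟩ := zo_witness hq
  exact Degenerates.le hd hT

theorem zo_generic_self {d n : ℕ} (hd : 2 ≤ d) :
    Generic fun T : Tensor d n => Degenerates T (unitTensor d (genBorderSubrank d n)) :=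
  Nat.sSup_mem ⟨0, zo_of_forall fun T => degenerates_zero hd T⟩ (zo_bddAbove hd)

theorem le_genBorderSubrank {d n q : ℕ} (hd : 2 ≤ d)
    (h : Generic fun T : Tensor d n => Degenerates T (unitTensor d q)) :
    q ≤ genBorderSubrank d n :=
  le_csSup (zo_bddAbove hd) h

theorem genBorderSubrank_lt {d n q : ℕ} (hd : 2 ≤ d)
    (h : Generic fun T : Tensor d n => ¬ Degenerates T (unitTensor d q)) :
    genBorderSubrank d n < q := by
  by_contra hc
  push Not at hc
  obtain ⟨T, hT1, hT2⟩ := zo_witness ((zo_generic_self hd).and h)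
  exact hT2 (hT1.mono hc)

/-- the border subrank is constant on a nonempty Zariski open set -/
theorem generic_borderSubrank {d n : ℕ} (hd : 2 ≤ d) :
    Generic fun T : Tensor d n => borderSubrank T = genBorderSubrank d n := by
  have h1 : Generic fun T : Tensor d n =>
      ¬ Degenerates T (unitTensor d (genBorderSubrank d n + 1)) := by
    rcases generic_or_not (n := n) (r := genBorderSubrank d n + 1) hd with h | h
    · exact absurd (le_genBorderSubrank hd h) (by omega)
    · exact h
  refine ((zo_generic_self hd).and h1).mono ?_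
  rintro T ⟨hT1, hT2⟩
  have h2 := le_borderSubrank hd hT1
  have h3 := borderSubrank_lt hd hT2
  omega

end Pool.Agent.BSub
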