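import Pool.Agent.Lib.MP_79bff1_ag.WDefs
import Pool.Agent.Lib.MP_79bff1_ag.ZeroOne
import Pool.Agent.Lib.MP_79bff1_ag.WUpper
import Pool.Agent.Lib.MP_79bff1_ag.WLower
import Pool.Agent.Lib.MP_79bff1_ag.Kap
import Pool.Agent.Lib.MP_79bff1_ag.Lower
import Pool.Agent.Lib.MP_79bff1_ag.Asym
import Pool.Agent.Lib.MP_79bff1_ag.Upper
import Pool.Agent.Lib.MP_79bff1_ag.GNum

set_option autoImplicit false

namespace Pool.Agent.BSub

open Filter Topology

/-- sandwich by the combinatorial function -/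
theorem gbs_sandwich {d n r : ℕ} (hd : 2 ≤ d) :
    (kap d r + 1 + d * r ≤ n → r ≤ genBorderSubrank d n) ∧
    (n < kap d r → genBorderSubrank d n < r) := by
  have hd1 : 1 ≤ d := le_trans one_le_two hd
  refine ⟨fun h => ?_, fun h => ?_⟩
  · exact le_genBorderSubrank hd (generic_lower_weights hd ((feasible_iff hd1).mpr le_rfl) h)
  · refine genBorderSubrank_lt hd (generic_upper_feasible hd ?_)
    rw [feasible_iff hd1]
    exact not_le.mpr h

theorem fin_upper_tendsto {e : ℕ} (he : 2 ≤ e) (D : ℝ) {κ : ℝ} {K : ℕ → ℝ}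
    (h : Tendsto (fun r : ℕ => K r / (r : ℝ) ^ e) atTop (𝓝 κ)) :
    Tendsto (fun q : ℕ => (K (q + 1) + 1 + D * ((q : ℝ) + 1)) / (q : ℝ) ^ e) atTop (𝓝 κ) := by
  have h1 : Tendsto (fun q : ℕ => K (q + 1) / ((q : ℝ) + 1) ^ e) atTop (𝓝 κ) := by
    have := (tendsto_add_atTop_iff_nat 1).mpr h
    simpa using this
  have h2 : Tendsto (fun q : ℕ => 1 + 1 / (q : ℝ)) atTop (𝓝 (1 + 0)) :=
    tendsto_const_nhds.add tendsto_one_div_atTop_nhds_zero_nat
  have h3 : Tendsto (fun q : ℕ => (1 + 1 / (q : ℝ)) ^ e) atTop (𝓝 1) := by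
    have := h2.pow e
    simpa using this
  have h4 : Tendsto (fun q : ℕ => (1 : ℝ) / (q : ℝ) ^ e) atTop (𝓝 0) := by
    have : Tendsto (fun q : ℕ => (q : ℝ) ^ e) atTop atTop :=
      (tendsto_pow_atTop (by omega)).comp tendsto_natCast_atTop_atTop
    refine (tendsto_inv_atTop_zero.comp this).congr fun q => ?_
    simp
  have h5 : Tendsto (fun q : ℕ => (1 : ℝ) / (q : ℝ) ^ (e - 1)) atTop (𝓝 0) := by
    have : Tendsto (fun q : ℕ => (q : ℝ) ^ (e - 1)) atTop atTop :=
      (tendsto_pow_atTop (by omega)).comp tendsto_natCast_atTop_atTop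
    refine (tendsto_inv_atTop_zero.comp this).congr fun q => ?_
    simp
  have h6 : Tendsto (fun q : ℕ => K (q + 1) / ((q : ℝ) + 1) ^ e * (1 + 1 / (q : ℝ)) ^ e +
      (1 + D) * (1 / (q : ℝ) ^ e) + D * (1 / (q : ℝ) ^ (e - 1))) atTop
      (𝓝 (κ * 1 + (1 + D) * 0 + D * 0)) :=
    ((h1.mul h3).add (h4.const_mul _)).add (h5.const_mul _)
  have h7 : κ * 1 + (1 + D) * 0 + D * 0 = κ := by ring
  rw [h7] at h6
  refine h6.congr' ?_
  filter_upwards [eventually_ge_atTop 1] with q hq
  have hq0 : (0 : ℝ) < q := by exact_mod_cast hq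
  obtain ⟨m, rfl⟩ : ∃ m, e = m + 1 := ⟨e - 1, by omega⟩
  have e1 : (1 + 1 / (q : ℝ)) ^ (m + 1) = ((q : ℝ) + 1) ^ (m + 1) / (q : ℝ) ^ (m + 1) := by
    rw [← div_pow]
    congr 1
    field_simp
  rw [e1, Nat.add_sub_cancel]
  have e2 : ((q : ℝ) + 1) ^ (m + 1) ≠ 0 := by positivity
  have e3 : (q : ℝ) ^ (m + 1) = (q : ℝ) ^ m * q := pow_succ _ _
  have e4 : (q : ℝ) ^ m ≠ 0 := by positivity
  rw [div_mul_div_cancel₀ e2, e3]
  field_simp
  ring

theorem gbs_tendsto {d : ℕ} (hd : 3 ≤ d) {κ : ℝ} (hκ : 0 < κ)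
    (h : Tendsto (fun r : ℕ => (kap d r : ℝ) / (r : ℝ) ^ (d - 1)) atTop (𝓝 κ)) :
    Tendsto (fun n : ℕ => (genBorderSubrank d n : ℝ) / (n : ℝ) ^ (1 / ((d : ℝ) - 1))) atTop
      (𝓝 ((1 / κ) ^ (1 / ((d : ℝ) - 1)))) := by
  have hd2 : 2 ≤ d := by omega
  have k1 : ∀ n, kap d (genBorderSubrank d n) ≤ n := by
    intro n
    by_contra hc
    exact lt_irrefl _ ((gbs_sandwich (n := n) (r := genBorderSubrank d n) hd2).2 (not_le.mp hc))
  have k2 : ∀ n, n < kap d (genBorderSubrank d n + 1) + 1 + d * (genBorderSubrank d n + 1) := by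
    intro n
    by_contra hc
    have := (gbs_sandwich (n := n) (r := genBorderSubrank d n + 1) hd2).1 (not_lt.mp hc)
    omega
  have k3 : Tendsto (fun n => genBorderSubrank d n) atTop atTop := by
    rw [tendsto_atTop]
    intro r
    filter_upwards [eventually_ge_atTop (kap d r + 1 + d * r)] with n hn
    exact (gbs_sandwich hd2).1 hn
  have k4 : Tendsto (fun n : ℕ => (n : ℝ) / (genBorderSubrank d n : ℝ) ^ (d - 1)) atTop
      (𝓝 κ) := by
    have l1 := h.comp k3
    have l2 := (fin_upper_tendsto (e := d - 1) (by omega) (d : ℝ) (K := fun r => (kap d r : ℝ))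
      h).comp k3
    refine tendsto_of_tendsto_of_tendsto_of_le_of_le l1 l2 ?_ ?_
    · intro n
      simp only [Function.comp_apply]
      refine div_le_div_of_nonneg_right ?_ (by positivity)
      exact_mod_cast k1 n
    · intro n
      simp only [Function.comp_apply]
      refine div_le_div_of_nonneg_right ?_ (by positivity)
      exact_mod_cast (k2 n).le
  have k5 : Tendsto (fun n : ℕ => (genBorderSubrank d n : ℝ) ^ (d - 1) / (n : ℝ)) atTop
      (𝓝 (1 / κ)) := by
    have := k4.inv₀ hκ.ne'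
    simpa [one_div] using this
  have k6 := k5.rpow_const (p := 1 / ((d : ℝ) - 1)) (Or.inl (by positivity))
  refine k6.congr fun n => ?_
  have hd1 : ((d - 1 : ℕ) : ℝ) = (d : ℝ) - 1 := by
    rw [Nat.cast_sub (by omega)]
    simp
  rw [Real.div_rpow (by positivity) (by positivity), ← Real.rpow_natCast, hd1,
    ← Real.rpow_mul (by positivity), mul_one_div_cancel, Real.rpow_one]
  have : (3 : ℝ) ≤ d := by exact_mod_cast hd
  linarith

theorem fin_bern {e n : ℕ} (he : 2 ≤ e) (hn : 1 ≤ n) : 1 + (e + 1) * n ≤ (n + 1) ^ e := by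
  induction e, he using Nat.le_induction with
  | base => nlinarith
  | succ e he ih =>
    calc 1 + (e + 1 + 1) * n ≤ (1 + (e + 1) * n) * (n + 1) := by nlinarith [Nat.zero_le (e * n * n)]
      _ ≤ (n + 1) ^ e * (n + 1) := Nat.mul_le_mul_right _ ih
      _ = (n + 1) ^ (e + 1) := (pow_succ _ _).symm

theorem fin_three_pow {e : ℕ} (he : 2 ≤ e) : 2 * e + 5 ≤ 3 ^ e := by
  induction e, he using Nat.le_induction with
  | base => norm_num
  | succ e he ih =>
    rw [pow_succ]
    omega

theorem fin_sum {e n : ℕ} (he : 2 ≤ e) (hn : 3 ≤ n) :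
    (e + 1) * (n * (n - 1)) < 2 * ∑ k ∈ Finset.range n, ((k + 1) ^ e - 1) := by
  induction n, hn using Nat.le_induction with
  | base =>
    have h1 := fin_three_pow he
    have h2 := fin_bern (n := 1) he le_rfl
    have h3 : (1 + 1 : ℕ) = 2 := rfl
    rw [h3] at h2
    simp only [Finset.sum_range_succ, Finset.sum_range_zero, zero_add]
    norm_num
    omega
  | succ n hn ih =>
    rw [Finset.sum_range_succ, mul_add]
    have h2 := fin_bern (n := n) he (by omega)
    have h3 : (e + 1) * ((n + 1) * (n + 1 - 1)) = (e + 1) * (n * (n - 1)) + 2 * ((e + 1) * n) := by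
      obtain ⟨m, rfl⟩ : ∃ m, n = m + 1 := ⟨n - 1, by omega⟩
      simp only [Nat.add_sub_cancel]
      ring
    rw [h3]
    have h4 : 2 * ((e + 1) * n) ≤ 2 * ((n + 1) ^ e - 1) := Nat.mul_le_mul_left _ (by omega)
    omega

theorem gbs_upper {d n : ℕ} (hd : 3 ≤ d) (hn : 3 ≤ n) :
    genBorderSubrank d n ≤ n - 1 ∧
    ∑ k ∈ Finset.range (genBorderSubrank d n), ((k + 1) ^ (d - 1) - 1) ≤
      d * (genBorderSubrank d n * n - genBorderSubrank d n * (genBorderSubrank d n + 1) / 2) := by
  have hd2 : 2 ≤ d := by omega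
  constructor
  · have h1 : genBorderSubrank d n < n := by
      refine genBorderSubrank_lt hd2 (generic_upper hd2 ?_)
      have h2 := fin_sum (e := d - 1) (n := n) (by omega) hn
      have h3 : d - 1 + 1 = d := by omega
      rw [h3] at h2
      obtain ⟨c, hc⟩ : ∃ c, n * (n + 1) = 2 * c := by
        obtain ⟨c, hc⟩ := Nat.even_mul_succ_self n
        exact ⟨c, by omega⟩
      have h4 : n * (n + 1) / 2 = c := by omega
      have h5 : n * (n - 1) + n * (n + 1) = 2 * (n * n) := by
        obtain ⟨m, rfl⟩ : ∃ m, n = m + 1 := ⟨n - 1, by omega⟩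
        simp only [Nat.add_sub_cancel]
        ring
      have h6 : n * (n - 1) = 2 * (n * n - c) := by omega
      rw [h4]
      rw [h6] at h2
      have h7 : d * (2 * (n * n - c)) = 2 * (d * (n * n - c)) := by ring
      rw [h7] at h2
      omega
    omega
  · by_contra hc
    exact lt_irrefl _ (genBorderSubrank_lt hd2 (generic_upper hd2 (not_le.mp hc)))

theorem gbs_three {n : ℕ} (hn : 3 ≤ n) :
    Real.sqrt (8.39 * n) - 60 ≤ genBorderSubrank 3 n ∧
      (genBorderSubrank 3 n + 3) ^ 2 ≤ 9 * n + 7 := by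
  constructor
  · obtain ⟨T, C, h1, h2, h3⟩ := exists_lower_param_three n (by omega)
    refine h1.trans ?_
    rcases h3 with h3 | h3
    · have h4 : 3 * T ≤ genBorderSubrank 3 n := by
        refine le_genBorderSubrank (by norm_num) (generic_lower (by norm_num) C ?_ ?_)
        · intro a ha
          have h5 := gBound_le (d := 3) (T := T) (a := a) (by norm_num) ha
          have h6 : (gBound 3 T a : ℝ) ≤ ((C * a : ℕ) : ℝ) := by
            refine h5.trans ?_
            push_cast
            refine mul_le_mul_of_nonneg_right ?_ (Nat.cast_nonneg a)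
            refine le_trans ?_ h2
            exact mul_le_mul_of_nonneg_right nu_three_le (by positivity)
          exact_mod_cast h6
        · norm_num at h3 ⊢
          omega
      exact_mod_cast h4
    · subst h3
      simp
  · by_contra hc
    push Not at hc
    have hu := gbs_upper (d := 3) (n := n) le_rfl hn
    rcases Nat.eq_zero_or_pos (genBorderSubrank 3 n) with h0 | h0
    · rw [h0] at hc
      omega
    · have := upper_three (n := n) h0 (by omega) hc
      exact absurd hu.2 (not_le.mpr this)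

end Pool.Agent.BSub
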