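import Mathlib
import Pool.Agent.Lib.MP_79bff1_ag.WDefs
import Pool.Agent.Lib.MP_79bff1_ag.Kap
import Pool.Agent.Lib.MP_79bff1_ag.GNum

/-!
# Existence of the limit constant
-/

set_option autoImplicit false

namespace Pool.Agent.BSub

open Filter Topology

theorem kapLim_aux {d : ℕ} (hd : 3 ≤ d) (a : ℕ → ℕ) (ν : ℝ)
    (hmono : ∀ r r', r ≤ r' → a r ≤ a r')
    (hmul : ∀ m r, 1 ≤ m → a (m * r) ≤ m ^ (d - 1) * (a r + 1))
    (hge : ∀ r : ℕ, 1 ≤ r → ((r : ℝ) ^ (d - 1) - d) / (d : ℝ) ^ 2 ≤ a r)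
    (hle : ∀ T : ℕ, (a (d * T) : ℝ) ≤
      ν * ((d * T : ℕ) : ℝ) ^ (d - 1) + 1 + (d : ℝ) ^ 2 * ((d * T : ℕ) : ℝ) ^ (d - 2)) :
    ∃ κ : ℝ, 1 / (d : ℝ) ^ 2 ≤ κ ∧ κ ≤ ν ∧
      Tendsto (fun r : ℕ => (a r : ℝ) / (r : ℝ) ^ (d - 1)) atTop (𝓝 κ) ∧
      ∀ r : ℕ, 1 ≤ r → κ ≤ ((a r : ℝ) + 1) / (r : ℝ) ^ (d - 1) := by
  set f : ℕ → ℝ := fun r => ((a r : ℝ) + 1) / (r : ℝ) ^ (d - 1) with hf
  have hf0 : ∀ r, 0 ≤ f r := fun r => by
    rw [hf]
    positivity
  have hbdd : BddBelow (Set.range fun n : ℕ => f (n + 1)) :=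
    ⟨0, by rintro _ ⟨n, rfl⟩; exact hf0 _⟩
  set κ : ℝ := ⨅ n : ℕ, f (n + 1) with hκ
  have h4 : ∀ r : ℕ, 1 ≤ r → κ ≤ f r := by
    intro r hr
    have := ciInf_le hbdd (r - 1)
    rwa [show r - 1 + 1 = r by omega] at this
  have hd1 : d - 1 ≠ 0 := by omega
  have hinv : Tendsto (fun r : ℕ => 1 / (r : ℝ) ^ (d - 1)) atTop (𝓝 0) := by
    have h := (tendsto_pow_atTop hd1).comp (tendsto_natCast_atTop_atTop (R := ℝ))
    exact (tendsto_inv_atTop_zero.comp h).congr fun r => by simp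
  have hlow : ∀ r : ℕ, 1 ≤ r → κ - 1 / (r : ℝ) ^ (d - 1) ≤ (a r : ℝ) / (r : ℝ) ^ (d - 1) := by
    intro r hr
    have := h4 r hr
    rw [hf] at this
    simp only [add_div] at this
    linarith
  have hlim : Tendsto (fun r : ℕ => (a r : ℝ) / (r : ℝ) ^ (d - 1)) atTop (𝓝 κ) := by
    rw [tendsto_order]
    constructor
    · intro b hb
      have h1 : Tendsto (fun r : ℕ => κ - 1 / (r : ℝ) ^ (d - 1)) atTop (𝓝 (κ - 0)) :=
        tendsto_const_nhds.sub hinv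
      rw [sub_zero] at h1
      filter_upwards [(tendsto_order.1 h1).1 b hb, eventually_ge_atTop 1] with r h2 h3
      exact h2.trans_le (hlow r h3)
    · intro b hb
      obtain ⟨n, hn⟩ := exists_lt_of_ciInf_lt hb
      set r0 : ℕ := n + 1 with hr0
      have hr0R : (0 : ℝ) < r0 := by
        rw [hr0]
        positivity
      have h1 : Tendsto (fun r : ℕ => (1 + (r0 : ℝ) / r) ^ (d - 1) * f r0) atTop
          (𝓝 ((1 + 0) ^ (d - 1) * f r0)) := by
        refine Tendsto.mul_const _ (Tendsto.pow (tendsto_const_nhds.add ?_) _)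
        exact tendsto_const_div_atTop_nhds_zero_nat (r0 : ℝ)
      rw [add_zero, one_pow, one_mul] at h1
      filter_upwards [(tendsto_order.1 h1).2 b hn, eventually_ge_atTop 1] with r h2 h3
      refine lt_of_le_of_lt ?_ h2
      have hrR : (0 : ℝ) < r := by exact_mod_cast h3
      have hm1 : r ≤ (r / r0 + 1) * r0 := by
        have := Nat.lt_div_mul_add (a := r) (b := r0) (by omega)
        nlinarith
      have hm2 : (r / r0 + 1) * r0 ≤ r + r0 := by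
        have := Nat.div_mul_le_self r r0
        nlinarith
      have h5 : a r ≤ (r / r0 + 1) ^ (d - 1) * (a r0 + 1) :=
        (hmono _ _ hm1).trans (hmul _ _ (Nat.le_add_left 1 _))
      have h6 : (a r : ℝ) ≤ (((r / r0 + 1 : ℕ) : ℝ)) ^ (d - 1) * ((a r0 : ℝ) + 1) := by
        exact_mod_cast h5
      have h7 : (((r / r0 + 1 : ℕ) : ℝ)) * r0 ≤ r + r0 := by exact_mod_cast hm2
      have h8 : ((a r0 : ℝ) + 1) = (r0 : ℝ) ^ (d - 1) * f r0 := by
        rw [hf]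
        field_simp
      rw [h8, ← mul_assoc, ← mul_pow] at h6
      have h9 : ((((r / r0 + 1 : ℕ) : ℝ)) * r0) ^ (d - 1) ≤ ((r : ℝ) + r0) ^ (d - 1) :=
        pow_le_pow_left₀ (by positivity) h7 _
      have h10 : (a r : ℝ) ≤ ((r : ℝ) + r0) ^ (d - 1) * f r0 :=
        h6.trans (mul_le_mul_of_nonneg_right h9 (hf0 r0))
      rw [div_le_iff₀ (by positivity)]
      refine h10.trans (le_of_eq ?_)
      rw [mul_right_comm, ← mul_pow]
      congr 2
      field_simp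
  refine ⟨κ, ?_, ?_, hlim, h4⟩
  · have h1 : Tendsto (fun r : ℕ => 1 / (d : ℝ) ^ 2 - (d : ℝ) / (d : ℝ) ^ 2 *
        (1 / (r : ℝ) ^ (d - 1))) atTop (𝓝 (1 / (d : ℝ) ^ 2 - (d : ℝ) / (d : ℝ) ^ 2 * 0)) :=
      tendsto_const_nhds.sub (hinv.const_mul _)
    rw [mul_zero, sub_zero] at h1
    refine le_of_tendsto_of_tendsto h1 hlim ?_
    filter_upwards [eventually_ge_atTop 1] with r hr
    have hrR : (0 : ℝ) < r := by exact_mod_cast hr
    have h2 := hge r hr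
    rw [le_div_iff₀ (by positivity)]
    refine le_trans (le_of_eq ?_) h2
    field_simp
  · have hsub : Tendsto (fun T : ℕ => d * (T + 1)) atTop atTop :=
      (tendsto_add_atTop_nat 1).const_mul_atTop' (by omega)
    have h1 := hlim.comp hsub
    have h2 : Tendsto (fun T : ℕ => ν + 1 / ((d * (T + 1) : ℕ) : ℝ) ^ (d - 1) +
        (d : ℝ) ^ 2 / ((d * (T + 1) : ℕ) : ℝ)) atTop (𝓝 (ν + 0 + 0)) := by
      refine Tendsto.add (tendsto_const_nhds.add (hinv.comp hsub)) ?_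
      exact (tendsto_const_div_atTop_nhds_zero_nat ((d : ℝ) ^ 2)).comp hsub
    rw [add_zero, add_zero] at h2
    refine le_of_tendsto_of_tendsto' h1 h2 fun T => ?_
    simp only [Function.comp_apply]
    have hpos : (0 : ℝ) < ((d * (T + 1) : ℕ) : ℝ) := by
      have : 0 < d * (T + 1) := by positivity
      exact_mod_cast this
    rw [div_le_iff₀ (by positivity)]
    refine (hle (T + 1)).trans (le_of_eq ?_)
    generalize ((d * (T + 1) : ℕ) : ℝ) = x at hpos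
    have e : x ^ (d - 1) = x ^ (d - 2) * x := by
      rw [← pow_succ]
      congr 1
      omega
    rw [e]
    field_simp

/-- the limit constant exists; it is between `1 / d ^ 2` and `nu d` -/
theorem exists_kap_limit {d : ℕ} (hd : 3 ≤ d) :
    ∃ κ : ℝ, 1 / (d : ℝ) ^ 2 ≤ κ ∧ κ ≤ nu d ∧
      Tendsto (fun r : ℕ => (kap d r : ℝ) / (r : ℝ) ^ (d - 1)) atTop (𝓝 κ) ∧
      ∀ r : ℕ, 1 ≤ r → κ ≤ ((kap d r : ℝ) + 1) / (r : ℝ) ^ (d - 1) :=
  kapLim_aux hd (kap d) (nu d) (fun _ _ h => kap_mono (by omega) h)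
    (fun m r hm => kap_mul (by omega) m r hm) (fun r hr => kap_ge (by omega) r hr)
    (fun T => kap_le (by omega) T)

end Pool.Agent.BSub
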