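import Mathlib

set_option autoImplicit false

namespace Pool.Agent.BSub

/-- comparison of two scales -/
theorem scale_key (ε : ℝ) (hε : 0 < ε) (hε1 : ε < 1) (r : ℝ) (hr : 0 < r) (k : ℤ)
    (hk : k ≠ 0) (j j' : ℕ) (hj : j < j')
    (h1 : ε ≤ r * ((2 / ε ^ 2) ^ (j + 1)) ^ k) (h1' : ε * (r * ((2 / ε ^ 2) ^ (j + 1)) ^ k) ≤ 1)
    (h2 : ε ≤ r * ((2 / ε ^ 2) ^ (j' + 1)) ^ k)
    (h2' : ε * (r * ((2 / ε ^ 2) ^ (j' + 1)) ^ k) ≤ 1) : False := by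
  set b : ℝ := 2 / ε ^ 2 with hb
  have hbε : b * ε ^ 2 = 2 := by
    rw [hb]; field_simp
  have hb1 : 1 < b := by
    rw [hb, lt_div_iff₀ (by positivity)]
    nlinarith
  have hb0 : 0 < b := by linarith
  -- the comparison
  have key : ∀ x y : ℝ, ε ≤ x → ε * y ≤ 1 → x * b ≤ y → False := by
    intro x y hx hy hxy
    have h3 : ε * (ε * b) ≤ ε * (x * b) := by
      gcongr
    have h4 : ε * (x * b) ≤ ε * y := by gcongr
    nlinarith
  have hd : 1 ≤ j' - j := by omega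
  rcases lt_or_gt_of_ne hk with hneg | hpos
  · refine key _ _ h2 h1' ?_
    have e : ((b ^ (j + 1)) ^ k : ℝ) = (b ^ (j' + 1)) ^ k * b ^ ((j' - j : ℕ) * (-k)) := by
      rw [← zpow_natCast, ← zpow_mul, ← zpow_natCast, ← zpow_mul, ← zpow_add₀ hb0.ne']
      congr 1
      push_cast [Nat.cast_sub hj.le]
      ring
    rw [e, mul_assoc]
    have h5 : b ≤ b ^ (((j' - j : ℕ) : ℤ) * (-k)) := by
      have h6 : (1 : ℤ) ≤ ((j' - j : ℕ) : ℤ) * (-k) := by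
        have : (1 : ℤ) ≤ ((j' - j : ℕ) : ℤ) := by exact_mod_cast hd
        nlinarith
      calc b = b ^ (1 : ℤ) := (zpow_one b).symm
        _ ≤ _ := zpow_le_zpow_right₀ hb1.le h6
    gcongr
  · refine key _ _ h1 h2' ?_
    have e : ((b ^ (j' + 1)) ^ k : ℝ) = (b ^ (j + 1)) ^ k * b ^ ((j' - j : ℕ) * k) := by
      rw [← zpow_natCast, ← zpow_mul, ← zpow_natCast, ← zpow_mul, ← zpow_add₀ hb0.ne']
      congr 1
      push_cast [Nat.cast_sub hj.le]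
      ring
    rw [e, mul_assoc]
    have h5 : b ≤ b ^ (((j' - j : ℕ) : ℤ) * k) := by
      have h6 : (1 : ℤ) ≤ ((j' - j : ℕ) : ℤ) * k := by
        have : (1 : ℤ) ≤ ((j' - j : ℕ) : ℤ) := by exact_mod_cast hd
        nlinarith
      calc b = b ^ (1 : ℤ) := (zpow_one b).symm
        _ ≤ _ := zpow_le_zpow_right₀ hb1.le h6
    gcongr

theorem exists_scale (N : ℕ) (ε : ℝ) (hε : 0 < ε) (hε1 : ε < 1) :
    ∃ B : ℝ, 1 ≤ B ∧ ∀ (ι : Type) [Fintype ι] (ρ : ι → ℝ) (k : ι → ℤ), Fintype.card ι ≤ N →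
      (∀ i, 0 < ρ i) → (∀ i, k i ≠ 0) →
      ∃ s : ℝ, 1 ≤ s ∧ s ≤ B ∧ ∀ i, ρ i * s ^ k i < ε ∨ 1 < ε * (ρ i * s ^ k i) := by
  classical
  have hb1 : 1 ≤ 2 / ε ^ 2 := by
    rw [le_div_iff₀ (by positivity)]
    nlinarith
  refine ⟨(2 / ε ^ 2) ^ (N + 1), one_le_pow₀ hb1, ?_⟩
  intro ι _ ρ k hcard hρ hk
  let bad : ι → Finset ℕ := fun i => (Finset.range (N + 1)).filter
    (fun j => ¬ (ρ i * ((2 / ε ^ 2) ^ (j + 1)) ^ k i < ε ∨
      1 < ε * (ρ i * ((2 / ε ^ 2) ^ (j + 1)) ^ k i)))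
  have hbad : ∀ i, (bad i).card ≤ 1 := by
    intro i
    rw [Finset.card_le_one]
    intro j hj j' hj'
    simp only [bad, Finset.mem_filter, not_or, not_lt] at hj hj'
    rcases lt_trichotomy j j' with h | h | h
    · exact (scale_key ε hε hε1 (ρ i) (hρ i) (k i) (hk i) j j' h hj.2.1 hj.2.2 hj'.2.1 hj'.2.2).elim
    · exact h
    · exact (scale_key ε hε hε1 (ρ i) (hρ i) (k i) (hk i) j' j h hj'.2.1 hj'.2.2 hj.2.1 hj.2.2).elim
  have hun : (Finset.univ.biUnion bad).card ≤ N := by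
    refine Finset.card_biUnion_le.trans ?_
    calc ∑ i, (bad i).card ≤ ∑ _i : ι, 1 := Finset.sum_le_sum fun i _ => hbad i
      _ = Fintype.card ι := by simp
      _ ≤ N := hcard
  obtain ⟨j, hj, hj'⟩ : ∃ j ∈ Finset.range (N + 1), j ∉ Finset.univ.biUnion bad := by
    apply Finset.exists_mem_notMem_of_card_lt_card
    rw [Finset.card_range]
    omega
  refine ⟨(2 / ε ^ 2) ^ (j + 1), one_le_pow₀ hb1, ?_, ?_⟩
  · apply pow_le_pow_right₀ hb1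
    have := Finset.mem_range.mp hj
    omega
  · intro i
    by_contra hcon
    apply hj'
    rw [Finset.mem_biUnion]
    exact ⟨i, Finset.mem_univ i, Finset.mem_filter.mpr ⟨hj, hcon⟩⟩

end Pool.Agent.BSub
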