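import Pool.Agent.Lib.MP_79bff1_ag.Elim
import Pool.Agent.Lib.MP_79bff1_ag.Scale

set_option autoImplicit false

namespace Pool.Agent.BSub

/-- index of the pairs of rows to be separated -/
abbrev TorusIdx (d r n : ℕ) : Type :=
  Fin d × (Σ k : Fin r, (Fin k → Fin r × Fin n)) × Fin r × Fin r

/-- weight of the coordinate `x` -/
def torusW (d : ℕ) (x0 x : Fin d) : ℤ := 1 - (if x = x0 then (d : ℤ) else 0)

theorem torusW_sum (d : ℕ) (x0 : Fin d) : ∑ x, torusW d x0 x = 0 := by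
  unfold torusW
  rw [Finset.sum_sub_distrib, Finset.sum_ite_eq' Finset.univ x0]
  simp

theorem torusW_ne {d : ℕ} (hd : 2 ≤ d) (x0 x : Fin d) : torusW d x0 x ≠ 0 := by
  unfold torusW
  split_ifs <;> omega

theorem torusW_le {d : ℕ} (hd : 2 ≤ d) (x0 x : Fin d) : torusW d x0 x ≤ d := by
  unfold torusW
  split_ifs <;> omega

/-- scaling by the torus makes all factors separated -/
theorem exists_torus (d r n : ℕ) (hd : 2 ≤ d) (ε : ℝ) (hε : 0 < ε) (hε1 : ε < 1) :
    ∃ K : ℝ, 1 ≤ K ∧ ∀ A : Fin d → Matrix (Fin r) (Fin n) ℂ, ∃ h : Fin d → Fin r → ℂ,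
      (∀ x i, h x i ≠ 0) ∧ (∀ x i, ‖h x i‖ ≤ K) ∧ (∀ i, ∏ x, h x i = 1) ∧
      ∀ x, Separated ε (fun i j => h x i * A x i j) := by
  classical
  obtain ⟨B, hB1, hB⟩ := exists_scale (Fintype.card (TorusIdx d r n)) ε hε hε1
  refine ⟨B ^ (r * d), one_le_pow₀ hB1, fun A => ?_⟩
  obtain ⟨row, hrow⟩ : ∃ row : TorusIdx d r n → Fin r → Fin n → ℂ,
      row = fun t l j => schur (A t.1) (List.ofFn t.2.1.2) l j := ⟨_, rfl⟩
  let x0 : Fin d := ⟨0, by omega⟩
  let e : Fin d → Fin r → ℤ := fun x i => ((i : ℤ) + 1) * torusW d x0 x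
  let ι := {t : TorusIdx d r n // t.2.2.1 ≠ t.2.2.2 ∧ row t t.2.2.1 ≠ 0 ∧ row t t.2.2.2 ≠ 0}
  obtain ⟨s, hs1, hsB, hs⟩ := hB ι (fun t => ‖row t.1 t.1.2.2.1‖ / ‖row t.1 t.1.2.2.2‖)
    (fun t => e t.1.1 t.1.2.2.1 - e t.1.1 t.1.2.2.2) (Fintype.card_subtype_le _)
    (fun t => div_pos (norm_pos_iff.2 t.2.2.1) (norm_pos_iff.2 t.2.2.2)) (by
      intro t h
      have h1 : ((t.1.2.2.1 : ℤ) - (t.1.2.2.2 : ℤ)) * torusW d x0 t.1.1 = 0 := by
        have : e t.1.1 t.1.2.2.1 - e t.1.1 t.1.2.2.2 =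
          ((t.1.2.2.1 : ℤ) - (t.1.2.2.2 : ℤ)) * torusW d x0 t.1.1 := by
          simp only [e]; ring
        rw [← this, h]
      rcases mul_eq_zero.1 h1 with h2 | h2
      · apply t.2.1
        apply Fin.ext
        have : (t.1.2.2.1 : ℤ) = (t.1.2.2.2 : ℤ) := by linarith
        exact_mod_cast this
      · exact torusW_ne hd x0 _ h2)
  have hs0 : 0 < s := lt_of_lt_of_le one_pos hs1
  have hsC : (s : ℂ) ≠ 0 := by exact_mod_cast hs0.ne'
  have hnorm : ∀ x i, ‖(s : ℂ) ^ (e x i)‖ = s ^ (e x i) := by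
    intro x i
    rw [norm_zpow, Complex.norm_real, Real.norm_eq_abs, abs_of_pos hs0]
  refine ⟨fun x i => (s : ℂ) ^ (e x i), fun x i => zpow_ne_zero _ hsC, ?_, ?_, ?_⟩
  · intro x i
    rw [hnorm]
    calc s ^ (e x i) ≤ s ^ (((r * d : ℕ) : ℤ)) := by
          apply zpow_le_zpow_right₀ hs1
          simp only [e]
          have h1 := torusW_le hd x0 x
          have h2 : ((i : ℤ) + 1) ≤ r := by
            have := i.2
            omega
          have h3 : (0 : ℤ) < (i : ℤ) + 1 := by positivity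
          calc ((i : ℤ) + 1) * torusW d x0 x ≤ ((i : ℤ) + 1) * d :=
                mul_le_mul_of_nonneg_left h1 h3.le
            _ ≤ r * d := mul_le_mul_of_nonneg_right h2 (by positivity)
            _ = ((r * d : ℕ) : ℤ) := by push_cast; ring
      _ = s ^ (r * d) := zpow_natCast _ _
      _ ≤ B ^ (r * d) := pow_le_pow_left₀ hs0.le hsB _
  · intro i
    have h1 : ∏ x, (s : ℂ) ^ (e x i) = (s : ℂ) ^ (∑ x, e x i) := by
      have : ∀ (t : Finset (Fin d)), ∏ x ∈ t, (s : ℂ) ^ (e x i) = (s : ℂ) ^ (∑ x ∈ t, e x i) := by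
        intro t
        induction t using Finset.induction_on with
        | empty => simp
        | insert a t ha ih => rw [Finset.prod_insert ha, Finset.sum_insert ha, ih, zpow_add₀ hsC]
      exact this Finset.univ
    have h2 : ∑ x, e x i = 0 := by
      simp only [e]
      rw [← Finset.mul_sum, torusW_sum, mul_zero]
    rw [h1, h2, zpow_zero]
  · intro x p hp l l' hll h1 h2
    have hsc : ∀ l, (fun j => schur (fun i j => (s : ℂ) ^ (e x i) * A x i j) p l j)
        = (s : ℂ) ^ (e x l) • (fun j => schur (A x) p l j) := by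
      intro l
      funext j
      rw [schur_scale (fun i => (s : ℂ) ^ (e x i)) (fun i => zpow_ne_zero _ hsC) (A x) p l j]
      rfl
    rw [hsc] at h1 h2
    rw [hsc, hsc, norm_smul, norm_smul, hnorm, hnorm]
    have h1' : (fun j => schur (A x) p l j) ≠ 0 := by
      intro h; rw [h, smul_zero] at h1; exact h1 rfl
    have h2' : (fun j => schur (A x) p l' j) ≠ 0 := by
      intro h; rw [h, smul_zero] at h2; exact h2 rfl
    let t : TorusIdx d r n := (x, ⟨⟨p.length, hp⟩, fun i => p.get i⟩, l, l')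
    have hrt : ∀ l, row t l = fun j => schur (A x) p l j := by
      intro l
      rw [hrow]
      funext j
      have : List.ofFn t.2.1.2 = p := List.ofFn_get p
      simp only [this]
      rfl
    have hkey := hs ⟨t, hll, by rw [hrt]; exact h1', by rw [hrt]; exact h2'⟩
    obtain ⟨a, ha⟩ : ∃ a, a = ‖fun j => schur (A x) p l j‖ := ⟨_, rfl⟩
    obtain ⟨b, hb⟩ : ∃ b, b = ‖fun j => schur (A x) p l' j‖ := ⟨_, rfl⟩
    have hb0 : 0 < b := by rw [hb]; exact norm_pos_iff.2 h2'
    have ha0 : 0 < a := by rw [ha]; exact norm_pos_iff.2 h1'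
    have hkey' : a / b * s ^ (e x l - e x l') < ε ∨ 1 < ε * (a / b * s ^ (e x l - e x l')) := by
      have e1 : ‖row t l‖ = a := by rw [hrt, ha]
      have e2 : ‖row t l'‖ = b := by rw [hrt, hb]
      rw [← e1, ← e2]
      exact hkey
    rw [← ha, ← hb]
    rw [zpow_sub₀ hs0.ne'] at hkey'
    have hu : 0 < s ^ (e x l) := zpow_pos hs0 _
    have hv : 0 < s ^ (e x l') := zpow_pos hs0 _
    have hrew : a / b * (s ^ (e x l) / s ^ (e x l')) = (s ^ (e x l) * a) / (s ^ (e x l') * b) := by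
      field_simp
    rw [hrew] at hkey'
    rcases hkey' with h | h
    · left
      rwa [div_lt_iff₀ (by positivity)] at h
    · right
      rw [← mul_div_assoc, lt_div_iff₀ (by positivity), one_mul] at h
      exact h

end Pool.Agent.BSub
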